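import Pool.Agent.CB.Stm4
/-!
# Project CB, part 2: assembly from the statements
-/
set_option autoImplicit false
namespace Pool.Agent.CB
open Finset Module

theorem rig (hsia : R_SIA) (hsib : R_SIB) (hocb : R_OCB)
    (hstp : ∀ m k : ℕ, 4 ≤ m → 2 ≤ k → k + 1 ≤ m → Rg m k → Rg m (k - 1) → Rg (m + 1) k) :
    ∀ m k : ℕ, 1 ≤ k → k + 1 ≤ m → Rg m k := by
  intro m
  induction m with
  | zero => intro k h1 h2; omega
  | succ m ih =>
    intro k h1 h2
    rcases Nat.eq_or_lt_of_le h1 with h | h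
    · rw [← h]; exact hsia _ (by omega)
    rcases Nat.eq_or_lt_of_le h2 with h' | h'
    · have : k = m := by omega
      rw [this]; exact hsib m
    by_cases hm : m = 3
    · subst hm
      have : k = 2 := by omega
      rw [this]; exact hocb
    · exact hstp m k (by omega) (by omega) (by omega) (ih k h1 (by omega)) (ih (k - 1) (by omega) (by omega))

theorem t_YEX : L_YEX := by
  intro X V _ _ _ z N
  refine ⟨{ carrier := {w | (∀ S T, w S T = w T S) ∧ (∀ S T, ¬ N S T → w S T = 0) ∧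
      ∀ S x, z S x = 0 → ∑ T, w S T * z T x = 0}, add_mem' := ?_, zero_mem' := ?_, smul_mem' := ?_ },
      fun w => Iff.rfl⟩
  · rintro v w ⟨h1, h2, h3⟩ ⟨g1, g2, g3⟩
    refine ⟨fun S T => ?_, fun S T h => ?_, fun S x h => ?_⟩
    · simp only [Pi.add_apply]; rw [h1 S T, g1 S T]
    · simp only [Pi.add_apply]; rw [h2 S T h, g2 S T h, add_zero]
    · simp only [Pi.add_apply, add_mul, Finset.sum_add_distrib]; rw [h3 S x h, g3 S x h, add_zero]
  · exact ⟨fun S T => rfl, fun S T _ => rfl, fun S x _ => by simp⟩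
  · rintro a v ⟨h1, h2, h3⟩
    refine ⟨fun S T => ?_, fun S T h => ?_, fun S x h => ?_⟩
    · simp only [Pi.smul_apply]; rw [h1 S T]
    · simp only [Pi.smul_apply]; rw [h2 S T h, smul_zero]
    · simp only [Pi.smul_apply, smul_eq_mul, mul_assoc, ← Finset.mul_sum]; rw [h3 S x h, mul_zero]

theorem nb_symm {ι : Type} [DecidableEq ι] {S T : Finset ι} (h : Nb S T) : Nb T S := by
  obtain ⟨x, hx, y, hy, rfl⟩ := h
  have hxy : x ≠ y := fun h => hy (h ▸ hx)
  refine ⟨y, mem_insert_self _ _, x, ?_, ?_⟩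
  · simp [hxy]
  · rw [erase_insert (by simp [hy])]
    exact (insert_erase hx).symm

theorem nb_irrefl {ι : Type} [DecidableEq ι] (S : Finset ι) : ¬ Nb S S := by
  rintro ⟨x, hx, y, hy, h⟩
  exact hy (h ▸ mem_insert_self _ _)

/-- the Chow-Betti numbers of the duals -/
theorem dual_values (hfun : D_FUN) (hdep : D_DEP) (hcnt : L_CNT) (hnbc : D_NBC) (hwtr : D_WTR)
    (hctw : D_CTW) (hcon : D_CON1) (hczr : D_CZR)
    (n k : ℕ) (q : Fin n × Bool → Fin (n - 1) → ℚ) (h : DF k q) :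
    (∀ j, j + 4 ≤ n → chowBetti q j = 1) ∧
    2 * chowBetti q (n - 3) + 2 * (n.choose k * (n - 2)) = n.choose k * (k * (n - k)) + (n - 1) * (n - 2) ∧
    chowBetti q (n - 2) + (n - 1) = n.choose k ∧ chowBetti q (n - 1) = 1 ∧ ∀ j, n ≤ j → chowBetti q j = 0 := by
  classical
  obtain ⟨z, c, hz⟩ := hfun n k q h
  refine ⟨hczr n k q h, ?_, hctw n k q z c h hz, (hcon n k q h).1, (hcon n k q h).2⟩
  obtain ⟨K, hK, hKd⟩ := hdep n k q z c h hz
  obtain ⟨Y, hY⟩ := t_YEX (Sub k n) (Fin (n - 1) → ℚ) (fun S => z S.1) (fun S T => Nb S.1 T.1)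
  have h1 := hwtr n k q z c h hz Y (fun w => hY w)
  have h2 := hcnt (Sub k n) (Fin (n - 1) → ℚ) (fun S => z S.1) (fun S T => Nb S.1 T.1)
    (fun S h0 => by
      obtain ⟨x, -, hx⟩ := (hz S.1 S.2).1.2
      rw [h0] at hx
      simp at hx) (fun S T h => nb_symm h) (fun S => nb_irrefl S.1) K Y hK hY
  have h3 := hnbc n k
  rw [h1]
  have h4 : Fintype.card (Sub k n) = n.choose k := by
    rw [Fintype.card_finset_len, Fintype.card_fin]
  have h5 : 2 * ((n - 1).choose 2) = (n - 1) * (n - 2) := by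
    rw [Nat.choose_two_right]
    have := Nat.even_mul_pred_self (n - 1)
    rw [Nat.mul_div_cancel' this.two_dvd]
    rfl
  have h6 : finrank ℚ (Fin (n - 1) → ℚ) - 1 = n - 2 := by
    rw [Module.finrank_fin_fun]; omega
  rw [hKd, h5, h6, h4] at h2
  rw [h2, h3]

end Pool.Agent.CB
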