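import Pool.Agent.CB.Stm

/-!
# Project CB, piece CZERO: the zeroth Chow-Betti number is one
-/

set_option autoImplicit false

namespace Pool.Agent.CB

open Finset Module

theorem cz_dim_single {ι : Type} {d : ℕ} (p : ι → Fin d → ℚ) (i : ι) : dim p {i} = 0 := by
  have h : lin p {i} = ⊥ := by
    unfold lin
    rw [Submodule.span_eq_bot]
    rintro x ⟨j, hj, l, hl, rfl⟩
    rw [Finset.mem_singleton] at hj hl
    rw [hj, hl, sub_self]
  unfold dim
  rw [h, finrank_bot]

/-- the edges -/
theorem cz_fc {n k : ℕ} (B : Finset (Fin n)) (x y : Fin n) (hx : x ∉ B) (hy : y ∉ B)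
    (hB : B.card + 1 = k) (S S' : Sub k n) (hS : S.1 = insert x B) (hS' : S'.1 = insert y B) :
    ∀ T : Sub k n, T ∈ fc k (insert x (insert y B))ᶜ B ↔ T = S ∨ T = S' := by
  intro T
  have hmem : T ∈ fc k (insert x (insert y B))ᶜ B ↔ (T.1 ⊆ insert x (insert y B) ∧ B ⊆ T.1) := by
    unfold fc
    rw [Finset.mem_filter]
    simp only [Finset.mem_univ, true_and]
    refine and_congr_left fun _ => ?_
    exact disjoint_compl_left_iff
  rw [hmem]
  constructor
  · rintro ⟨h1, h2⟩
    have hc : T.1.card = k := T.2
    by_cases hxT : x ∈ T.1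
    · left
      apply Subtype.ext
      rw [hS]
      symm
      apply Finset.eq_of_subset_of_card_le
      · exact Finset.insert_subset hxT h2
      · rw [hc, Finset.card_insert_of_notMem hx, hB]
    · right
      apply Subtype.ext
      rw [hS']
      apply Finset.eq_of_subset_of_card_le
      · intro z hz
        have h3 := h1 hz
        rw [Finset.mem_insert] at h3
        rcases h3 with h3 | h3
        · exact absurd (h3 ▸ hz) hxT
        · exact h3
      · rw [hc, Finset.card_insert_of_notMem hy, hB]
  · rintro (rfl | rfl)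
    · rw [hS]
      exact ⟨Finset.insert_subset_insert _ (Finset.subset_insert _ _), Finset.subset_insert _ _⟩
    · rw [hS']
      exact ⟨Finset.subset_insert _ _, Finset.subset_insert _ _⟩

theorem cz_lin {ι : Type} {d : ℕ} (p : ι → Fin d → ℚ) (G : Finset ι) (S S' : ι)
    (hG : ∀ T, T ∈ G ↔ T = S ∨ T = S') (x : Fin d → ℚ) :
    x ∈ lin p G ↔ ∃ t : ℚ, x = t • (p S' - p S) := by
  have h : lin p G = Submodule.span ℚ {p S' - p S} := by
    apply le_antisymm
    · unfold lin
      rw [Submodule.span_le]
      rintro x ⟨i, hi, j, hj, rfl⟩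
      rw [SetLike.mem_coe, Submodule.mem_span_singleton]
      rcases (hG i).1 hi with rfl | rfl <;> rcases (hG j).1 hj with rfl | rfl
      · exact ⟨0, by simp⟩
      · exact ⟨-1, by simp⟩
      · exact ⟨1, by simp⟩
      · exact ⟨0, by simp⟩
    · rw [Submodule.span_le, Set.singleton_subset_iff]
      exact Submodule.subset_span ⟨S', (hG S').2 (Or.inr rfl), S, (hG S).2 (Or.inl rfl), rfl⟩
  rw [h, Submodule.mem_span_singleton]
  exact ⟨fun ⟨t, ht⟩ => ⟨t, ht.symm⟩, fun ⟨t, ht⟩ => ⟨t, ht.symm⟩⟩

/-- the two normals of an edge are opposite -/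
theorem cz_opp {ι : Type} {d : ℕ} (p : ι → Fin d → ℚ) (G : Finset ι) (S S' : ι)
    (hG : ∀ T, T ∈ G ↔ T = S ∨ T = S') (ν ν' : (Fin d → ℚ) →ₗ[ℚ] ℚ) (h : Normal p {S} G ν)
    (h' : Normal p {S'} G ν') (u : Fin d → ℚ) (hu : u ∈ lin p G) : ν u + ν' u = 0 := by
  obtain ⟨-, h2, h3, x, hx, hxi, hx1⟩ := h
  obtain ⟨-, h2', h3', x', hx', hxi', hx1'⟩ := h'
  have hD := h2 S' ((hG S').2 (Or.inr rfl)) S (Finset.mem_singleton_self S)
  have hD' := h2' S ((hG S).2 (Or.inl rfl)) S' (Finset.mem_singleton_self S')
  have hD'' : ν' (p S' - p S) ≤ 0 := by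
    have e : p S - p S' = -(p S' - p S) := by abel
    rw [e, map_neg] at hD'
    linarith
  obtain ⟨z', hz'⟩ := h3' x hx hxi
  obtain ⟨z, hz⟩ := h3 x' hx' hxi'
  rw [cz_lin p G S S' hG] at hx hx' hu
  obtain ⟨t, rfl⟩ := hx
  obtain ⟨t', rfl⟩ := hx'
  obtain ⟨s, rfl⟩ := hu
  simp only [map_smul, smul_eq_mul] at hx1 hx1' hz hz' ⊢
  set a := ν (p S' - p S) with ha
  set b := ν' (p S' - p S) with hb
  have hapos : 0 < a := by
    rcases hD.lt_or_eq with h | h
    · exact h
    · rw [← h] at hx1
      simp at hx1
  have htpos : 0 < t := by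
    by_contra hcon
    push Not at hcon
    nlinarith
  have hzz : z * z' = 1 := by
    have : (z : ℚ) * z' = 1 := by
      rw [← hz, ← hz']
      calc t' * a * (t * b) = (t * a) * (t' * b) := by ring
        _ = 1 := by rw [hx1, hx1', mul_one]
    exact_mod_cast this
  have hz'neg : (z' : ℚ) ≤ 0 := by
    rw [← hz']
    exact mul_nonpos_of_nonneg_of_nonpos htpos.le hD''
  have hz'i : z' ≤ 0 := by exact_mod_cast hz'neg
  have hz'1 : z' = -1 := by
    rcases Int.eq_one_or_neg_one_of_mul_eq_one' hzz with h | h
    · omega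
    · exact h.2
  rw [hz'1] at hz'
  have hab : t * (a + b) = 0 := by
    rw [mul_add, hx1, hz']
    norm_num
  have hab' : a + b = 0 := by
    rcases mul_eq_zero.1 hab with h | h
    · exact absurd h htpos.ne'
    · exact h
  rw [← mul_add, hab', mul_zero]

theorem t_CZERO (h1 : S_DATA) (h2 : S_LIN) (h3 : S_FCS) (h4 : S_PRIM) (h5 : S_DUALW) : S_CZERO := by
  classical
  intro k n hk hkn p hp
  obtain ⟨a, b, α, β, hsign⟩ := h1 k n hk hkn p hp
  obtain ⟨hf1, hf2, hf3⟩ := h3 k n hk hkn
  have hdim : ∀ A B : Finset (Fin n), Disjoint A B → A.card + k + 1 ≤ n → B.card + 1 ≤ k →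
      dim p (fc k A B) = n - 1 - A.card - B.card := fun A B hd hA hB =>
    (h2 k n p a b α β hk hkn hsign A B hd hA hB).2
  have hface0 : ∀ T : Finset (Sub k n), (IsFace p T ∧ dim p T = 0) ↔ ∃ S, T = {S} := by
    intro T
    constructor
    · rintro ⟨hT, hd⟩
      rcases (hf1 T).1 ((hp.2 T).1 hT) with h | ⟨A, B, hAB, hA, hB, rfl⟩
      · exact h
      · rw [hdim A B hAB hA hB] at hd
        omega
    · rintro ⟨S, rfl⟩
      exact ⟨(hp.2 _).2 ((hf1 _).2 (Or.inl ⟨S, rfl⟩)), cz_dim_single p S⟩
  let F0 : Sub k n → FaceOf p 0 := fun S => ⟨{S}, (hface0 _).2 ⟨S, rfl⟩⟩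
  have hF0 : ∀ F : FaceOf p 0, ∃ S, F = F0 S := by
    intro F
    obtain ⟨S, hS⟩ := (hface0 F.1).1 F.2
    exact ⟨S, Subtype.ext hS⟩
  have hF0inj : ∀ S S' : Sub k n, F0 S = F0 S' → S = S' := by
    intro S S' h
    have := congrArg Subtype.val h
    exact Finset.singleton_injective this
  have : Fintype (FaceOf p 0) := Fintype.ofFinite _
  obtain ⟨S₀, -, hS₀⟩ := Finset.exists_subset_card_eq (s := (univ : Finset (Fin n))) (n := k)
    (by rw [Finset.card_univ, Fintype.card_fin]; exact hkn.le)
  let F₀ : FaceOf p 0 := F0 ⟨S₀, hS₀⟩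
  have hne : (fun _ : FaceOf p 0 => (1 : ℚ)) ≠ 0 := by
    intro h
    have := congrFun h F₀
    simp at this
  rw [h5 (Sub k n) (n - 1) p 0 (Submodule.span ℚ {fun _ : FaceOf p 0 => (1 : ℚ)}) ?_]
  · exact finrank_span_singleton hne
  intro w
  rw [Submodule.mem_span_singleton]
  constructor
  · rintro ⟨c, rfl⟩ r ⟨G, hG, hGd, u, hu, hui, hr⟩
    -- the face G is an edge
    obtain ⟨S, S', hSS, hGm⟩ : ∃ S S' : Sub k n, S ≠ S' ∧ ∀ T, T ∈ G ↔ T = S ∨ T = S' := by
      rcases (hf1 G).1 ((hp.2 G).1 hG) with ⟨S, rfl⟩ | ⟨A, B, hAB, hA, hB, rfl⟩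
      · rw [cz_dim_single] at hGd
        omega
      · rw [hdim A B hAB hA hB] at hGd
        have hcA : A.card = n - k - 1 := by omega
        have hcB : B.card + 1 = k := by omega
        have hcc : ((A ∪ B)ᶜ).card = 2 := by
          rw [Finset.card_compl, Finset.card_union_of_disjoint hAB, Fintype.card_fin]
          omega
        obtain ⟨x, y, hxy, hxyc⟩ := Finset.card_eq_two.1 hcc
        have hx : x ∉ A ∪ B := by
          rw [← Finset.mem_compl, hxyc]
          simp
        have hy : y ∉ A ∪ B := by
          rw [← Finset.mem_compl, hxyc]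
          simp
        rw [Finset.mem_union, not_or] at hx hy
        have hAeq : A = (insert x (insert y B))ᶜ := by
          ext z
          rw [Finset.mem_compl, Finset.mem_insert, Finset.mem_insert]
          have hz : z ∈ (A ∪ B)ᶜ ↔ z = x ∨ z = y := by
            rw [hxyc]
            simp
          rw [Finset.mem_compl, Finset.mem_union] at hz
          have hd : z ∈ A → z ∉ B := fun h h' => (Finset.disjoint_left.1 hAB) h h'
          tauto
        refine ⟨⟨insert x B, by rw [Finset.card_insert_of_notMem hx.2, hcB]⟩,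
          ⟨insert y B, by rw [Finset.card_insert_of_notMem hy.2, hcB]⟩, ?_, ?_⟩
        · intro h
          have h' : insert x B = insert y B := congrArg Subtype.val h
          have : x ∈ insert y B := h' ▸ Finset.mem_insert_self x B
          rw [Finset.mem_insert] at this
          rcases this with h | h
          · exact hxy h
          · exact hx.2 h
        · subst hAeq
          exact cz_fc B x y hx.2 hy.2 hcB _ _ rfl rfl
    have hsub : ∀ T : Sub k n, ((F0 T).1 ⊆ G ↔ T = S ∨ T = S') := fun T => by
      rw [← hGm T]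
      exact Finset.singleton_subset_iff
    obtain ⟨ν, hν, hrν⟩ := (hr (F0 S)).2 ((hsub S).2 (Or.inl rfl))
    obtain ⟨ν', hν', hrν'⟩ := (hr (F0 S')).2 ((hsub S').2 (Or.inr rfl))
    have hopp := cz_opp p G S S' hGm ν ν' hν hν' u hu
    rw [Fintype.sum_eq_add (F0 S) (F0 S') (fun h => hSS (hF0inj _ _ h)) ?_]
    · rw [hrν, hrν']
      simp only [Pi.smul_apply, smul_eq_mul, mul_one]
      rw [← add_mul, hopp, zero_mul]
    · rintro F ⟨hFS, hFS'⟩
      obtain ⟨T, rfl⟩ := hF0 F
      rw [(hr (F0 T)).1 ?_, zero_mul]
      rw [hsub T]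
      rintro (rfl | rfl)
      · exact hFS rfl
      · exact hFS' rfl
  · intro hw
    -- w is the same at neighbours
    have hnb : ∀ (S S' : Sub k n) (x y : Fin n) (B : Finset (Fin n)), x ∉ B → y ∉ B → x ≠ y →
        B.card + 1 = k → S.1 = insert x B → S'.1 = insert y B → w (F0 S) = w (F0 S') := by
      intro S S' x y B hx hy hxy hB hS hS'
      have hGm := cz_fc B x y hx hy hB S S' hS hS'
      have hxyB : x ∉ insert y B := by
        rw [Finset.mem_insert, not_or]
        exact ⟨hxy, hx⟩
      have hcA : ((insert x (insert y B))ᶜ : Finset (Fin n)).card = n - (k + 1) := by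
        rw [Finset.card_compl, Fintype.card_fin, Finset.card_insert_of_notMem hxyB,
          Finset.card_insert_of_notMem hy, hB]
      have hAB : Disjoint ((insert x (insert y B))ᶜ : Finset (Fin n)) B := by
        rw [disjoint_compl_left_iff]
        exact (Finset.subset_insert _ _).trans (Finset.subset_insert _ _)
      set G := fc k (insert x (insert y B))ᶜ B with hGdef
      have hGface : IsFace p G := (hp.2 _).2 ((hf1 _).2 (Or.inr ⟨_, B, hAB, by omega, by omega, rfl⟩))
      have hGd : dim p G = 0 + 1 := by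
        rw [hGdef, hdim _ B hAB (by omega) (by omega), hcA]
        omega
      have hSS : S ≠ S' := by
        intro h
        have h' : insert x B = insert y B := by rw [← hS, ← hS', h]
        have : x ∈ insert y B := h' ▸ Finset.mem_insert_self x B
        exact hxyB this
      have hyS' : y ∈ S'.1 := by rw [hS']; exact Finset.mem_insert_self _ _
      have hyS : y ∉ S.1 := by
        rw [hS, Finset.mem_insert, not_or]
        exact ⟨hxy.symm, hy⟩
      have hpos : 0 < a y (p S' - p S) := by
        have e1 := (hsign S y).1 hyS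
        have e2 := (hsign S' y).2.1 hyS'
        rw [map_sub]
        linarith
      have hDmem : p S' - p S ∈ lin p G := (cz_lin p G S S' hGm _).2 ⟨1, by simp⟩
      obtain ⟨c, hc, hci, u, huL, hui, hu1⟩ := h4 (n - 1) (lin p G) (a y) ⟨_, hDmem, hpos.ne'⟩
      have hsub : ∀ T : Sub k n, ((F0 T).1 ⊆ G ↔ T = S ∨ T = S') := fun T => by
        rw [← hGm T]
        exact Finset.singleton_subset_iff
      have hN : Normal p {S} G (c • a y) := by
        refine ⟨?_, ?_, ?_, ⟨u, huL, hui, ?_⟩⟩
        · intro v hv
          have : v = 0 := by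
            have hb : lin p {S} = ⊥ := by
              unfold lin
              rw [Submodule.span_eq_bot]
              rintro x ⟨j, hj, l, hl, rfl⟩
              rw [Finset.mem_singleton] at hj hl
              rw [hj, hl, sub_self]
            rw [hb] at hv
            exact (Submodule.mem_bot ℚ).1 hv
          rw [this, map_zero]
        · intro i hi j hj
          rw [Finset.mem_singleton] at hj
          rw [hj, LinearMap.smul_apply, smul_eq_mul]
          rcases (hGm i).1 hi with rfl | rfl
          · rw [sub_self, map_zero, mul_zero]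
          · exact (mul_pos hc hpos).le
        · intro v hv hvi
          exact hci v hv hvi
        · exact hu1
      have hN' : Normal p {S'} G (-(c • a y)) := by
        refine ⟨?_, ?_, ?_, ⟨-u, Submodule.neg_mem _ huL, ?_, ?_⟩⟩
        · intro v hv
          have : v = 0 := by
            have hb : lin p {S'} = ⊥ := by
              unfold lin
              rw [Submodule.span_eq_bot]
              rintro x ⟨j, hj, l, hl, rfl⟩
              rw [Finset.mem_singleton] at hj hl
              rw [hj, hl, sub_self]
            rw [hb] at hv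
            exact (Submodule.mem_bot ℚ).1 hv
          rw [this, map_zero]
        · intro i hi j hj
          rw [Finset.mem_singleton] at hj
          rw [hj, LinearMap.neg_apply, LinearMap.smul_apply, smul_eq_mul]
          rcases (hGm i).1 hi with rfl | rfl
          · have e : p i - p S' = -(p S' - p i) := by abel
            rw [e, map_neg, mul_neg, neg_neg]
            exact (mul_pos hc hpos).le
          · rw [sub_self, map_zero, mul_zero, neg_zero]
        · intro v hv hvi
          obtain ⟨z, hz⟩ := hci v hv hvi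
          refine ⟨-z, ?_⟩
          rw [LinearMap.neg_apply, LinearMap.smul_apply, smul_eq_mul, hz]
          push_cast
          ring
        · intro i
          obtain ⟨z, hz⟩ := hui i
          exact ⟨-z, by rw [Pi.neg_apply, hz]; push_cast; ring⟩
        · rw [LinearMap.neg_apply, map_neg, neg_neg, LinearMap.smul_apply, smul_eq_mul]
          exact hu1
      have hFne : F0 S ≠ F0 S' := fun h => hSS (hF0inj _ _ h)
      have hrel : IsRelation p 0 (Finsupp.single (F0 S) 1 - Finsupp.single (F0 S') 1 : FaceOf p 0 →₀ ℚ) := by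
        refine ⟨G, hGface, hGd, u, huL, hui, fun F => ?_⟩
        obtain ⟨T, rfl⟩ := hF0 F
        rw [hsub T]
        constructor
        · intro hT
          rw [not_or] at hT
          have e1 : F0 S ≠ F0 T := fun h => hT.1 (hF0inj _ _ h).symm
          have e2 : F0 S' ≠ F0 T := fun h => hT.2 (hF0inj _ _ h).symm
          rw [Finsupp.sub_apply, Finsupp.single_eq_of_ne e1.symm, Finsupp.single_eq_of_ne e2.symm, sub_zero]
        · rintro (rfl | rfl)
          · refine ⟨_, hN, ?_⟩
            rw [Finsupp.sub_apply, Finsupp.single_eq_same, Finsupp.single_eq_of_ne hFne, sub_zero,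
              LinearMap.smul_apply, smul_eq_mul, hu1]
          · refine ⟨_, hN', ?_⟩
            rw [Finsupp.sub_apply, Finsupp.single_eq_same, Finsupp.single_eq_of_ne hFne.symm, zero_sub,
              LinearMap.neg_apply, LinearMap.smul_apply, smul_eq_mul, hu1]
      have h := hw _ hrel
      rw [Fintype.sum_eq_add (F0 S) (F0 S') hFne ?_] at h
      · rw [Finsupp.sub_apply, Finsupp.single_eq_same, Finsupp.single_eq_of_ne hFne, Finsupp.sub_apply,
          Finsupp.single_eq_same, Finsupp.single_eq_of_ne hFne.symm] at h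
        linarith
      · rintro F ⟨e1, e2⟩
        rw [Finsupp.sub_apply, Finsupp.single_eq_of_ne e1, Finsupp.single_eq_of_ne e2, sub_zero, zero_mul]
    -- connectedness
    have hconn : ∀ (d : ℕ) (S T : Sub k n), (S.1 \ T.1).card = d → w (F0 S) = w (F0 T) := by
      intro d
      induction d with
      | zero =>
        intro S T hd
        have : S.1 ⊆ T.1 := by
          rw [← Finset.sdiff_eq_empty_iff_subset]
          exact Finset.card_eq_zero.1 hd
        have he : S.1 = T.1 := Finset.eq_of_subset_of_card_le this (by rw [S.2, T.2])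
        rw [Subtype.ext he]
      | succ d ih =>
        intro S T hd
        have hcard : (T.1 \ S.1).card = (S.1 \ T.1).card := by
          have e1 := Finset.card_sdiff_add_card_inter S.1 T.1
          have e2 := Finset.card_sdiff_add_card_inter T.1 S.1
          rw [Finset.inter_comm T.1 S.1, T.2] at e2
          rw [S.2] at e1
          omega
        obtain ⟨x, hx⟩ := Finset.card_pos.1 (by omega : 0 < (S.1 \ T.1).card)
        obtain ⟨y, hy⟩ := Finset.card_pos.1 (by omega : 0 < (T.1 \ S.1).card)
        rw [Finset.mem_sdiff] at hx hy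
        have hxy : x ≠ y := by
          rintro rfl
          exact hx.2 hy.1
        have hxB : x ∉ S.1.erase x := Finset.notMem_erase x _
        have hyB : y ∉ S.1.erase x := fun h => hy.2 (Finset.mem_of_mem_erase h)
        have hcB : (S.1.erase x).card + 1 = k := by
          rw [Finset.card_erase_add_one hx.1, S.2]
        let S' : Sub k n := ⟨insert y (S.1.erase x), by rw [Finset.card_insert_of_notMem hyB, hcB]⟩
        rw [hnb S S' x y (S.1.erase x) hxB hyB hxy hcB (Finset.insert_erase hx.1).symm rfl]
        apply ih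
        have hs : S'.1 \ T.1 = (S.1 \ T.1).erase x := by
          ext z
          simp only [S', Finset.mem_sdiff, Finset.mem_insert, Finset.mem_erase]
          constructor
          · rintro ⟨h | h, h'⟩
            · exact absurd (h ▸ hy.1) h'
            · exact ⟨h.1, h.2, h'⟩
          · rintro ⟨h, h', h''⟩
            exact ⟨Or.inr ⟨h, h'⟩, h''⟩
        rw [hs, Finset.card_erase_of_mem (Finset.mem_sdiff.2 hx), hd]
        rfl
    refine ⟨w F₀, ?_⟩
    funext F
    obtain ⟨T, rfl⟩ := hF0 F
    rw [Pi.smul_apply, smul_eq_mul, mul_one]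
    exact hconn _ _ _ rfl

end Pool.Agent.CB
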