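import Pool.Agent.CB.Stm

/-!
# Project CB: DATA, the supporting functionals
-/

set_option autoImplicit false

namespace Pool.Agent.CB

open Finset Module

theorem data_face {ι : Type} {d : ℕ} (p : ι → Fin d → ℚ) (T : Finset ι) (h : IsFace p T) :
    ∃ (f : (Fin d → ℚ) →ₗ[ℚ] ℚ) (α : ℚ), ∀ S, (S ∈ T → f (p S) + α = 0) ∧ (S ∉ T → 0 < f (p S) + α) := by
  obtain ⟨⟨S₀, hS₀⟩, f, hf⟩ := h
  have h0 := (hf S₀).1 hS₀
  refine ⟨f, - f (p S₀), fun S => ⟨fun hS => ?_, fun hS => ?_⟩⟩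
  · have h1 := (hf S).1 hS S₀
    have h2 := h0 S
    linarith
  · by_contra hc
    refine hS ((hf S).2 fun j => ?_)
    have := h0 j
    linarith

theorem data_not (k n : ℕ) (hk : k < n) (m : Fin n) : ∃ S : Sub k n, m ∉ S.1 := by
  have h : k ≤ (univ.erase m : Finset (Fin n)).card := by
    rw [card_erase_of_mem (mem_univ m), card_univ, Fintype.card_fin]
    omega
  obtain ⟨S, hS, hc⟩ := exists_subset_card_eq h
  exact ⟨⟨S, hc⟩, fun hm => by simpa using hS hm⟩

theorem data_in (k n : ℕ) (h1 : 1 ≤ k) (hk : k < n) (m : Fin n) : ∃ S : Sub k n, m ∈ S.1 := by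
  have h : k - 1 ≤ (univ.erase m : Finset (Fin n)).card := by
    rw [card_erase_of_mem (mem_univ m), card_univ, Fintype.card_fin]
    omega
  obtain ⟨S, hS, hc⟩ := exists_subset_card_eq h
  have hm : m ∉ S := fun hm => by simpa using hS hm
  exact ⟨⟨insert m S, by rw [card_insert_of_notMem hm]; omega⟩, mem_insert_self m S⟩

theorem data_face_not (k n : ℕ) (h1 : 1 ≤ k) (hk : k < n) (m : Fin n) :
    IsFace (std k n) (univ.filter fun S : Sub k n => m ∉ S.1) := by
  obtain ⟨S₀, hS₀⟩ := data_not k n hk m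
  refine ⟨⟨S₀, by simpa using hS₀⟩, LinearMap.proj m, fun i => ?_⟩
  simp only [mem_filter, mem_univ, true_and, LinearMap.proj_apply, std]
  constructor
  · intro hi j
    rw [if_neg hi]
    split_ifs <;> norm_num
  · intro h hi
    have := h S₀
    rw [if_pos hi, if_neg hS₀] at this
    norm_num at this

theorem data_face_in (k n : ℕ) (h1 : 1 ≤ k) (hk : k < n) (m : Fin n) :
    IsFace (std k n) (univ.filter fun S : Sub k n => m ∈ S.1) := by
  obtain ⟨S₀, hS₀⟩ := data_in k n h1 hk m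
  refine ⟨⟨S₀, by simpa using hS₀⟩, - LinearMap.proj m, fun i => ?_⟩
  simp only [mem_filter, mem_univ, true_and, LinearMap.neg_apply, LinearMap.proj_apply, std]
  constructor
  · intro hi j
    rw [if_pos hi]
    split_ifs <;> norm_num
  · intro h
    by_contra hi
    have := h S₀
    rw [if_neg hi, if_pos hS₀] at this
    norm_num at this

theorem t_DATA : S_DATA := by
  intro k n h1 hk p hp
  have ha : ∀ m : Fin n, ∃ (f : (Fin (n - 1) → ℚ) →ₗ[ℚ] ℚ) (α : ℚ), ∀ S : Sub k n,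
      (m ∉ S.1 → f (p S) + α = 0) ∧ (m ∈ S.1 → 0 < f (p S) + α) := fun m => by
    obtain ⟨f, α, h⟩ := data_face p _ ((hp.2 _).2 (data_face_not k n h1 hk m))
    exact ⟨f, α, fun S => ⟨fun hS => (h S).1 (by simpa using hS), fun hS => (h S).2 (by simpa using hS)⟩⟩
  have hb : ∀ m : Fin n, ∃ (f : (Fin (n - 1) → ℚ) →ₗ[ℚ] ℚ) (α : ℚ), ∀ S : Sub k n,
      (m ∈ S.1 → f (p S) + α = 0) ∧ (m ∉ S.1 → 0 < f (p S) + α) := fun m => by
    obtain ⟨f, α, h⟩ := data_face p _ ((hp.2 _).2 (data_face_in k n h1 hk m))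
    exact ⟨f, α, fun S => ⟨fun hS => (h S).1 (by simpa using hS), fun hS => (h S).2 (by simpa using hS)⟩⟩
  choose a α ha using ha
  choose b β hb using hb
  exact ⟨a, b, α, β, fun S m => ⟨(ha m S).1, (ha m S).2, (hb m S).1, (hb m S).2⟩⟩

end Pool.Agent.CB
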