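import Pool.Agent.CB.Stm

set_option autoImplicit false

namespace Pool.Agent.CB

open Finset Module

theorem t_DUALW : S_DUALW := by
  intro ι _ _ d p j _ M hM
  classical
  set S : Submodule ℚ (FaceOf p j →₀ ℚ) :=
    Submodule.span ℚ {r : FaceOf p j →₀ ℚ | IsRelation p j r} with hS
  let e : (FaceOf p j → ℚ) ≃ₗ[ℚ] Dual ℚ (FaceOf p j →₀ ℚ) := Finsupp.llift ℚ ℚ ℚ (FaceOf p j)
  have he : ∀ (w : FaceOf p j → ℚ) (r : FaceOf p j →₀ ℚ), e w r = ∑ F, r F * w F := by
    intro w r
    show (Finsupp.llift ℚ ℚ ℚ (FaceOf p j) w) r = _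
    rw [Finsupp.llift_apply, Finsupp.lift_apply, Finsupp.sum_fintype _ _ (fun _ => by simp)]
    simp only [smul_eq_mul]
  have hmap : M.map (e : (FaceOf p j → ℚ) →ₗ[ℚ] Dual ℚ (FaceOf p j →₀ ℚ)) = S.dualAnnihilator := by
    ext φ
    rw [Submodule.mem_map, Submodule.mem_dualAnnihilator]
    constructor
    · rintro ⟨w, hw, rfl⟩ x hx
      rw [hM] at hw
      rw [hS] at hx
      induction hx using Submodule.span_induction with
      | mem x h =>
        show e w x = 0
        rw [he]; exact hw x h
      | zero => exact map_zero _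
      | add x y _ _ h1 h2 => rw [map_add, h1, h2, add_zero]
      | smul c x _ h => rw [map_smul, h, smul_zero]
    · intro h
      refine ⟨e.symm φ, ?_, ?_⟩
      · rw [hM]
        intro r hr
        rw [← he, LinearEquiv.apply_symm_apply]
        exact h r (Submodule.subset_span hr)
      · show e (e.symm φ) = φ
        rw [LinearEquiv.apply_symm_apply]
  have h1 : finrank ℚ M = finrank ℚ S.dualAnnihilator := by
    rw [← hmap]
    exact (LinearEquiv.finrank_map_eq e M).symm
  rw [h1, ← S.dualQuotEquivDualAnnihilator.finrank_eq, Subspace.dual_finrank_eq]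
  rfl

end Pool.Agent.CB
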