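import Mathlib

/-!
# Project CB (MP_745f23_co): definitions

Chow-Betti numbers of the normal fan of a rational polytope, given by its vertices, by the presentation of
Fulton and Sturmfels of the Chow groups of a complete toric variety.
-/

set_option autoImplicit false

namespace Pool.Agent.CB

open Finset Module

/-- the faces of the convex hull of the points `p i`, as sets of indices: the sets where some linear
functional is minimal -/
def IsFace {ι : Type} {d : ℕ} (p : ι → Fin d → ℚ) (T : Finset ι) : Prop :=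
  T.Nonempty ∧ ∃ f : (Fin d → ℚ) →ₗ[ℚ] ℚ, ∀ i, i ∈ T ↔ ∀ j, f (p i) ≤ f (p j)

/-- the linear space parallel to the face `T` -/
def lin {ι : Type} {d : ℕ} (p : ι → Fin d → ℚ) (T : Finset ι) : Submodule ℚ (Fin d → ℚ) :=
  Submodule.span ℚ {x | ∃ i ∈ T, ∃ j ∈ T, x = p i - p j}

/-- the dimension of the face `T` -/
noncomputable def dim {ι : Type} {d : ℕ} (p : ι → Fin d → ℚ) (T : Finset ι) : ℕ := finrank ℚ (lin p T)

/-- integral vectors -/
def Integral {d : ℕ} (x : Fin d → ℚ) : Prop := ∀ c, ∃ z : ℤ, x c = z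

/-- `ν` is the primitive inner normal of the facet `F` of the face `G` (as a functional on `lin p G`): it
vanishes on `F`, is nonnegative on `G`, and maps the lattice of `lin p G` onto the integers -/
def Normal {ι : Type} {d : ℕ} (p : ι → Fin d → ℚ) (F G : Finset ι) (ν : (Fin d → ℚ) →ₗ[ℚ] ℚ) : Prop :=
  (∀ x ∈ lin p F, ν x = 0) ∧ (∀ i ∈ G, ∀ j ∈ F, 0 ≤ ν (p i - p j)) ∧
    (∀ x ∈ lin p G, Integral x → ∃ z : ℤ, ν x = z) ∧ ∃ x ∈ lin p G, Integral x ∧ ν x = 1

/-- the faces of dimension `j`, that is the cones of codimension `j` of the normal fan -/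
abbrev FaceOf {ι : Type} {d : ℕ} (p : ι → Fin d → ℚ) (j : ℕ) : Type := {T : Finset ι // IsFace p T ∧ dim p T = j}

/-- the relation of the face `G` of dimension `j + 1` (the cone `τ`) and the lattice vector `u` of `lin p G`
(an element of `M(τ)`): the sum of the `⟨u, n_{σ,τ}⟩ [V(σ)]` -/
def IsRelation {ι : Type} {d : ℕ} (p : ι → Fin d → ℚ) (j : ℕ) (r : FaceOf p j →₀ ℚ) : Prop :=
  ∃ G : Finset ι, IsFace p G ∧ dim p G = j + 1 ∧ ∃ u ∈ lin p G, Integral u ∧
    ∀ F : FaceOf p j, (¬ F.1 ⊆ G → r F = 0) ∧ (F.1 ⊆ G → ∃ ν, Normal p F.1 G ν ∧ r F = ν u)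

/-- the `j`-th Chow-Betti number of the normal fan: the dimension of the rational Chow group `A_j` -/
noncomputable def chowBetti {ι : Type} {d : ℕ} (p : ι → Fin d → ℚ) (j : ℕ) : ℕ :=
  finrank ℚ ((FaceOf p j →₀ ℚ) ⧸ Submodule.span ℚ {r : FaceOf p j →₀ ℚ | IsRelation p j r})

/-- the `k`-subsets of `Fin n`, the vertices of `Δ(k, n)` -/
abbrev Sub (k n : ℕ) : Type := {S : Finset (Fin n) // S.card = k}

/-- the vertices of the hypersimplex -/
def std (k n : ℕ) (S : Sub k n) : Fin n → ℚ := fun m => if m ∈ S.1 then 1 else 0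

/-- `p` is a realization of the combinatorial type of `Δ(k, n)` in dimension `n - 1` -/
def Real {k n : ℕ} (p : Sub k n → Fin (n - 1) → ℚ) : Prop :=
  lin p univ = ⊤ ∧ ∀ T, IsFace p T ↔ IsFace (std k n) T

/-- the facet `x_m = 0` (for `false`) or `x_m = 1` (for `true`) of the hypersimplex contains the set `T` -/
def Has {k n : ℕ} (T : Finset (Sub k n)) (i : Fin n × Bool) : Prop :=
  ∀ S ∈ T, (i.1 ∈ S.1 ↔ i.2 = true)

open Classical in
/-- `q` is a realization of the combinatorial type of the dual of `Δ(k, n)` in dimension `n - 1`,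
`2 ≤ k ≤ n - 2`: the vertices correspond to the `2 n` facets of `Δ(k, n)`, and the proper faces are the sets of
the facets which contain a given proper face of `Δ(k, n)` -/
def RealDual (k : ℕ) {n : ℕ} (q : Fin n × Bool → Fin (n - 1) → ℚ) : Prop :=
  lin q univ = ⊤ ∧ ∀ T : Finset (Fin n × Bool), IsFace q T ↔ T = univ ∨
    ∃ F : Finset (Sub k n), IsFace (std k n) F ∧ F ≠ univ ∧ T = univ.filter fun i => Has F i

/-- the face `x_m = 0` for `m ∈ A`, `x_m = 1` for `m ∈ B` -/
def fc {n : ℕ} (k : ℕ) (A B : Finset (Fin n)) : Finset (Sub k n) :=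
  univ.filter fun S => Disjoint A S.1 ∧ B ⊆ S.1

/-- the partial sums of the binomial coefficients -/
def bs (n m : ℕ) : ℕ := ∑ l ∈ range (m + 1), n.choose l

end Pool.Agent.CB
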