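import Pool.Agent.CB.Stm

/-!
# Project CB, piece FCS (helper51): the faces of the hypersimplex
-/

set_option autoImplicit false

namespace Pool.Agent.CB

open Finset Module

namespace FCS

variable {k n : ℕ}

theorem mem_fc {A B : Finset (Fin n)} {S : Sub k n} : S ∈ fc k A B ↔ Disjoint A S.1 ∧ B ⊆ S.1 := by
  unfold fc
  simp

theorem exS {X Y : Finset (Fin n)} (h : X ⊆ Y) (h1 : X.card ≤ k) (h2 : k ≤ Y.card) :
    ∃ S : Sub k n, X ⊆ S.1 ∧ S.1 ⊆ Y := by
  obtain ⟨u, hu1, hu2, hu3⟩ := exists_subsuperset_card_eq h h1 h2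
  exact ⟨⟨u, hu3⟩, hu1, hu2⟩

theorem val (f : (Fin n → ℚ) →ₗ[ℚ] ℚ) (S : Sub k n) : f (std k n S) = ∑ m ∈ S.1, f (Pi.single m 1) := by
  have h : std k n S = ∑ m ∈ S.1, Pi.single m (1 : ℚ) := by
    funext x
    rw [Finset.sum_apply]
    unfold std
    simp [Pi.single_apply]
  rw [h, map_sum]

theorem exists_fun (c : Fin n → ℚ) : ∃ f : (Fin n → ℚ) →ₗ[ℚ] ℚ, ∀ S : Sub k n, f (std k n S) = ∑ m ∈ S.1, c m := by
  refine ⟨∑ m, c m • (LinearMap.proj m : (Fin n → ℚ) →ₗ[ℚ] ℚ), fun S => ?_⟩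
  rw [LinearMap.sum_apply]
  simp only [LinearMap.smul_apply, LinearMap.proj_apply, std, smul_eq_mul, mul_ite, mul_one, mul_zero]
  rw [Finset.sum_ite_mem, Finset.univ_inter]

theorem card_compl' (A : Finset (Fin n)) : Aᶜ.card = n - A.card := by
  rw [card_compl, Fintype.card_fin]

theorem sub_compl {A B : Finset (Fin n)} (hd : Disjoint A B) : B ⊆ Aᶜ :=
  fun _ hx => mem_compl.2 fun hxA => disjoint_left.1 hd hxA hx

theorem disj_of {A B : Finset (Fin n)} (h : B ⊆ Aᶜ) : Disjoint A B :=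
  disjoint_left.2 fun _ hA hB => mem_compl.1 (h hB) hA

theorem face_of {A B : Finset (Fin n)} (hd : Disjoint A B) (hA : A.card + k ≤ n) (hB : B.card ≤ k) :
    IsFace (std k n) (fc k A B) := by
  obtain ⟨S₀, h1, h2⟩ := exS (k := k) (sub_compl hd) hB (by rw [card_compl']; omega)
  have hS₀ : S₀ ∈ fc k A B := mem_fc.2 ⟨disj_of h2, h1⟩
  refine ⟨⟨S₀, hS₀⟩, ?_⟩
  obtain ⟨f, hf⟩ := exists_fun (k := k) (fun m : Fin n => (if m ∈ A then (1 : ℚ) else 0) - (if m ∈ B then 1 else 0))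
  have hval : ∀ S : Sub k n, f (std k n S) = ((S.1 ∩ A).card : ℚ) - ((S.1 ∩ B).card : ℚ) := by
    intro S
    rw [hf, sum_sub_distrib, sum_ite_mem, sum_ite_mem]
    simp
  have hin : ∀ S ∈ fc k A B, f (std k n S) = -(B.card : ℚ) := by
    intro S hS
    obtain ⟨h3, h4⟩ := mem_fc.1 hS
    rw [hval, inter_eq_right.2 h4, (disjoint_iff_inter_eq_empty.1 h3.symm), card_empty]
    simp
  refine ⟨f, fun S => ⟨fun hS S' => ?_, fun hS => ?_⟩⟩
  · rw [hin S hS, hval]
    have h3 : ((S'.1 ∩ B).card : ℚ) ≤ B.card := by exact_mod_cast card_le_card inter_subset_right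
    have h4 : (0 : ℚ) ≤ (S'.1 ∩ A).card := Nat.cast_nonneg _
    linarith
  · have h3 := hS S₀
    rw [hin S₀ hS₀, hval] at h3
    have h4 : (S.1 ∩ B).card ≤ B.card := card_le_card inter_subset_right
    have h5 : (S.1 ∩ A).card + B.card ≤ (S.1 ∩ B).card := by
      have h6 : ((S.1 ∩ A).card : ℚ) + B.card ≤ (S.1 ∩ B).card := by linarith
      exact_mod_cast h6
    refine mem_fc.2 ⟨?_, ?_⟩
    · have h6 : (S.1 ∩ A).card = 0 := by omega
      exact (disjoint_iff_inter_eq_empty.2 (card_eq_zero.1 h6)).symm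
    · have h6 : S.1 ∩ B = B := eq_of_subset_of_card_le inter_subset_right (by omega)
      exact inter_eq_right.1 h6

theorem of_face {T : Finset (Sub k n)} (hk : 1 ≤ k) (h : IsFace (std k n) T) : ∃ A B : Finset (Fin n),
    Disjoint A B ∧ A.card + k ≤ n ∧ B.card + 1 ≤ k ∧ T = fc k A B := by
  obtain ⟨⟨S₀, hS₀⟩, f, hf⟩ := h
  obtain ⟨c, hc⟩ : ∃ c : Fin n → ℚ, ∀ m, c m = f (Pi.single m 1) := ⟨_, fun _ => rfl⟩
  have hw : ∀ S : Sub k n, f (std k n S) = ∑ m ∈ S.1, c m := fun S => by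
    rw [val]
    exact sum_congr rfl fun m _ => (hc m).symm
  have hex : ∀ S ∈ T, ∀ x ∈ S.1, ∀ y, y ∉ S.1 → c x ≤ c y := by
    intro S hS x hx y hy
    have hy' : y ∉ S.1.erase x := fun h => hy (mem_of_mem_erase h)
    have hcard : (insert y (S.1.erase x)).card = k := by
      rw [card_insert_of_notMem hy', card_erase_of_mem hx, S.2]
      omega
    have h1 := (hf S).1 hS ⟨insert y (S.1.erase x), hcard⟩
    rw [hw, hw] at h1
    have h3 : ∑ m ∈ insert y (S.1.erase x), c m = c y + ∑ m ∈ S.1.erase x, c m := sum_insert hy'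
    have h2 := add_sum_erase S.1 c hx
    have h4 : ∑ m ∈ S.1, c m ≤ ∑ m ∈ insert y (S.1.erase x), c m := h1
    linarith
  obtain ⟨x₀, hx₀, hmax⟩ := exists_max_image S₀.1 c (card_pos.1 (by rw [S₀.2]; omega))
  obtain ⟨A, hA⟩ : ∃ A : Finset (Fin n), ∀ m, m ∈ A ↔ c x₀ < c m := ⟨univ.filter fun m => c x₀ < c m, fun m => by simp⟩
  obtain ⟨B, hB⟩ : ∃ B : Finset (Fin n), ∀ m, m ∈ B ↔ c m < c x₀ := ⟨univ.filter fun m => c m < c x₀, fun m => by simp⟩
  have hAB : Disjoint A B := disjoint_left.2 fun m h1 h2 => lt_asymm ((hA m).1 h1) ((hB m).1 h2)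
  have hBS : B ⊆ S₀.1 := by
    intro m hm
    by_contra h1
    exact absurd (hex S₀ hS₀ x₀ hx₀ m h1) (not_le.2 ((hB m).1 hm))
  have hAS : S₀.1 ⊆ Aᶜ := by
    intro m hm
    rw [mem_compl, hA]
    exact not_lt.2 (hmax m hm)
  have hBk : B.card + 1 ≤ k := by
    have h1 : B ⊂ S₀.1 := by
      refine (ssubset_iff_of_subset hBS).2 ⟨x₀, hx₀, ?_⟩
      rw [hB]
      exact lt_irrefl _
    have h2 := card_lt_card h1
    rw [S₀.2] at h2
    omega
  have hAk : k ≤ Aᶜ.card := by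
    have h1 := card_le_card hAS
    rwa [S₀.2] at h1
  have hAn : A.card + k ≤ n := by
    rw [card_compl'] at hAk
    omega
  have hsum : ∀ S : Sub k n, Disjoint A S.1 → B ⊆ S.1 →
      ∑ m ∈ S.1, c m = ∑ m ∈ B, (c m - c x₀) + k * c x₀ := by
    intro S h1 h2
    have h3 : ∑ m ∈ B, (c m - c x₀) = ∑ m ∈ S.1, (c m - c x₀) := by
      refine sum_subset h2 fun m hm hmB => ?_
      have h4 : ¬ c m < c x₀ := fun h => hmB ((hB m).2 h)
      have h5 : ¬ c x₀ < c m := fun h => disjoint_left.1 h1 ((hA m).2 h) hm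
      have h6 : c m = c x₀ := le_antisymm (not_lt.1 h5) (not_lt.1 h4)
      rw [h6, sub_self]
    rw [h3, sum_sub_distrib, sum_const, S.2, nsmul_eq_mul]
    ring
  refine ⟨A, B, hAB, hAn, hBk, ?_⟩
  ext S
  constructor
  · intro hS
    refine mem_fc.2 ⟨disjoint_left.2 fun a ha haS => ?_, fun b hb => ?_⟩
    · obtain ⟨y, hy1, hy2⟩ : ∃ y, y ∉ A ∧ y ∉ S.1 := by
        by_contra hcon
        push Not at hcon
        have h1 : Aᶜ ⊆ S.1.erase a := fun y hy => by
          rw [mem_compl] at hy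
          exact mem_erase.2 ⟨fun e => hy (e ▸ ha), hcon y hy⟩
        have h2 := card_le_card h1
        rw [card_erase_of_mem haS, S.2] at h2
        omega
      rw [hA] at hy1 ha
      exact absurd (hex S hS a haS y hy2) (by linarith [not_lt.1 hy1])
    · by_contra hbS
      obtain ⟨x, hx1, hx2⟩ : ∃ x ∈ S.1, x ∉ B := by
        by_contra hcon
        push Not at hcon
        have h2 := card_le_card (show S.1 ⊆ B from hcon)
        rw [S.2] at h2
        omega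
      rw [hB] at hx2 hb
      exact absurd (hex S hS x hx1 b hbS) (by linarith [not_lt.1 hx2])
  · intro hS
    obtain ⟨h1, h2⟩ := mem_fc.1 hS
    refine (hf S).2 fun j => ?_
    have h3 := (hf S₀).1 hS₀ j
    rwa [hw S₀, hsum S₀ (disj_of hAS) hBS, ← hsum S h1 h2, ← hw S] at h3

end FCS

open FCS in
/-- **FCS** -/
theorem t_FCS : S_FCS := by
  intro k n hk hkn
  -- the members of a face which avoid or contain a given element
  have hav : ∀ A B : Finset (Fin n), Disjoint A B → A.card + k + 1 ≤ n → B.card + 1 ≤ k → ∀ b, b ∉ B →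
      ∃ S ∈ fc k A B, b ∉ S.1 := by
    intro A B hd hA hB b hb
    have h1 : B ⊆ Aᶜ.erase b := fun x hx => mem_erase.2 ⟨fun e => hb (e ▸ hx), sub_compl hd hx⟩
    have h3 : Aᶜ.card ≤ (Aᶜ.erase b).card + 1 := by
      have := pred_card_le_card_erase (s := Aᶜ) (a := b)
      omega
    obtain ⟨S, h4, h5⟩ := exS (k := k) h1 (by omega) (by rw [card_compl'] at h3; omega)
    exact ⟨S, mem_fc.2 ⟨disj_of (h5.trans (erase_subset _ _)), h4⟩, fun h => notMem_erase b _ (h5 h)⟩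
  have hco : ∀ A B : Finset (Fin n), Disjoint A B → A.card + k + 1 ≤ n → B.card + 1 ≤ k → ∀ a, a ∉ A →
      ∃ S ∈ fc k A B, a ∈ S.1 := by
    intro A B hd hA hB a ha
    have h1 : insert a B ⊆ Aᶜ := insert_subset (mem_compl.2 ha) (sub_compl hd)
    have h3 := card_insert_le a B
    obtain ⟨S, h4, h5⟩ := exS (k := k) h1 (by omega) (by rw [card_compl']; omega)
    exact ⟨S, mem_fc.2 ⟨disj_of h5, (subset_insert _ _).trans h4⟩, h4 (mem_insert_self _ _)⟩
  refine ⟨fun T => ⟨fun hT => ?_, ?_⟩, fun A B A' B' hd hA hB hd' hA' hB' => ⟨fun hs => ⟨fun a ha => ?_, fun b hb => ?_⟩,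
    fun hs => ?_⟩, fun A B hd hA hB => ?_⟩
  · obtain ⟨A, B, hd, hA, hB, rfl⟩ := of_face hk hT
    by_cases h : A.card + k + 1 ≤ n
    · exact Or.inr ⟨A, B, hd, h, hB, rfl⟩
    · left
      obtain ⟨⟨S₀, hS₀⟩, -⟩ := hT
      have h1 : ∀ S ∈ fc k A B, S.1 = Aᶜ := fun S hS =>
        eq_of_subset_of_card_le (sub_compl (mem_fc.1 hS).1) (by rw [card_compl', S.2]; omega)
      exact ⟨S₀, eq_singleton_iff_unique_mem.2 ⟨hS₀, fun S hS => Subtype.ext ((h1 S hS).trans (h1 S₀ hS₀).symm)⟩⟩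
  · rintro (⟨S, rfl⟩ | ⟨A, B, hd, hA, hB, rfl⟩)
    · have h1 : ({S} : Finset (Sub k n)) = fc k S.1ᶜ ∅ := by
        ext S'
        rw [mem_singleton, mem_fc]
        constructor
        · rintro rfl
          exact ⟨disjoint_compl_left, empty_subset _⟩
        · rintro ⟨h2, -⟩
          have h3 : S'.1 ⊆ S.1 := by
            have h4 := sub_compl h2
            rwa [compl_compl] at h4
          exact Subtype.ext (eq_of_subset_of_card_le h3 (by rw [S.2, S'.2]))
      rw [h1]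
      exact face_of (disjoint_empty_right _) (by rw [card_compl', S.2]; omega) (by simp)
    · exact face_of hd (by omega) (by omega)
  · by_contra haA
    obtain ⟨S, h1, h2⟩ := hco A B hd hA hB a haA
    exact disjoint_left.1 (mem_fc.1 (hs h1)).1 ha h2
  · by_contra hbB
    obtain ⟨S, h1, h2⟩ := hav A B hd hA hB b hbB
    exact h2 ((mem_fc.1 (hs h1)).2 hb)
  · intro S hS
    obtain ⟨h1, h2⟩ := mem_fc.1 hS
    exact mem_fc.2 ⟨disjoint_of_subset_left hs.1 h1, hs.2.trans h2⟩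
  · obtain ⟨S₀, h1, h2⟩ := exS (k := k) (sub_compl hd) (by omega) (by rw [card_compl']; omega)
    have h3 : S₀ ∈ fc k A B := mem_fc.2 ⟨disj_of h2, h1⟩
    obtain ⟨x, hx1, hx2⟩ : ∃ x ∈ S₀.1, x ∉ B := by
      by_contra hcon
      push Not at hcon
      have h4 := card_le_card (show S₀.1 ⊆ B from hcon)
      rw [S₀.2] at h4
      omega
    obtain ⟨S, h4, h5⟩ := hav A B hd hA hB x hx2
    exact one_lt_card.2 ⟨S₀, h3, S, h4, fun e => h5 (e ▸ hx1)⟩

end Pool.Agent.CB
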