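import Pool.Agent.CB.Stm

/-!
# Project CB (MP_745f23_co): FIN1 (helper11)
-/

set_option autoImplicit false

namespace Pool.Agent.CB

open Finset Module

theorem t_FIN1 (hUPP : S_UPP) (hLOW : S_LOW) (hSUR : S_SUR) (hDATA : S_DATA) (hHALF : S_HALF)
    (hCZERO : S_CZERO) : S_FIN1 := by
  intro k n hk hkn p hp j
  rcases Nat.eq_zero_or_pos j with rfl | hj
  · rw [if_pos rfl]
    exact hCZERO k n hk hkn p hp
  rw [if_neg (by omega)]
  by_cases hjn : j < n
  · rw [if_pos hjn]
    obtain ⟨a, b, α, β, hS⟩ := hDATA k n hk hkn p hp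
    rw [hHALF k n p a b α β hk hkn hp hS j hj hjn]
    obtain ⟨r, rfl⟩ : ∃ r, k = r + 1 := ⟨k - 1, by omega⟩
    obtain ⟨s, hs⟩ : ∃ s, r + s + 2 = n := ⟨n - r - 2, by omega⟩
    have e1 : r + 1 - 1 = r := by omega
    have e2 : n - (r + 1) - 1 = s := by omega
    have e3 : r + s - (n - 1 - j) = j - 1 := by omega
    rw [e1, e2]
    have hfin : finrank ℚ (Fin (n - 1) → ℚ) = n - 1 := by simp
    refine le_antisymm ?_ ?_
    · have h := hUPP (Fin (n - 1) → ℚ) (Fin n) ⊤ a b univ r s (n - 1 - j)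
        (by rw [Finset.card_univ, Fintype.card_fin]; omega)
        (by rw [Finset.card_univ, Fintype.card_fin]; omega) ?_ (by omega)
      · rwa [Finset.card_univ, Fintype.card_fin, e3] at h
      · intro A B _ _ hd hc hA hB
        rw [Finset.card_univ, Fintype.card_fin] at hc
        exact hSUR (Fin (n - 1) → ℚ) (r + 1) n a b α β p hk hkn hS A B hd (by omega) (by omega)
          (by omega)
    · have h := hLOW (Fin (n - 1) → ℚ) n r s (n - 1 - j) a b α β p hs hfin hS (by omega)
      rwa [e3] at h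
  · rw [if_neg hjn]
    have hE : IsEmpty (FaceOf p j) := by
      refine ⟨fun T => ?_⟩
      have h1 : dim p T.1 ≤ finrank ℚ (Fin (n - 1) → ℚ) := Submodule.finrank_le _
      rw [T.2.2] at h1
      have h2 : finrank ℚ (Fin (n - 1) → ℚ) = n - 1 := by simp
      omega
    unfold chowBetti
    exact finrank_zero_of_subsingleton

end Pool.Agent.CB
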