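import Pool.Agent.CB.Stm

/-!
# Piece HALF of project CB: identification of the weights
-/

set_option autoImplicit false

namespace Pool.Agent.CB

open Finset Module

namespace HALF24

variable {k n : ℕ}

/-- pairs of sets -/
abbrev Pr (n : ℕ) : Type := Finset (Fin n) × Finset (Fin n)

/-- the functionals -/
def vv (a b : Fin n → (Fin (n - 1) → ℚ) →ₗ[ℚ] ℚ) (c : Fin n × Bool) :
    (Fin (n - 1) → ℚ) →ₗ[ℚ] ℚ :=
  match c with
  | (m, false) => a m
  | (m, true) => b m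

/-- the constants -/
def cst (α β : Fin n → ℚ) (c : Fin n × Bool) : ℚ :=
  match c with
  | (m, false) => α m
  | (m, true) => β m

/-- add an index to the first or to the second set -/
def add (Q : Pr n) (c : Fin n × Bool) : Pr n :=
  match c with
  | (m, false) => (insert m Q.1, Q.2)
  | (m, true) => (Q.1, insert m Q.2)

/-- the set of the functionals of a pair -/
def sg (Q : Pr n) : Finset (Fin n × Bool) :=
  univ.filter fun c => (c.2 = false ∧ c.1 ∈ Q.1) ∨ (c.2 = true ∧ c.1 ∈ Q.2)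

/-- pairs which give faces of positive dimension -/
structure Ok (k : ℕ) (Q : Pr n) : Prop where
  dj : Disjoint Q.1 Q.2
  cA : Q.1.card + k + 1 ≤ n
  cB : Q.2.card + 1 ≤ k

/-- the index of `c` is new -/
def New (Q : Pr n) (c : Fin n × Bool) : Prop := c.1 ∉ Q.1 ∧ c.1 ∉ Q.2

/-- the face of a pair -/
abbrev GG (k : ℕ) (Q : Pr n) : Finset (Sub k n) := fc k Q.1 Q.2

theorem mem_sg_false {Q : Pr n} {m : Fin n} : (m, false) ∈ sg Q ↔ m ∈ Q.1 := by simp [sg]

theorem mem_sg_true {Q : Pr n} {m : Fin n} : (m, true) ∈ sg Q ↔ m ∈ Q.2 := by simp [sg]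

theorem notMem_sg {Q : Pr n} {c : Fin n × Bool} (h : New Q c) : c ∉ sg Q := by
  rcases c with ⟨m, _ | _⟩
  · rw [mem_sg_false]
    exact h.1
  · rw [mem_sg_true]
    exact h.2

theorem sg_add (Q : Pr n) (c : Fin n × Bool) : sg (add Q c) = insert c (sg Q) := by
  ext ⟨m', e'⟩
  rcases c with ⟨m, _ | _⟩ <;> cases e' <;> simp [sg, add]

theorem add_fst (Q : Pr n) (c : Fin n × Bool) : Q.1 ⊆ (add Q c).1 := by
  rcases c with ⟨m, _ | _⟩
  · exact subset_insert _ _
  · exact Subset.refl _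

theorem add_snd (Q : Pr n) (c : Fin n × Bool) : Q.2 ⊆ (add Q c).2 := by
  rcases c with ⟨m, _ | _⟩
  · exact Subset.refl _
  · exact subset_insert _ _

theorem add_card {Q : Pr n} {c : Fin n × Bool} (h : New Q c) :
    (add Q c).1.card + (add Q c).2.card = Q.1.card + Q.2.card + 1 := by
  rcases c with ⟨m, _ | _⟩
  · show (insert m Q.1).card + Q.2.card = _
    rw [card_insert_of_notMem h.1]
    omega
  · show Q.1.card + (insert m Q.2).card = _
    rw [card_insert_of_notMem h.2]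
    omega

theorem mem_fc {A B : Finset (Fin n)} {S : Sub k n} : S ∈ fc k A B ↔ Disjoint A S.1 ∧ B ⊆ S.1 := by
  simp [fc]

/-- the KAP property -/
def Kap (a b : Fin n → (Fin (n - 1) → ℚ) →ₗ[ℚ] ℚ) (κ : Finset (Fin n × Bool) → ℚ) : Prop :=
  ∀ (σ : Finset (Fin n × Bool)) (m : Fin n × Bool), m ∉ σ →
      (∀ f : Fin n × Bool → ℚ, ∃ x, ∀ i ∈ insert m σ, vv a b i x = f i) →
      ∀ ν : (Fin (n - 1) → ℚ) →ₗ[ℚ] ℚ,
      (∀ x, (∀ i ∈ σ, vv a b i x = 0) → Integral x → ∃ z : ℤ, ν x = z) →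
      (∃ x, (∀ i ∈ σ, vv a b i x = 0) ∧ Integral x ∧ ν x = 1) →
      (∀ x, (∀ i ∈ insert m σ, vv a b i x = 0) → ν x = 0) →
      (∃ x, (∀ i ∈ σ, vv a b i x = 0) ∧ 0 < ν x ∧ 0 < vv a b m x) →
      ∀ x, (∀ i ∈ σ, vv a b i x = 0) → κ (insert m σ) * ν x = κ σ * vv a b m x

section

variable {p : Sub k n → Fin (n - 1) → ℚ} {a b : Fin n → (Fin (n - 1) → ℚ) →ₗ[ℚ] ℚ} {α β : Fin n → ℚ}

theorem sign_nonneg (hs : Sign p a b α β) (c : Fin n × Bool) (S : Sub k n) :
    0 ≤ vv a b c (p S) + cst α β c := by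
  rcases c with ⟨m, _ | _⟩
  · show 0 ≤ a m (p S) + α m
    by_cases h : m ∈ S.1
    · exact ((hs S m).2.1 h).le
    · exact ((hs S m).1 h).ge
  · show 0 ≤ b m (p S) + β m
    by_cases h : m ∈ S.1
    · exact ((hs S m).2.2.1 h).ge
    · exact ((hs S m).2.2.2 h).le

theorem sign_zero (hs : Sign p a b α β) {Q : Pr n} {c : Fin n × Bool} {S : Sub k n}
    (h : S ∈ GG k (add Q c)) : vv a b c (p S) + cst α β c = 0 := by
  rcases c with ⟨m, _ | _⟩
  · have h1 := (mem_fc.1 h).1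
    have h2 : m ∉ S.1 := Finset.disjoint_left.1 h1 (mem_insert_self m Q.1)
    exact (hs S m).1 h2
  · have h1 := (mem_fc.1 h).2
    exact (hs S m).2.2.1 (h1 (mem_insert_self m Q.2))

theorem sign_pos (hs : Sign p a b α β) {Q : Pr n} {c : Fin n × Bool} {S : Sub k n}
    (h : S ∈ GG k Q) (h' : S ∉ GG k (add Q c)) : 0 < vv a b c (p S) + cst α β c := by
  have h1 := mem_fc.1 h
  rcases c with ⟨m, _ | _⟩
  · have h2 : m ∈ S.1 := by
      by_contra h3
      apply h'
      refine mem_fc.2 ⟨?_, h1.2⟩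
      show Disjoint (insert m Q.1) S.1
      rw [disjoint_insert_left]
      exact ⟨h3, h1.1⟩
    exact (hs S m).2.1 h2
  · have h2 : m ∉ S.1 := by
      intro h3
      apply h'
      refine mem_fc.2 ⟨h1.1, ?_⟩
      show insert m Q.2 ⊆ S.1
      exact insert_subset h3 h1.2
    exact (hs S m).2.2.2 h2

theorem sub_mem_lin {T : Finset (Sub k n)} {S S' : Sub k n} (h : S ∈ T) (h' : S' ∈ T) :
    p S - p S' ∈ lin p T := Submodule.subset_span ⟨S, h, S', h', rfl⟩

theorem lin_iff (h2 : S_LIN) (hk : 1 ≤ k) (hkn : k < n) (hs : Sign p a b α β) {Q : Pr n}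
    (hQ : Ok k Q) (x : Fin (n - 1) → ℚ) :
    x ∈ lin p (GG k Q) ↔ ∀ c ∈ sg Q, vv a b c x = 0 := by
  rw [(h2 k n p a b α β hk hkn hs Q.1 Q.2 hQ.dj hQ.cA hQ.cB).1 x]
  constructor
  · rintro ⟨h3, h4⟩ ⟨m, e⟩ hm
    cases e
    · exact h3 m (mem_sg_false.1 hm)
    · exact h4 m (mem_sg_true.1 hm)
  · intro h
    exact ⟨fun m hm => h (m, false) (mem_sg_false.2 hm), fun m hm => h (m, true) (mem_sg_true.2 hm)⟩

theorem sub_iff (h3 : S_FCS) (hk : 1 ≤ k) (hkn : k < n) {Q Q' : Pr n} (hQ : Ok k Q)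
    (hQ' : Ok k Q') : GG k Q ⊆ GG k Q' ↔ Q'.1 ⊆ Q.1 ∧ Q'.2 ⊆ Q.2 :=
  (h3 k n hk hkn).2.1 Q.1 Q.2 Q'.1 Q'.2 hQ.dj hQ.cA hQ.cB hQ'.dj hQ'.cA hQ'.cB

theorem exists_pos (h3 : S_FCS) (hk : 1 ≤ k) (hkn : k < n) (hs : Sign p a b α β) {Q : Pr n}
    {c : Fin n × Bool} (hQ : Ok k Q) (hQ' : Ok k (add Q c)) (hn : New Q c) :
    ∃ S ∈ GG k Q, ∃ S' ∈ GG k (add Q c), 0 < vv a b c (p S - p S') := by
  have h5 := (h3 k n hk hkn).2.2 (add Q c).1 (add Q c).2 hQ'.dj hQ'.cA hQ'.cB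
  obtain ⟨S', hS'⟩ : (GG k (add Q c)).Nonempty :=
    card_pos.1 (lt_of_lt_of_le two_pos h5)
  have h6 : ¬ GG k Q ⊆ GG k (add Q c) := by
    intro h7
    have h8 := (sub_iff h3 hk hkn hQ hQ').1 h7
    rcases c with ⟨m, _ | _⟩
    · exact hn.1 (h8.1 (mem_insert_self m Q.1))
    · exact hn.2 (h8.2 (mem_insert_self m Q.2))
  obtain ⟨S, hS, hS2⟩ := Finset.not_subset.1 h6
  refine ⟨S, hS, S', hS', ?_⟩
  have h9 := sign_pos hs hS hS2
  have h10 := sign_zero hs hS'
  rw [map_sub]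
  linarith

theorem normal_eq (h1 : S_SUR) (h2 : S_LIN) (h3 : S_FCS) (hk : 1 ≤ k) (hkn : k < n)
    (hs : Sign p a b α β) {κ : Finset (Fin n × Bool) → ℚ} (hκ : Kap a b κ) {Q : Pr n}
    {c : Fin n × Bool} (hQ : Ok k Q) (hQ' : Ok k (add Q c)) (hn : New Q c)
    {ν : (Fin (n - 1) → ℚ) →ₗ[ℚ] ℚ} (hν : Normal p (GG k (add Q c)) (GG k Q) ν)
    {x : Fin (n - 1) → ℚ} (hx : x ∈ lin p (GG k Q)) :
    κ (sg (add Q c)) * ν x = κ (sg Q) * vv a b c x := by
  obtain ⟨n1, n2, n3, x0, hx0, hi0, hv0⟩ := hν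
  obtain ⟨S, hS, S', hS', hpos⟩ := exists_pos h3 hk hkn hs hQ hQ' hn
  have hFG : GG k (add Q c) ⊆ GG k Q := (sub_iff h3 hk hkn hQ' hQ).2 ⟨add_fst Q c, add_snd Q c⟩
  have hy : p S - p S' ∈ lin p (GG k Q) := sub_mem_lin hS (hFG hS')
  have hL := fun x => lin_iff h2 hk hkn hs hQ x
  have hL' := fun x => lin_iff h2 hk hkn hs hQ' x
  have hzero : ∀ x, (∀ i ∈ insert c (sg Q), vv a b i x = 0) → ν x = 0 := by
    intro x hx
    apply n1
    rw [hL' x, sg_add]
    exact hx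
  have hνpos : 0 < ν (p S - p S') := by
    rcases (n2 S hS S' hS').lt_or_eq with h | h
    · exact h
    · exfalso
      have h5 : ν (x0 - (vv a b c x0 / vv a b c (p S - p S')) • (p S - p S')) = 0 := by
        apply hzero
        intro i hi
        rcases mem_insert.1 hi with rfl | hi
        · rw [map_sub, map_smul, smul_eq_mul, div_mul_cancel₀ _ hpos.ne', sub_self]
        · rw [map_sub, map_smul, (hL _).1 hx0 i hi, (hL _).1 hy i hi, smul_zero, sub_zero]
      rw [map_sub, map_smul, ← h, smul_zero, sub_zero, hv0] at h5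
      exact one_ne_zero h5
  rw [sg_add]
  refine hκ (sg Q) c (notMem_sg hn) ?_ ν ?_ ?_ hzero ?_ x ((hL x).1 hx)
  · intro f
    have hc := hQ'.cA
    have hc' := hQ'.cB
    obtain ⟨u, -, hu1, hu2⟩ := h1 (Fin (n - 1) → ℚ) k n a b α β p hk hkn hs (add Q c).1 (add Q c).2
      hQ'.dj (by omega) (by omega) (by omega) (fun m => f (m, false)) (fun m => f (m, true))
    refine ⟨u, fun i hi => ?_⟩
    rw [← sg_add] at hi
    rcases i with ⟨m, _ | _⟩
    · exact hu1 m (mem_sg_false.1 hi)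
    · exact hu2 m (mem_sg_true.1 hi)
  · intro x hx
    exact n3 x ((hL x).2 hx)
  · exact ⟨x0, (hL x0).1 hx0, hi0, hv0⟩
  · exact ⟨p S - p S', (hL _).1 hy, hνpos, hpos⟩

theorem normal_exists (h2 : S_LIN) (h3 : S_FCS) (h5 : S_PRIM) (hk : 1 ≤ k) (hkn : k < n)
    (hs : Sign p a b α β) {Q : Pr n} {c : Fin n × Bool} (hQ : Ok k Q) (hQ' : Ok k (add Q c))
    (hn : New Q c) : ∃ ν, Normal p (GG k (add Q c)) (GG k Q) ν := by
  obtain ⟨S, hS, S', hS', hpos⟩ := exists_pos h3 hk hkn hs hQ hQ' hn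
  have hFG : GG k (add Q c) ⊆ GG k Q := (sub_iff h3 hk hkn hQ' hQ).2 ⟨add_fst Q c, add_snd Q c⟩
  obtain ⟨c0, hc0, h6, y, hy, hyi, hy1⟩ := h5 (n - 1) (lin p (GG k Q)) (vv a b c)
    ⟨p S - p S', sub_mem_lin hS (hFG hS'), hpos.ne'⟩
  refine ⟨c0 • vv a b c, ?_, ?_, ?_, y, hy, hyi, ?_⟩
  · intro x hx
    rw [lin_iff h2 hk hkn hs hQ', sg_add] at hx
    rw [LinearMap.smul_apply, hx c (mem_insert_self _ _), smul_zero]
  · intro i _ j hj
    have h7 := sign_nonneg hs c i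
    have h8 := sign_zero hs hj
    rw [LinearMap.smul_apply, smul_eq_mul, map_sub]
    exact mul_nonneg hc0.le (by linarith)
  · intro x hx hi
    exact h6 x hx hi
  · exact hy1

theorem face_of_ok (h2 : S_LIN) (h3 : S_FCS) (hk : 1 ≤ k) (hkn : k < n) (hR : Real p)
    (hs : Sign p a b α β) {Q : Pr n} (hQ : Ok k Q) {j : ℕ} (hj : j < n)
    (hc : Q.1.card + Q.2.card = n - 1 - j) : IsFace p (GG k Q) ∧ dim p (GG k Q) = j := by
  refine ⟨?_, ?_⟩
  · rw [hR.2, (h3 k n hk hkn).1]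
    exact Or.inr ⟨Q.1, Q.2, hQ.dj, hQ.cA, hQ.cB, rfl⟩
  · rw [(h2 k n p a b α β hk hkn hs Q.1 Q.2 hQ.dj hQ.cA hQ.cB).2]
    omega

theorem ok_of_face (h2 : S_LIN) (h3 : S_FCS) (hk : 1 ≤ k) (hkn : k < n) (hR : Real p)
    (hs : Sign p a b α β) {j : ℕ} (hj1 : 1 ≤ j) {T : Finset (Sub k n)} (hT : IsFace p T)
    (hd : dim p T = j) : ∃ Q : Pr n, Ok k Q ∧ Q.1.card + Q.2.card = n - 1 - j ∧ T = GG k Q := by
  rw [hR.2, (h3 k n hk hkn).1] at hT
  rcases hT with ⟨S, rfl⟩ | ⟨A, B, hAB, hA, hB, rfl⟩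
  · exfalso
    have h4 : lin p {S} = ⊥ := by
      rw [lin, Submodule.span_eq_bot]
      rintro x ⟨i, hi, i', hi', rfl⟩
      rw [mem_singleton.1 hi, mem_singleton.1 hi', sub_self]
    rw [dim, h4, finrank_bot] at hd
    omega
  · refine ⟨(A, B), ⟨hAB, hA, hB⟩, ?_, rfl⟩
    rw [(h2 k n p a b α β hk hkn hs A B hAB hA hB).2] at hd
    show A.card + B.card = _
    omega

theorem eq_of_GG (h3 : S_FCS) (hk : 1 ≤ k) (hkn : k < n) {Q Q' : Pr n} (hQ : Ok k Q)
    (hQ' : Ok k Q') (h : GG k Q = GG k Q') : Q = Q' := by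
  have h4 := (sub_iff h3 hk hkn hQ hQ').1 h.subset
  have h5 := (sub_iff h3 hk hkn hQ' hQ).1 h.symm.subset
  exact Prod.ext (h5.1.antisymm h4.1) (h5.2.antisymm h4.2)

theorem exists_add {Q Q' : Pr n} (hQ' : Ok k Q') (h1 : Q.1 ⊆ Q'.1) (h2 : Q.2 ⊆ Q'.2)
    (hc : Q'.1.card + Q'.2.card = Q.1.card + Q.2.card + 1) : ∃ c, New Q c ∧ Q' = add Q c := by
  have c1 := card_le_card h1
  have c2 := card_le_card h2
  by_cases h : Q.1.card = Q'.1.card
  · have e1 : Q.1 = Q'.1 := eq_of_subset_of_card_le h1 h.ge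
    have h3 : (Q'.2 \ Q.2).card = 1 := by
      rw [card_sdiff_of_subset h2]
      omega
    obtain ⟨m, hm⟩ := card_eq_one.1 h3
    have hm' : m ∈ Q'.2 \ Q.2 := by
      rw [hm]
      exact mem_singleton_self m
    rw [mem_sdiff] at hm'
    refine ⟨(m, true), ⟨?_, hm'.2⟩, ?_⟩
    · rw [e1]
      exact fun h4 => Finset.disjoint_left.1 hQ'.dj h4 hm'.1
    · refine Prod.ext e1.symm ?_
      show Q'.2 = insert m Q.2
      rw [← sdiff_union_of_subset h2, hm]
      rfl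
  · have h4 : Q.2.card = Q'.2.card := by omega
    have e2 : Q.2 = Q'.2 := eq_of_subset_of_card_le h2 h4.ge
    have h3 : (Q'.1 \ Q.1).card = 1 := by
      rw [card_sdiff_of_subset h1]
      omega
    obtain ⟨m, hm⟩ := card_eq_one.1 h3
    have hm' : m ∈ Q'.1 \ Q.1 := by
      rw [hm]
      exact mem_singleton_self m
    rw [mem_sdiff] at hm'
    refine ⟨(m, false), ⟨hm'.2, ?_⟩, ?_⟩
    · rw [e2]
      exact fun h4 => Finset.disjoint_left.1 hQ'.dj hm'.1 h4
    · refine Prod.ext ?_ e2.symm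
      show Q'.1 = insert m Q.1
      rw [← sdiff_union_of_subset h1, hm]
      rfl

theorem add_inj {Q : Pr n} {c c' : Fin n × Bool} (h : New Q c) (h' : New Q c')
    (he : add Q c = add Q c') : c = c' := by
  have h1 : c ∈ sg (add Q c') := by
    rw [← he, sg_add]
    exact mem_insert_self _ _
  rw [sg_add, mem_insert] at h1
  exact h1.resolve_right (notMem_sg h)

end

open Classical in
/-- from weights on faces to weights on pairs -/
noncomputable def T1 (p : Sub k n → Fin (n - 1) → ℚ) (κ : Finset (Fin n × Bool) → ℚ) (j i : ℕ) :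
    (FaceOf p j → ℚ) →ₗ[ℚ] (Pr n → ℚ) where
  toFun w := fun Q => if h : (Ok k Q ∧ Q.1.card + Q.2.card = i) ∧ IsFace p (GG k Q) ∧
    dim p (GG k Q) = j then w ⟨GG k Q, h.2⟩ / κ (sg Q) else 0
  map_add' w w' := by
    funext Q
    by_cases h : (Ok k Q ∧ Q.1.card + Q.2.card = i) ∧ IsFace p (GG k Q) ∧ dim p (GG k Q) = j
    · simp only [dif_pos h, Pi.add_apply]
      ring
    · simp only [dif_neg h, Pi.add_apply, add_zero]
  map_smul' t w := by
    funext Q
    by_cases h : (Ok k Q ∧ Q.1.card + Q.2.card = i) ∧ IsFace p (GG k Q) ∧ dim p (GG k Q) = j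
    · simp only [dif_pos h, Pi.smul_apply, smul_eq_mul, RingHom.id_apply]
      ring
    · simp only [dif_neg h, Pi.smul_apply, smul_zero]

theorem T1_pos {p : Sub k n → Fin (n - 1) → ℚ} {κ : Finset (Fin n × Bool) → ℚ} {j i : ℕ}
    (w : FaceOf p j → ℚ) {Q : Pr n} (h : Ok k Q ∧ Q.1.card + Q.2.card = i)
    (h' : IsFace p (GG k Q) ∧ dim p (GG k Q) = j) :
    T1 p κ j i w Q = w ⟨GG k Q, h'⟩ / κ (sg Q) := dif_pos ⟨h, h'⟩

theorem T1_ne {p : Sub k n → Fin (n - 1) → ℚ} {κ : Finset (Fin n × Bool) → ℚ} {j i : ℕ}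
    {w : FaceOf p j → ℚ} {Q : Pr n} (h : T1 p κ j i w Q ≠ 0) :
    (Ok k Q ∧ Q.1.card + Q.2.card = i) ∧ IsFace p (GG k Q) ∧ dim p (GG k Q) = j := by
  by_contra h'
  exact h (dif_neg h')

theorem core_sum (h1 : S_SUR) (h2 : S_LIN) (h3 : S_FCS) (hk : 1 ≤ k) (hkn : k < n)
    {p : Sub k n → Fin (n - 1) → ℚ} {a b : Fin n → (Fin (n - 1) → ℚ) →ₗ[ℚ] ℚ} {α β : Fin n → ℚ}
    (hR : Real p) (hs : Sign p a b α β) {κ : Finset (Fin n × Bool) → ℚ} (hκ0 : ∀ σ, 0 < κ σ)
    (hκ : Kap a b κ) {j : ℕ} (hj1 : 1 ≤ j) (hjn : j < n) [Fintype (FaceOf p j)] {Q : Pr n}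
    (hQ : Ok k Q) (hc : Q.1.card + Q.2.card + 1 = n - 1 - j) (r : FaceOf p j → ℚ)
    (w : FaceOf p j → ℚ) {u : Fin (n - 1) → ℚ} (hu : u ∈ lin p (GG k Q))
    (hr : ∀ F : FaceOf p j, (¬ F.1 ⊆ GG k Q → r F = 0) ∧
      (F.1 ⊆ GG k Q → ∃ ν, Normal p F.1 (GG k Q) ν ∧ r F = ν u)) :
    ∑ F : FaceOf p j, r F * w F = κ (sg Q) * ∑ c ∈ (univ \ (Q.1 ∪ Q.2)) ×ˢ (univ : Finset Bool),
      vv a b c u * T1 p κ j (n - 1 - j) w (add Q c) := by
  rw [Finset.mul_sum]
  symm
  -- the value for one index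
  have hval : ∀ (c : Fin n × Bool) (hn : New Q c) (hQ' : Ok k (add Q c))
      (hf : IsFace p (GG k (add Q c)) ∧ dim p (GG k (add Q c)) = j),
      κ (sg Q) * (vv a b c u * T1 p κ j (n - 1 - j) w (add Q c)) =
        r ⟨GG k (add Q c), hf⟩ * w ⟨GG k (add Q c), hf⟩ := by
    intro c hn hQ' hf
    have hcc := add_card hn
    rw [T1_pos w ⟨hQ', by omega⟩ hf]
    have hFG : GG k (add Q c) ⊆ GG k Q := (sub_iff h3 hk hkn hQ' hQ).2 ⟨add_fst Q c, add_snd Q c⟩
    obtain ⟨ν, hν, hrν⟩ := (hr ⟨GG k (add Q c), hf⟩).2 hFG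
    rw [hrν]
    have h4 := normal_eq h1 h2 h3 hk hkn hs hκ hQ hQ' hn hν hu
    have h5 := (hκ0 (sg (add Q c))).ne'
    field_simp
    linear_combination (- w ⟨GG k (add Q c), hf⟩) * h4
  have hnew : ∀ c ∈ (univ \ (Q.1 ∪ Q.2)) ×ˢ (univ : Finset Bool), New Q c := by
    intro c hcm
    rw [mem_product, mem_sdiff, mem_union, not_or] at hcm
    exact hcm.1.2
  have hne : ∀ c, κ (sg Q) * (vv a b c u * T1 p κ j (n - 1 - j) w (add Q c)) ≠ 0 →
      (Ok k (add Q c) ∧ (add Q c).1.card + (add Q c).2.card = n - 1 - j) ∧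
        IsFace p (GG k (add Q c)) ∧ dim p (GG k (add Q c)) = j := by
    intro c h
    exact T1_ne (right_ne_zero_of_mul (right_ne_zero_of_mul h))
  refine Finset.sum_bij_ne_zero (fun c _ h => ⟨GG k (add Q c), (hne c h).2⟩) ?_ ?_ ?_ ?_
  · intro c _ _
    exact mem_univ _
  · intro c hc1 hc2 c' hc1' hc2' he
    exact add_inj (hnew c hc1) (hnew c' hc1')
      (eq_of_GG h3 hk hkn (hne c hc2).1.1 (hne c' hc2').1.1 (congrArg Subtype.val he))
  · intro F _ hF
    have hrF : r F ≠ 0 := left_ne_zero_of_mul hF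
    have hsub : F.1 ⊆ GG k Q := by
      by_contra h
      exact hrF ((hr F).1 h)
    obtain ⟨Q', hQ', hcQ', hFQ'⟩ := ok_of_face h2 h3 hk hkn hR hs hj1 F.2.1 F.2.2
    have hs2 := hsub
    rw [hFQ', sub_iff h3 hk hkn hQ' hQ] at hs2
    obtain ⟨c, hn, rfl⟩ := exists_add hQ' hs2.1 hs2.2 (by omega)
    have hF' : F = ⟨GG k (add Q c), face_of_ok h2 h3 hk hkn hR hs hQ' hjn hcQ'⟩ := Subtype.ext hFQ'
    have h6 := hval c hn hQ' (face_of_ok h2 h3 hk hkn hR hs hQ' hjn hcQ')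
    rw [← hF'] at h6
    refine ⟨c, ?_, ?_, ?_⟩
    · rw [mem_product, mem_sdiff, mem_union, not_or]
      exact ⟨⟨mem_univ _, hn⟩, mem_univ _⟩
    · rw [h6]
      exact hF
    · exact hF'.symm
  · intro c hc1 hc2
    exact hval c (hnew c hc1) (hne c hc2).1.1 (hne c hc2).2

end HALF24

open HALF24 in
theorem t_HALF (h1 : S_SUR) (h2 : S_LIN) (h3 : S_FCS) (h4 : S_DUALW) (h5 : S_PRIM) (h6 : S_KAP) :
    S_HALF := by
  intro k n p a b α β hk hkn hR hs j hj1 hjn
  classical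
  obtain ⟨κ, hκ0, hκ⟩ := h6 (n - 1) (Fin n × Bool) (vv a b)
  have : Fintype (FaceOf p j) := Fintype.ofFinite _
  let M : Submodule ℚ (FaceOf p j → ℚ) :=
    { carrier := {w | ∀ r : FaceOf p j →₀ ℚ, IsRelation p j r → ∑ F, r F * w F = 0}
      add_mem' := fun {w w'} h h' r hr => by
        have e : ∑ F, r F * (w + w') F = ∑ F, r F * w F + ∑ F, r F * w' F := by
          rw [← Finset.sum_add_distrib]
          exact Finset.sum_congr rfl fun F _ => by rw [Pi.add_apply, mul_add]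
        rw [e, h r hr, h' r hr, add_zero]
      zero_mem' := fun r _ => by simp
      smul_mem' := fun t w h r hr => by
        have e : ∑ F, r F * (t • w) F = t * ∑ F, r F * w F := by
          rw [Finset.mul_sum]
          exact Finset.sum_congr rfl fun F _ => by rw [Pi.smul_apply, smul_eq_mul]; ring
        rw [e, h r hr, mul_zero] }
  have hM : ∀ w, w ∈ M ↔ ∀ r : FaceOf p j →₀ ℚ, IsRelation p j r → ∑ F, r F * w F = 0 :=
    fun w => Iff.rfl
  rw [h4 (Sub k n) (n - 1) p j M hM]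
  set i := n - 1 - j with hi
  -- the sum over the product
  have hprod : ∀ (Q : Pr n) (g : Pr n → ℚ) (u : Fin (n - 1) → ℚ),
      ∑ c ∈ (univ \ (Q.1 ∪ Q.2)) ×ˢ (univ : Finset Bool), vv a b c u * g (add Q c) =
      ∑ m ∈ univ \ (Q.1 ∪ Q.2), (a m u * g (insert m Q.1, Q.2) + b m u * g (Q.1, insert m Q.2)) := by
    intro Q g u
    rw [Finset.sum_product]
    refine Finset.sum_congr rfl fun m _ => ?_
    rw [Fintype.sum_bool]
    exact add_comm _ _
  -- choice of a pair for each face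
  have hq : ∀ F : FaceOf p j, ∃ Q : Pr n, Ok k Q ∧ Q.1.card + Q.2.card = n - 1 - j ∧ F.1 = GG k Q :=
    fun F => ok_of_face h2 h3 hk hkn hR hs hj1 F.2.1 F.2.2
  choose qf hq1 hq2 hq3 using hq
  let T2 : (Pr n → ℚ) →ₗ[ℚ] (FaceOf p j → ℚ) :=
    { toFun := fun w F => κ (sg (qf F)) * w (qf F)
      map_add' := fun w w' => by
        funext F
        simp only [Pi.add_apply]
        ring
      map_smul' := fun t w => by
        funext F
        simp only [Pi.smul_apply, smul_eq_mul, RingHom.id_apply]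
        ring }
  have hT12 : ∀ w ∈ W (⊤ : Submodule ℚ (Fin (n - 1) → ℚ)) a b univ (k - 1) (n - k - 1) i,
      T1 p κ j i (T2 w) = w := by
    intro w hw
    funext Q
    by_cases h : Ok k Q ∧ Q.1.card + Q.2.card = i
    · have hf := face_of_ok h2 h3 hk hkn hR hs h.1 hjn h.2
      rw [T1_pos (T2 w) h hf]
      have e : qf ⟨GG k Q, hf⟩ = Q := by
        refine eq_of_GG h3 hk hkn (hq1 _) h.1 ?_
        exact (hq3 ⟨GG k Q, hf⟩).symm
      show κ (sg (qf ⟨GG k Q, hf⟩)) * w (qf ⟨GG k Q, hf⟩) / κ (sg Q) = w Q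
      rw [e, mul_div_cancel_left₀ _ (hκ0 _).ne']
    · have e1 : T1 p κ j i (T2 w) Q = 0 := by
        by_contra h'
        exact h (T1_ne h').1
      rw [e1]
      by_contra h'
      have h7 := hw.1 Q.1 Q.2 (Ne.symm h')
      exact h ⟨⟨h7.2.2.1, by omega, by omega⟩, h7.2.2.2.2.2⟩
  -- from weights on the faces to weights on the pairs
  have hMW : ∀ w ∈ M, T1 p κ j i w ∈ W (⊤ : Submodule ℚ (Fin (n - 1) → ℚ)) a b univ (k - 1)
      (n - k - 1) i := by
    intro w hw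
    refine ⟨fun A B h => ?_, fun A B _ _ hd hcd u _ hua hub => ?_⟩
    · have h7 := (T1_ne h).1
      have h8 : A.card + k + 1 ≤ n := h7.1.cA
      have h9 : B.card + 1 ≤ k := h7.1.cB
      exact ⟨subset_univ _, subset_univ _, h7.1.dj, by omega, by omega, h7.2⟩
    · by_cases hok : A.card + k + 1 ≤ n ∧ B.card + 1 ≤ k
      · have hQ : Ok k (A, B) := ⟨hd, hok.1, hok.2⟩
        have hul : u ∈ lin p (GG k (A, B)) := by
          rw [lin_iff h2 hk hkn hs hQ]
          rintro ⟨m, e⟩ hm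
          cases e
          · exact hua m (mem_sg_false.1 hm)
          · exact hub m (mem_sg_true.1 hm)
        obtain ⟨D, hD, hDi⟩ : ∃ D : ℚ, D ≠ 0 ∧ Integral (D • u) := by
          refine ⟨((∏ c, (u c).den : ℕ) : ℚ), ?_, fun c => ?_⟩
          · rw [Nat.cast_ne_zero]
            exact Finset.prod_ne_zero_iff.2 fun c _ => (u c).den_nz
          · refine ⟨(∏ c' ∈ univ.erase c, ((u c').den : ℤ)) * (u c).num, ?_⟩
            rw [Pi.smul_apply, smul_eq_mul, ← Finset.mul_prod_erase univ (fun c => (u c).den) (mem_univ c)]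
            push_cast
            have h10 : ((u c).den : ℚ) * u c = (u c).num := by
              rw [mul_comm]
              exact_mod_cast Rat.mul_den_eq_num (u c)
            rw [← h10]
            ring
        have hDu : D • u ∈ lin p (GG k (A, B)) := Submodule.smul_mem _ _ hul
        -- the relation
        have hnorm : ∀ F : FaceOf p j, F.1 ⊆ GG k (A, B) → ∃ ν, Normal p F.1 (GG k (A, B)) ν := by
          intro F hF
          have hs2 := hF
          rw [hq3 F, sub_iff h3 hk hkn (hq1 F) hQ] at hs2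
          obtain ⟨c, hn, he⟩ := exists_add (hq1 F) hs2.1 hs2.2 (by
            have := hq2 F
            show _ = A.card + B.card + 1
            omega)
          rw [hq3 F, he]
          exact normal_exists h2 h3 h5 hk hkn hs hQ (he ▸ hq1 F) hn
        let r0 : FaceOf p j → ℚ := fun F =>
          if h : F.1 ⊆ GG k (A, B) then (hnorm F h).choose (D • u) else 0
        have hr0 : ∀ F : FaceOf p j, (¬ F.1 ⊆ GG k (A, B) → r0 F = 0) ∧
            (F.1 ⊆ GG k (A, B) → ∃ ν, Normal p F.1 (GG k (A, B)) ν ∧ r0 F = ν (D • u)) := by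
          intro F
          refine ⟨fun h => dif_neg h, fun h => ⟨(hnorm F h).choose, (hnorm F h).choose_spec, dif_pos h⟩⟩
        have hdim := face_of_ok h2 h3 hk hkn hR hs hQ (j := j + 1) (by omega) (by
          show A.card + B.card = _
          omega)
        have hrel : IsRelation p j (Finsupp.equivFunOnFinite.symm r0) :=
          ⟨GG k (A, B), hdim.1, hdim.2, D • u, hDu, hDi, fun F => hr0 F⟩
        have h11 := hw _ hrel
        have h12 := core_sum h1 h2 h3 hk hkn hR hs hκ0 hκ hj1 hjn hQ (by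
          show A.card + B.card + 1 = _
          omega) r0 w hDu hr0
        have h13 : ∑ F, r0 F * w F = 0 := h11
        rw [h13, hprod] at h12
        have h14 := (mul_eq_zero.1 h12.symm).resolve_left (hκ0 _).ne'
        have h15 : ∑ m ∈ univ \ (A ∪ B), (a m (D • u) * T1 p κ j i w (insert m A, B) +
            b m (D • u) * T1 p κ j i w (A, insert m B)) = D * ∑ m ∈ univ \ (A ∪ B),
            (a m u * T1 p κ j i w (insert m A, B) + b m u * T1 p κ j i w (A, insert m B)) := by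
          rw [Finset.mul_sum]
          refine Finset.sum_congr rfl fun m _ => ?_
          rw [map_smul, map_smul, smul_eq_mul, smul_eq_mul]
          ring
        rw [← hi] at h14
        change ∑ m ∈ univ \ (A ∪ B), (a m (D • u) * T1 p κ j i w (insert m A, B) +
            b m (D • u) * T1 p κ j i w (A, insert m B)) = 0 at h14
        rw [h15] at h14
        exact (mul_eq_zero.1 h14).resolve_left hD
      · refine Finset.sum_eq_zero fun m hm => ?_
        rw [mem_sdiff, mem_union, not_or] at hm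
        have e1 : T1 p κ j i w (insert m A, B) = 0 := by
          by_contra h'
          have h7 := (T1_ne h').1.1
          have h8 := h7.cA
          have h9 := h7.cB
          simp only [card_insert_of_notMem hm.2.1] at h8
          simp only at h9
          exact hok ⟨by omega, h9⟩
        have e2 : T1 p κ j i w (A, insert m B) = 0 := by
          by_contra h'
          have h7 := (T1_ne h').1.1
          have h8 := h7.cA
          have h9 := h7.cB
          simp only [card_insert_of_notMem hm.2.2] at h9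
          simp only at h8
          exact hok ⟨h8, by omega⟩
        rw [e1, e2, mul_zero, mul_zero, add_zero]
  have hWM : ∀ w ∈ W (⊤ : Submodule ℚ (Fin (n - 1) → ℚ)) a b univ (k - 1) (n - k - 1) i,
      T2 w ∈ M := by
    intro w hw r hr
    obtain ⟨G, hG, hGd, u, hu, -, hF⟩ := hr
    obtain ⟨Q, hQ, hQc, rfl⟩ := ok_of_face h2 h3 hk hkn hR hs (by omega) hG hGd
    have hcc : Q.1.card + Q.2.card + 1 = n - 1 - j := by
      have h7 := (h2 k n p a b α β hk hkn hs Q.1 Q.2 hQ.dj hQ.cA hQ.cB).2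
      have h8 : dim p (GG k Q) = n - 1 - Q.1.card - Q.2.card := h7
      omega
    have h12 := core_sum h1 h2 h3 hk hkn hR hs hκ0 hκ hj1 hjn hQ hcc (fun F => r F) (T2 w) hu hF
    rw [hprod, ← hi, hT12 w hw] at h12
    have h16 := hw.2 Q.1 Q.2 (subset_univ _) (subset_univ _) hQ.dj (by omega) u Submodule.mem_top
      (fun m hm => (lin_iff h2 hk hkn hs hQ u).1 hu (m, false) (mem_sg_false.2 hm))
      (fun m hm => (lin_iff h2 hk hkn hs hQ u).1 hu (m, true) (mem_sg_true.2 hm))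
    rw [h16, mul_zero] at h12
    exact h12
  apply le_antisymm
  · refine LinearMap.finrank_le_finrank_of_injective
      (f := ((T1 p κ j i).domRestrict M).codRestrict _ fun w => hMW w.1 w.2) ?_
    intro w w' he
    have he' : T1 p κ j i w.1 = T1 p κ j i w'.1 := congrArg Subtype.val he
    refine Subtype.ext (funext fun F => ?_)
    have h7 := congrFun he' (qf F)
    have hf := face_of_ok h2 h3 hk hkn hR hs (hq1 F) hjn (hq2 F)
    rw [T1_pos w.1 ⟨hq1 F, hq2 F⟩ hf, T1_pos w'.1 ⟨hq1 F, hq2 F⟩ hf,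
      div_left_inj' (hκ0 _).ne'] at h7
    have hFe : F = ⟨GG k (qf F), hf⟩ := Subtype.ext (hq3 F)
    rw [hFe]
    exact h7
  · refine LinearMap.finrank_le_finrank_of_injective
      (f := (T2.domRestrict (W (⊤ : Submodule ℚ (Fin (n - 1) → ℚ)) a b univ (k - 1)
        (n - k - 1) i)).codRestrict M fun w => hWM w.1 w.2) ?_
    intro w w' he
    have he' : T2 w.1 = T2 w'.1 := congrArg Subtype.val he
    refine Subtype.ext ?_
    rw [← hT12 w.1 w.2, ← hT12 w'.1 w'.2, he']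

end Pool.Agent.CB
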