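import Pool.Agent.CB.Stm

/-!
# Lattice indices

`κ σ` is the index in `ℤ ^ σ` of the lattice of the values of the functionals `N v i` (`i ∈ σ`) at the integral
vectors, divided by `N ^ card σ`, where `N` is a common denominator.
-/

set_option autoImplicit false

namespace Pool.Agent.CB

open Finset Module

namespace KAP

theorem int_add {d : ℕ} {x y : Fin d → ℚ} (hx : Integral x) (hy : Integral y) : Integral (x + y) := by
  intro c
  obtain ⟨a, ha⟩ := hx c
  obtain ⟨b, hb⟩ := hy c
  exact ⟨a + b, by rw [Pi.add_apply, ha, hb]; push_cast; ring⟩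

theorem int_zero {d : ℕ} : Integral (0 : Fin d → ℚ) := fun c => ⟨0, by simp⟩

theorem int_smul {d : ℕ} {x : Fin d → ℚ} (z : ℤ) (hx : Integral x) : Integral ((z : ℚ) • x) := by
  intro c
  obtain ⟨a, ha⟩ := hx c
  exact ⟨z * a, by rw [Pi.smul_apply, ha, smul_eq_mul]; push_cast; ring⟩

/-- a common denominator of finitely many rational numbers -/
theorem common {κ : Type} [Fintype κ] (e : κ → ℚ) : ∃ N : ℕ, 0 < N ∧ ∀ p, ∃ z : ℤ, (N : ℚ) * e p = z := by
  classical
  refine ⟨∏ p, (e p).den, Finset.prod_pos fun p _ => (e p).den_pos, fun p => ?_⟩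
  obtain ⟨k, hk⟩ : (e p).den ∣ ∏ p, (e p).den := Finset.dvd_prod_of_mem _ (Finset.mem_univ p)
  refine ⟨k * (e p).num, ?_⟩
  rw [hk]
  push_cast
  have h := Rat.den_mul_eq_num (e p)
  calc ((e p).den * k : ℚ) * e p = k * ((e p).den * e p) := by ring
    _ = _ := by rw [h]

theorem exists_den {d : ℕ} {ρ : Type} [Fintype ρ] (v : ρ → (Fin d → ℚ) →ₗ[ℚ] ℚ) :
    ∃ N : ℕ, 0 < N ∧ ∀ (i : ρ) (x : Fin d → ℚ), Integral x → ∃ z : ℤ, (N : ℚ) * v i x = z := by
  obtain ⟨N, hN, h⟩ := common fun p : ρ × Fin d => v p.1 (fun j => if p.2 = j then 1 else 0)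
  choose z hz using h
  refine ⟨N, hN, fun i x hx => ?_⟩
  choose w hw using hx
  refine ⟨∑ j, w j * z (i, j), ?_⟩
  rw [LinearMap.pi_apply_eq_sum_univ (v i) x, Finset.mul_sum]
  push_cast
  refine Finset.sum_congr rfl fun j _ => ?_
  rw [hw j, ← hz (i, j), smul_eq_mul]
  ring

/-- the vectors whose coordinates in `σ` are the values of `N v i` at an integral vector -/
def HH {d : ℕ} {ρ : Type} (v : ρ → (Fin d → ℚ) →ₗ[ℚ] ℚ) (N : ℕ) (σ : Finset ρ) : AddSubgroup (ρ → ℤ) where
  carrier := {y | ∃ x : Fin d → ℚ, Integral x ∧ ∀ i ∈ σ, (N : ℚ) * v i x = y i}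
  add_mem' := by
    rintro y y' ⟨x, hx, h⟩ ⟨x', hx', h'⟩
    refine ⟨x + x', int_add hx hx', fun i hi => ?_⟩
    rw [map_add, mul_add, h i hi, h' i hi, Pi.add_apply]
    push_cast
    rfl
  zero_mem' := ⟨0, int_zero, fun i _ => by simp⟩
  neg_mem' := by
    rintro y ⟨x, hx, h⟩
    refine ⟨((-1 : ℤ) : ℚ) • x, int_smul _ hx, fun i hi => ?_⟩
    rw [map_smul, smul_eq_mul, Pi.neg_apply]
    push_cast
    rw [← h i hi]
    ring

theorem mem_HH {d : ℕ} {ρ : Type} {v : ρ → (Fin d → ℚ) →ₗ[ℚ] ℚ} {N : ℕ} {σ : Finset ρ} {y : ρ → ℤ} :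
    y ∈ HH v N σ ↔ ∃ x : Fin d → ℚ, Integral x ∧ ∀ i ∈ σ, (N : ℚ) * v i x = y i := Iff.rfl

theorem index_ne {d : ℕ} {ρ : Type} [Fintype ρ] [DecidableEq ρ] {v : ρ → (Fin d → ℚ) →ₗ[ℚ] ℚ} {N : ℕ} (hN : 0 < N)
    {σ : Finset ρ} (h : ∀ f : ρ → ℚ, ∃ x, ∀ i ∈ σ, v i x = f i) : (HH v N σ).index ≠ 0 := by
  choose x hx using fun i : ρ => h (Pi.single i 1)
  obtain ⟨M, hM, hMx⟩ := common fun p : ρ × Fin d => x p.1 p.2
  have key : ∀ y : ρ → ℤ, ((N * M : ℕ) : ℤ) • y ∈ HH v N σ := by
    intro y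
    refine mem_HH.2 ⟨∑ i, ((y i : ℚ) * M) • x i, ?_, fun j hj => ?_⟩
    · intro c
      choose z hz using hMx
      refine ⟨∑ i, y i * z (i, c), ?_⟩
      rw [Finset.sum_apply]
      push_cast
      refine Finset.sum_congr rfl fun i _ => ?_
      rw [← hz (i, c), Pi.smul_apply, smul_eq_mul]
      ring
    · rw [map_sum]
      have h1 : ∀ i, v j (((y i : ℚ) * M) • x i) = if i = j then (y j : ℚ) * M else 0 := by
        intro i
        rw [map_smul, hx i j hj, smul_eq_mul, Pi.single_apply]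
        by_cases hij : i = j
        · subst hij
          simp
        · rw [if_neg hij, if_neg (Ne.symm hij), mul_zero]
      rw [Finset.sum_congr rfl fun i _ => h1 i, Finset.sum_ite_eq' univ j, if_pos (mem_univ j), Pi.smul_apply,
        smul_eq_mul]
      push_cast
      ring
  have hfin : Finite ((ρ → ℤ) ⧸ HH v N σ) := by
    have h2 : Module.Finite ℤ ((ρ → ℤ) ⧸ HH v N σ) :=
      Module.Finite.of_surjective (QuotientAddGroup.mk' (HH v N σ)).toIntLinearMap
        (QuotientAddGroup.mk'_surjective _)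
    refine Module.finite_of_fg_torsion _ fun q => ?_
    refine ⟨⟨((N * M : ℕ) : ℤ), mem_nonZeroDivisors_of_ne_zero ?_⟩, ?_⟩
    · have : 0 < N * M := Nat.mul_pos hN hM
      exact_mod_cast this.ne'
    · obtain ⟨y, rfl⟩ := QuotientAddGroup.mk'_surjective (HH v N σ) q
      show ((N * M : ℕ) : ℤ) • (QuotientAddGroup.mk' (HH v N σ) y) = 0
      rw [← map_zsmul]
      exact (QuotientAddGroup.eq_zero_iff _).2 (key y)
  exact AddSubgroup.index_ne_zero_of_finite

theorem index_step {d : ℕ} {ρ : Type} [Fintype ρ] [DecidableEq ρ] {v : ρ → (Fin d → ℚ) →ₗ[ℚ] ℚ} {N : ℕ} (hN : 0 < N)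
    (hint : ∀ (i : ρ) (x : Fin d → ℚ), Integral x → ∃ z : ℤ, (N : ℚ) * v i x = z) {σ : Finset ρ} {m : ρ}
    (hm : m ∉ σ) (g : ℤ) (hg : ∀ t : ℤ, (∃ x, Integral x ∧ (∀ i ∈ σ, v i x = 0) ∧ (N : ℚ) * v m x = t) ↔
      ∃ k : ℤ, k * g = t) :
    (HH v N (insert m σ)).index = g.natAbs * (HH v N σ).index := by
  have hle : HH v N (insert m σ) ≤ HH v N σ := by
    rintro y ⟨x, hx, h⟩
    exact ⟨x, hx, fun i hi => h i (mem_insert_of_mem hi)⟩
  rw [← AddSubgroup.relIndex_mul_index hle]
  congr 1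
  have hsup : HH v N (insert m σ) ⊔ (AddMonoidHom.single (fun _ : ρ => ℤ) m).range = HH v N σ := by
    apply le_antisymm
    · refine sup_le hle ?_
      rintro _ ⟨t, rfl⟩
      refine ⟨0, int_zero, fun i hi => ?_⟩
      have : i ≠ m := fun h => hm (h ▸ hi)
      rw [map_zero, mul_zero, AddMonoidHom.single_apply, Pi.single_eq_of_ne this]
      simp
    · rintro y ⟨x, hx, h⟩
      obtain ⟨z, hz⟩ := hint m x hx
      rw [AddSubgroup.mem_sup]
      refine ⟨Function.update y m z, ⟨x, hx, fun i hi => ?_⟩, Pi.single m (y m - z), ⟨_, rfl⟩, ?_⟩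
      · by_cases him : i = m
        · subst him
          rw [Function.update_self, hz]
        · rw [Function.update_of_ne him]
          exact h i ((mem_insert.1 hi).resolve_left him)
      · funext i
        by_cases him : i = m
        · subst him
          simp
        · simp [him]
  have hcomap : (HH v N (insert m σ)).comap (AddMonoidHom.single (fun _ : ρ => ℤ) m) = AddSubgroup.zmultiples g := by
    ext t
    rw [AddSubgroup.mem_comap, AddSubgroup.mem_zmultiples_iff]
    have h1 := hg t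
    simp only [smul_eq_mul]
    rw [← h1, mem_HH]
    refine exists_congr fun x => and_congr_right fun _ => ?_
    constructor
    · intro h
      refine ⟨fun i hi => ?_, ?_⟩
      · have h2 := h i (mem_insert_of_mem hi)
        have h3 : i ≠ m := fun h => hm (h ▸ hi)
        rw [AddMonoidHom.single_apply, Pi.single_eq_of_ne h3, Int.cast_zero] at h2
        rcases mul_eq_zero.1 h2 with h4 | h4
        · exact absurd h4 (by exact_mod_cast hN.ne')
        · exact h4
      · have h2 := h m (mem_insert_self m σ)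
        rw [AddMonoidHom.single_apply, Pi.single_eq_same] at h2
        exact h2
    · rintro ⟨h2, h3⟩ i hi
      by_cases him : i = m
      · subst him
        rw [AddMonoidHom.single_apply, Pi.single_eq_same]
        exact h3
      · rw [AddMonoidHom.single_apply, Pi.single_eq_of_ne him, Int.cast_zero,
          h2 i ((mem_insert.1 hi).resolve_left him), mul_zero]
  rw [← hsup, AddSubgroup.relIndex_sup_left, ← AddSubgroup.index_comap, hcomap, Int.index_zmultiples]

end KAP

theorem t_KAP : S_KAP := by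
  intro d ρ _ _ v
  obtain ⟨N, hN, hint⟩ := KAP.exists_den v
  have hNq : (0 : ℚ) < N := by exact_mod_cast hN
  refine ⟨fun σ => if (KAP.HH v N σ).index = 0 then 1 else ((KAP.HH v N σ).index : ℚ) / (N : ℚ) ^ σ.card,
    fun σ => ?_, ?_⟩
  · dsimp only
    split_ifs with h
    · exact one_pos
    · have : 0 < (KAP.HH v N σ).index := Nat.pos_of_ne_zero h
      positivity
  · rintro σ m hm hsur ν hν ⟨g₀, hg1, hg2, hg3⟩ hker ⟨x₁, hx1, hx2, hx3⟩ x hx
    have hI' : (KAP.HH v N (insert m σ)).index ≠ 0 := KAP.index_ne hN hsur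
    have hI : (KAP.HH v N σ).index ≠ 0 :=
      KAP.index_ne hN fun f => (hsur f).imp fun x h i hi => h i (mem_insert_of_mem hi)
    have h0 : v m g₀ ≠ 0 := by
      intro h
      have h1 := hker g₀ (by
        intro i hi
        rcases mem_insert.1 hi with rfl | hi
        · exact h
        · exact hg1 i hi)
      rw [h1] at hg3
      norm_num at hg3
    have hprop : ∀ y, (∀ i ∈ σ, v i y = 0) → v m y = v m g₀ * ν y := by
      intro y hy
      have h1 := hker (y - (v m y / v m g₀) • g₀) (by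
        intro i hi
        rcases mem_insert.1 hi with rfl | hi
        · rw [map_sub, map_smul, smul_eq_mul, div_mul_cancel₀ _ h0, sub_self]
        · rw [map_sub, map_smul, hy i hi, hg1 i hi, smul_zero, sub_zero])
      rw [map_sub, map_smul, hg3, smul_eq_mul, mul_one, sub_eq_zero] at h1
      rw [h1, mul_div_cancel₀ _ h0]
    have hpos : 0 < v m g₀ := by
      have h1 := hprop x₁ hx1
      rw [h1] at hx3
      exact (mul_pos_iff_of_pos_right hx2).1 hx3
    obtain ⟨g, hg⟩ := hint m g₀ hg2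
    have hgp : 0 < g := by
      have : (0 : ℚ) < (g : ℚ) := by rw [← hg]; positivity
      exact_mod_cast this
    have hstep := KAP.index_step (v := v) hN hint hm g (fun t => by
      constructor
      · rintro ⟨y, hy1, hy2, hy3⟩
        obtain ⟨k, hk⟩ := hν y hy2 hy1
        refine ⟨k, ?_⟩
        have : ((k * g : ℤ) : ℚ) = ((t : ℤ) : ℚ) := by
          rw [← hy3, hprop y hy2, hk]
          push_cast
          rw [← hg]
          ring
        exact_mod_cast this
      · rintro ⟨k, rfl⟩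
        refine ⟨(k : ℚ) • g₀, KAP.int_smul k hg2, fun i hi => ?_, ?_⟩
        · rw [map_smul, hg1 i hi, smul_zero]
        · rw [map_smul, smul_eq_mul]
          push_cast
          rw [← hg]
          ring)
    dsimp only
    rw [if_neg hI', if_neg hI, hprop x hx, hstep, card_insert_of_notMem hm, pow_succ]
    have hab : ((g.natAbs : ℕ) : ℚ) = (N : ℚ) * v m g₀ := by
      rw [hg, Nat.cast_natAbs, abs_of_pos hgp]
    push_cast
    rw [hab]
    field_simp

end Pool.Agent.CB
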