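import Pool.Agent.CB.Stm

/-!
Project CB, piece LEX: the values of the dimensions of the spaces of all weights (from UPP, SF, TOT, NUM1).
-/

set_option autoImplicit false

namespace Pool.Agent.CB

open Finset Module

namespace LEX

/-- surjectivity for larger sets gives surjectivity for smaller sets -/
theorem sur_mono {V : Type} [AddCommGroup V] [Module ℚ V] {ι : Type} {U : Submodule ℚ V}
    {a b : ι → V →ₗ[ℚ] ℚ} {A B A' B' : Finset ι} (hA : A ⊆ A') (hB : B ⊆ B') (h : Sur U a b A' B') :
    Sur U a b A B := by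
  intro f g
  obtain ⟨u, hu, h1, h2⟩ := h f g
  exact ⟨u, hu, fun m hm => h1 m (hA hm), fun m hm => h2 m (hB hm)⟩

/-- two disjoint sets can be enlarged to disjoint sets of given sizes -/
theorem enlarge {ι : Type} [Fintype ι] [DecidableEq ι] {r s : ℕ} (hn : r + s + 1 = Fintype.card ι)
    {A B : Finset ι} (hd : Disjoint A B) (hA : A.card ≤ s) (hB : B.card ≤ r) :
    ∃ A' B' : Finset ι, A ⊆ A' ∧ B ⊆ B' ∧ Disjoint A' B' ∧ A'.card = s ∧ B'.card = r := by
  have h1 : s ≤ (univ \ B).card := by
    rw [Finset.card_sdiff_of_subset (subset_univ B), Finset.card_univ]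
    omega
  obtain ⟨A', hA1, hA2, hA3⟩ := Finset.exists_subsuperset_card_eq
    (fun x hx => by
      simp only [mem_sdiff, mem_univ, true_and]
      exact Finset.disjoint_left.1 hd hx : A ⊆ univ \ B) hA h1
  have h2 : r ≤ (univ \ A').card := by
    rw [Finset.card_sdiff_of_subset (subset_univ A'), Finset.card_univ]
    omega
  obtain ⟨B', hB1, hB2, hB3⟩ := Finset.exists_subsuperset_card_eq
    (fun x hx => by
      simp only [mem_sdiff, mem_univ, true_and]
      intro hx'
      have := hA2 hx'
      simp only [mem_sdiff, mem_univ, true_and] at this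
      exact this hx : B ⊆ univ \ A') hB h2
  refine ⟨A', B', hA1, hB1, ?_, hA3, hB3⟩
  rw [Finset.disjoint_right]
  intro x hx hx'
  have := hB2 hx
  simp only [mem_sdiff, mem_univ, true_and] at this
  exact this hx'

end LEX

theorem t_LEX (h1 : S_UPP) (h2 : S_SF) (h3 : S_TOT) (h4 : S_NUM1) : S_LEX := by
  intro V _ _ _ ι _ _ a b r s hn hV hS
  have hsf : ∀ A B : Finset ι, Disjoint A B → A.card ≤ s → B.card ≤ r →
      Sur (⊤ : Submodule ℚ V) a b A B := by
    intro A B hd hA hB
    obtain ⟨A', B', hA', hB', hd', hs', hr'⟩ := LEX.enlarge hn hd hA hB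
    exact LEX.sur_mono hA' hB' (hS A' B' hd' hs' hr')
  have hgood : Good (⊤ : Submodule ℚ V) a b univ r s := by
    intro A B _ _ hd hc hA hB
    rw [Finset.card_univ] at hc
    exact hS A B hd (by omega) (by omega)
  have hfd : ∀ l, FiniteDimensional ℚ (R (⊤ : Submodule ℚ V) a b r s l) := by
    intro l
    obtain ⟨g, hg⟩ := h2 V ι ⊤ a b r s l hsf
    exact FiniteDimensional.of_injective g hg
  have hle : ∀ l ≤ r + s, finrank ℚ (R (⊤ : Submodule ℚ V) a b r s l) ≤
      bs (Fintype.card ι) (min (min l (r + s - l)) (min r s)) := by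
    intro l hl
    obtain ⟨g, hg⟩ := h2 V ι ⊤ a b r s l hsf
    refine (LinearMap.finrank_le_finrank_of_injective hg).trans ?_
    have := h1 V ι ⊤ a b univ r s l (by rw [Finset.card_univ]; omega)
      (by rw [Finset.card_univ]; omega) hgood hl
    rwa [Finset.card_univ] at this
  have htot := h3 V ι a b r s hn hV hS hfd
  have hnum := h4 (Fintype.card ι) r s hn
  have hn1 : Fintype.card ι - 1 = r + s := by omega
  have hle2 : ∀ l ∈ range (Fintype.card ι), finrank ℚ (R (⊤ : Submodule ℚ V) a b r s l) ≤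
      bs (Fintype.card ι) (min (min l (Fintype.card ι - 1 - l)) (min r s)) := by
    intro l hl
    rw [Finset.mem_range] at hl
    rw [hn1]
    exact hle l (by omega)
  have hsum : ∑ l ∈ range (Fintype.card ι), finrank ℚ (R (⊤ : Submodule ℚ V) a b r s l) =
      ∑ l ∈ range (Fintype.card ι),
        bs (Fintype.card ι) (min (min l (Fintype.card ι - 1 - l)) (min r s)) :=
    le_antisymm (Finset.sum_le_sum hle2) (by rw [hnum]; exact htot)
  have heq := (Finset.sum_eq_sum_iff_of_le hle2).1 hsum
  intro l hl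
  refine ⟨hfd l, ?_⟩
  have := heq l (Finset.mem_range.2 (by omega))
  rwa [hn1] at this

end Pool.Agent.CB
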