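import Pool.Agent.CB.Stm

/-!
# Project CB, piece LIN (helper46): the linear span of a face
-/

set_option autoImplicit false

namespace Pool.Agent.CB

open Finset Module

namespace LIN

theorem mem_fc {n k : ℕ} {A B : Finset (Fin n)} {S : Sub k n} :
    S ∈ fc k A B ↔ Disjoint A S.1 ∧ B ⊆ S.1 := by
  unfold fc
  simp

theorem lin_mono {ι : Type} {d : ℕ} (p : ι → Fin d → ℚ) {T T' : Finset ι} (h : T ⊆ T') :
    lin p T ≤ lin p T' :=
  Submodule.span_mono (by
    rintro x ⟨i, hi, j, hj, rfl⟩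
    exact ⟨i, h hi, j, h hj, rfl⟩)

theorem sub_mem {ι : Type} {d : ℕ} (p : ι → Fin d → ℚ) {T : Finset ι} {i j : ι} (hi : i ∈ T)
    (hj : j ∈ T) : p i - p j ∈ lin p T :=
  Submodule.subset_span ⟨i, hi, j, hj, rfl⟩

variable {k n : ℕ} {p : Sub k n → Fin (n - 1) → ℚ} {a b : Fin n → (Fin (n - 1) → ℚ) →ₗ[ℚ] ℚ}
  {α β : Fin n → ℚ}

theorem lin_zero (h : Sign p a b α β) {A B : Finset (Fin n)} {x : Fin (n - 1) → ℚ}
    (hx : x ∈ lin p (fc k A B)) : (∀ m ∈ A, a m x = 0) ∧ ∀ m ∈ B, b m x = 0 := by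
  constructor
  · intro m hm
    have h1 : lin p (fc k A B) ≤ LinearMap.ker (a m) := by
      refine Submodule.span_le.2 ?_
      rintro x ⟨S, hS, S', hS', rfl⟩
      have e1 := (h S m).1 (Finset.disjoint_left.1 (mem_fc.1 hS).1 hm)
      have e2 := (h S' m).1 (Finset.disjoint_left.1 (mem_fc.1 hS').1 hm)
      show a m (p S - p S') = 0
      rw [map_sub]
      linarith
    exact h1 hx
  · intro m hm
    have h1 : lin p (fc k A B) ≤ LinearMap.ker (b m) := by
      refine Submodule.span_le.2 ?_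
      rintro x ⟨S, hS, S', hS', rfl⟩
      have e1 := (h S m).2.2.1 ((mem_fc.1 hS).2 hm)
      have e2 := (h S' m).2.2.1 ((mem_fc.1 hS').2 hm)
      show b m (p S - p S') = 0
      rw [map_sub]
      linarith
    exact h1 hx

theorem exists_free {A B : Finset (Fin n)} (hc : A.card + B.card + 2 ≤ n) : ∃ m, m ∉ A ∧ m ∉ B := by
  have h1 : (A ∪ B).card < n := by
    have := Finset.card_union_le A B
    omega
  by_contra hne
  have h2 : A ∪ B = univ := by
    ext m
    simp only [Finset.mem_union, Finset.mem_univ, iff_true]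
    by_contra hm
    exact hne ⟨m, fun h => hm (Or.inl h), fun h => hm (Or.inr h)⟩
  rw [h2, Finset.card_univ, Fintype.card_fin] at h1
  exact lt_irrefl _ h1

theorem exists_two {A B : Finset (Fin n)} (hd : Disjoint A B) (hA : A.card + k + 1 ≤ n)
    (hB : B.card + 1 ≤ k) {m : Fin n} (hmA : m ∉ A) (hmB : m ∉ B) :
    (∃ S : Sub k n, S ∈ fc k A B ∧ m ∈ S.1) ∧ ∃ S : Sub k n, S ∈ fc k A B ∧ m ∉ S.1 := by
  have hBA : B ⊆ Aᶜ := fun x hx => Finset.mem_compl.2 fun h => Finset.disjoint_left.1 hd h hx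
  have hcA : Aᶜ.card = n - A.card := by rw [Finset.card_compl, Fintype.card_fin]
  constructor
  · have h1 : insert m B ⊆ Aᶜ := Finset.insert_subset (Finset.mem_compl.2 hmA) hBA
    obtain ⟨u, hu1, hu2, hu3⟩ := Finset.exists_subsuperset_card_eq h1 (n := k)
      (by rw [Finset.card_insert_of_notMem hmB]; exact hB) (by rw [hcA]; omega)
    refine ⟨⟨u, hu3⟩, mem_fc.2 ⟨?_, (Finset.subset_insert m B).trans hu1⟩,
      hu1 (Finset.mem_insert_self m B)⟩
    exact Finset.disjoint_left.2 fun x hx hx' => Finset.mem_compl.1 (hu2 hx') hx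
  · have h1 : B ⊆ Aᶜ.erase m := fun x hx => Finset.mem_erase.2
      ⟨fun h => hmB (h ▸ hx), hBA hx⟩
    obtain ⟨u, hu1, hu2, hu3⟩ := Finset.exists_subsuperset_card_eq h1 (n := k)
      (by omega) (by rw [Finset.card_erase_of_mem (Finset.mem_compl.2 hmA), hcA]; omega)
    refine ⟨⟨u, hu3⟩, mem_fc.2 ⟨?_, hu1⟩, fun h => (Finset.mem_erase.1 (hu2 h)).1 rfl⟩
    exact Finset.disjoint_left.2 fun x hx hx' =>
      Finset.mem_compl.1 (Finset.mem_erase.1 (hu2 hx')).2 hx

/-- a vector of `lin` on which both functionals of a free index do not vanish -/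
theorem exists_vec (h : Sign p a b α β) {A B : Finset (Fin n)} (hd : Disjoint A B)
    (hA : A.card + k + 1 ≤ n) (hB : B.card + 1 ≤ k) {m : Fin n} (hmA : m ∉ A) (hmB : m ∉ B) :
    ∃ v ∈ lin p (fc k A B), a m v ≠ 0 ∧ b m v ≠ 0 := by
  obtain ⟨⟨S, hS, hmS⟩, S', hS', hmS'⟩ := exists_two hd hA hB hmA hmB
  refine ⟨p S - p S', sub_mem p hS hS', ?_, ?_⟩
  · have e1 := (h S m).2.1 hmS
    have e2 := (h S' m).1 hmS'
    rw [map_sub]
    intro h0
    linarith
  · have e1 := (h S m).2.2.1 hmS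
    have e2 := (h S' m).2.2.2 hmS'
    rw [map_sub]
    intro h0
    linarith

theorem fr_ge (h : Sign p a b α β) : ∀ (t : ℕ) (A B : Finset (Fin n)), Disjoint A B →
    A.card + k + 1 ≤ n → B.card + 1 ≤ k → A.card + B.card + 2 + t = n →
    t + 1 ≤ finrank ℚ (lin p (fc k A B)) := by
  intro t
  induction t with
  | zero =>
    intro A B hd hA hB ht
    obtain ⟨m, hmA, hmB⟩ := exists_free (A := A) (B := B) (by omega)
    obtain ⟨v, hv, hav, _⟩ := exists_vec h hd hA hB hmA hmB
    rw [zero_add]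
    refine Submodule.one_le_finrank_iff.2 fun h0 => hav ?_
    rw [h0, Submodule.mem_bot] at hv
    rw [hv, map_zero]
  | succ t ih =>
    intro A B hd hA hB ht
    obtain ⟨m, hmA, hmB⟩ := exists_free (A := A) (B := B) (by omega)
    obtain ⟨v, hv, hav, hbv⟩ := exists_vec h hd hA hB hmA hmB
    by_cases hA2 : A.card + k + 2 ≤ n
    · have h1 := ih (insert m A) B (Finset.disjoint_insert_left.2 ⟨hmB, hd⟩)
        (by rw [Finset.card_insert_of_notMem hmA]; omega) hB
        (by rw [Finset.card_insert_of_notMem hmA]; omega)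
      have h2 : lin p (fc k (insert m A) B) < lin p (fc k A B) := by
        refine lt_of_le_of_ne (lin_mono p ?_) fun he => hav ?_
        · intro S hS
          rw [mem_fc] at hS ⊢
          exact ⟨(Finset.disjoint_insert_left.1 hS.1).2, hS.2⟩
        · rw [← he] at hv
          exact (lin_zero h hv).1 m (Finset.mem_insert_self m A)
      have h3 := Submodule.finrank_lt_finrank_of_lt h2
      omega
    · have h1 := ih A (insert m B) (Finset.disjoint_insert_right.2 ⟨hmA, hd⟩) hA
        (by rw [Finset.card_insert_of_notMem hmB]; omega)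
        (by rw [Finset.card_insert_of_notMem hmB]; omega)
      have h2 : lin p (fc k A (insert m B)) < lin p (fc k A B) := by
        refine lt_of_le_of_ne (lin_mono p ?_) fun he => hbv ?_
        · intro S hS
          rw [mem_fc] at hS ⊢
          exact ⟨hS.1, (Finset.subset_insert m B).trans hS.2⟩
        · rw [← he] at hv
          exact (lin_zero h hv).2 m (Finset.mem_insert_self m B)
      have h3 := Submodule.finrank_lt_finrank_of_lt h2
      omega

end LIN

theorem t_LIN (h1 : S_SUR) : S_LIN := by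
  intro k n p a b α β hk hkn hs A B hd hA hB
  have hsur := h1 (Fin (n - 1) → ℚ) k n a b α β p hk hkn hs A B hd (by omega) (by omega) (by omega)
  obtain ⟨T, hT⟩ : ∃ T : (Fin (n - 1) → ℚ) →ₗ[ℚ] ((A → ℚ) × (B → ℚ)),
      T = LinearMap.prod (LinearMap.pi fun m : A => a m) (LinearMap.pi fun m : B => b m) := ⟨_, rfl⟩
  have hmem : ∀ x, x ∈ LinearMap.ker T ↔ (∀ m ∈ A, a m x = 0) ∧ ∀ m ∈ B, b m x = 0 := by
    intro x
    rw [LinearMap.mem_ker, hT, LinearMap.prod_apply, Function.prod, Prod.mk_eq_zero]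
    constructor
    · rintro ⟨h2, h3⟩
      exact ⟨fun m hm => congrFun h2 ⟨m, hm⟩, fun m hm => congrFun h3 ⟨m, hm⟩⟩
    · rintro ⟨h2, h3⟩
      exact ⟨funext fun m => h2 m.1 m.2, funext fun m => h3 m.1 m.2⟩
  have hrange : LinearMap.range T = ⊤ := by
    rw [LinearMap.range_eq_top]
    rintro ⟨f, g⟩
    obtain ⟨u, -, hu1, hu2⟩ := hsur (fun m => if h : m ∈ A then f ⟨m, h⟩ else 0)
      (fun m => if h : m ∈ B then g ⟨m, h⟩ else 0)
    refine ⟨u, ?_⟩
    rw [hT, LinearMap.prod_apply, Function.prod]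
    refine Prod.ext (funext fun m => ?_) (funext fun m => ?_)
    · show a m u = f m
      rw [hu1 m.1 m.2, dif_pos m.2]
    · show b m u = g m
      rw [hu2 m.1 m.2, dif_pos m.2]
  have hrn := LinearMap.finrank_range_add_finrank_ker T
  rw [hrange, finrank_top, Module.finrank_prod, Module.finrank_pi, Module.finrank_pi,
    Module.finrank_pi, Fintype.card_coe, Fintype.card_coe, Fintype.card_fin] at hrn
  have hle : lin p (fc k A B) ≤ LinearMap.ker T := fun x hx => (hmem x).2 (LIN.lin_zero hs hx)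
  have hge := LIN.fr_ge hs (n - 2 - A.card - B.card) A B hd hA hB (by omega)
  have heq : lin p (fc k A B) = LinearMap.ker T :=
    Submodule.eq_of_le_of_finrank_le hle (by omega)
  refine ⟨fun x => ?_, ?_⟩
  · rw [heq]
    exact hmem x
  · unfold dim
    rw [heq]
    omega

end Pool.Agent.CB
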