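import Pool.Agent.CB.Stm

/-!
# Project CB, piece LOW (helper23)
-/

set_option autoImplicit false

namespace Pool.Agent.CB

open Finset Module

namespace LOW

section
variable {V : Type} [AddCommGroup V] [Module ℚ V] {ι : Type} [Fintype ι] [DecidableEq ι]

/-- small degrees -/
theorem R_eq (U : Submodule ℚ V) (a b : ι → V →ₗ[ℚ] ℚ) {r s l : ℕ} (h : l ≤ s) :
    R U a b r (s + 1) l = R U a b r s l := by
  apply Submodule.ext
  intro φ
  constructor
  · rintro ⟨h1, h2⟩
    refine ⟨fun e f hef => ?_, h2⟩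
    obtain ⟨c1, c2, c3, c4⟩ := h1 e f hef
    refine ⟨c1, ?_, c3, c4⟩
    have h3 : (univ.filter fun m => e m ≠ 0).card ≤ ∑ m, e m := by
      rw [Finset.card_filter]
      apply Finset.sum_le_sum
      intro m _
      split_ifs with h4
      · omega
      · exact Nat.zero_le _
    omega
  · rintro ⟨h1, h2⟩
    refine ⟨fun e f hef => ?_, h2⟩
    obtain ⟨c1, c2, c3, c4⟩ := h1 e f hef
    exact ⟨c1, by omega, c3, c4⟩

end

/-- the case `r ≤ s` -/
theorem core (h1 : S_LEX) (h2 : S_SF) (h3 : S_LX) (h4 : S_SIGN) (h5 : S_SUR)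
    (V : Type) [AddCommGroup V] [Module ℚ V] [FiniteDimensional ℚ V] (n r s i : ℕ)
    (a b : Fin n → V →ₗ[ℚ] ℚ) (α β : Fin n → ℚ) (P : Sub (r + 1) n → V) (hn : r + s + 2 = n)
    (hV : finrank ℚ V = n - 1) (hP : Sign P a b α β) (hi : i ≤ r + s) (hrs : r ≤ s) :
    bs n (min (min i (r + s - i)) (min r s)) ≤ finrank ℚ (W ⊤ a b univ r s i) := by
  have hsur := h5 V (r + 1) n a b α β P (by omega) (by omega) hP
  -- the comparison of `R` and `W`
  have hSF : ∀ l, ∃ g : R ⊤ a b r s l →ₗ[ℚ] W ⊤ a b univ r s l, Function.Injective g :=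
    fun l => h2 V (Fin n) ⊤ a b r s l fun A B hAB hA hB =>
      hsur A B hAB (by omega) (by omega) (by omega)
  have hRW : finrank ℚ (R ⊤ a b r s i) ≤ finrank ℚ (W ⊤ a b univ r s i) := by
    obtain ⟨g, hg⟩ := hSF i
    exact LinearMap.finrank_le_finrank_of_injective hg
  have hRf : FiniteDimensional ℚ (R ⊤ a b r s i) := by
    obtain ⟨g, hg⟩ := hSF i
    exact FiniteDimensional.of_injective g hg
  have hLEX : ∀ l ≤ r + (s + 1), finrank ℚ (R ⊤ a b r (s + 1) l) =
      bs n (min (min l (r + (s + 1) - l)) (min r (s + 1))) := by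
    intro l hl
    have := (h1 V (Fin n) a b r (s + 1) (by rw [Fintype.card_fin]; omega) (by omega)
      (fun A B hAB hA hB => hsur A B hAB (by omega) (by omega) (by omega)) l hl).2
    rwa [Fintype.card_fin] at this
  refine le_trans ?_ hRW
  by_cases his : i ≤ s
  · have h6 := hLEX i (by omega)
    rw [R_eq ⊤ a b his] at h6
    rw [h6]
    apply le_of_eq
    congr 1
    omega
  · push Not at his
    have h6 := hLEX (i + 1) (by omega)
    have h7 := h3 V n r s i a b α β P hn (by omega) hP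
      (fun u hu f => h4 V (r + 1) n a b α β P (by omega) (by omega) hV hP u (by omega) f) hRf
    rw [h6] at h7
    refine le_trans (le_of_eq ?_) h7
    congr 1
    omega

/-- the complement -/
def co {k k' n : ℕ} (h : k + k' = n) (S : Sub k n) : Sub k' n :=
  ⟨S.1ᶜ, by rw [Finset.card_compl, Fintype.card_fin, S.2]; omega⟩

end LOW

theorem t_LOW (h1 : S_LEX) (h2 : S_SF) (h3 : S_LX) (h4 : S_SIGN) (h5 : S_SUR) (h6 : S_SWP) :
    S_LOW := by
  intro V _ _ _ n r s i a b α β P hn hV hP hi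
  by_cases hrs : r ≤ s
  · exact LOW.core h1 h2 h3 h4 h5 V n r s i a b α β P hn hV hP hi hrs
  · push Not at hrs
    rw [(h6 V (Fin n) ⊤ a b univ r s i).1]
    have hco : (s + 1) + (r + 1) = n := by omega
    have hP' : Sign (fun S : Sub (s + 1) n => P (LOW.co hco S)) b a β α := by
      intro S m
      obtain ⟨c1, c2, c3, c4⟩ := hP (LOW.co hco S) m
      have hm : m ∈ (LOW.co hco S).1 ↔ m ∉ S.1 := Finset.mem_compl
      exact ⟨fun h => c3 (hm.mpr h), fun h => c4 fun h' => hm.mp h' h,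
        fun h => c1 fun h' => hm.mp h' h, fun h => c2 (hm.mpr h)⟩
    have := LOW.core h1 h2 h3 h4 h5 V n s r i b a β α _ (by omega) hV hP' (by omega) (by omega)
    refine le_trans (le_of_eq ?_) this
    congr 1
    omega

end Pool.Agent.CB
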