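import Pool.Agent.CB.Stm

/-!
# Project CB: multiplication by a strictly convex function is injective
-/

set_option autoImplicit false

namespace Pool.Agent.CB

namespace LX

open Finset Module

variable {n : ℕ}

lemma sum_single (e : Fin n → ℕ) (m : Fin n) : ∑ i, (e + Pi.single m 1 : Fin n → ℕ) i = ∑ i, e i + 1 := by
  simp [Finset.sum_add_distrib]

lemma sp_single (e : Fin n → ℕ) (m : Fin n) :
    (univ.filter fun i => (e + Pi.single m 1 : Fin n → ℕ) i ≠ 0) = insert m (univ.filter fun i => e i ≠ 0) := by
  ext i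
  by_cases h : i = m
  · subst h; simp
  · simp [h]

lemma decomp (f : Fin n → ℕ) (m₀ : Fin n) (h : 1 ≤ f m₀) :
    ∃ f' : Fin n → ℕ, f = f' + Pi.single m₀ 1 ∧ f' m₀ = f m₀ - 1 := by
  refine ⟨Function.update f m₀ (f m₀ - 1), ?_, by simp⟩
  ext i
  by_cases hi : i = m₀
  · subst hi
    simp only [Pi.add_apply, Function.update_self, Pi.single_eq_same]
    omega
  · simp [hi]

lemma exists_two (f : Fin n → ℕ) (h : (univ.filter fun i => f i ≠ 0).card < ∑ i, f i) :
    ∃ m, 2 ≤ f m := by
  by_contra hcon
  push Not at hcon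
  apply absurd h
  rw [not_lt, Finset.card_filter]
  refine Finset.sum_le_sum fun i _ => ?_
  have := hcon i
  split_ifs with h1 <;> omega

/-- multiplication with the piecewise linear function -/
def D (α β : Fin n → ℚ) :
    ((Fin n → ℕ) × (Fin n → ℕ) → ℚ) →ₗ[ℚ] ((Fin n → ℕ) × (Fin n → ℕ) → ℚ) where
  toFun φ := fun x => ∑ m, (α m * φ (x.1 + Pi.single m 1, x.2) + β m * φ (x.1, x.2 + Pi.single m 1))
  map_add' φ ψ := by
    funext x
    simp only [Pi.add_apply]
    rw [← Finset.sum_add_distrib]
    exact Finset.sum_congr rfl fun m _ => by ring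
  map_smul' c φ := by
    funext x
    simp only [Pi.smul_apply, smul_eq_mul, RingHom.id_apply]
    rw [Finset.mul_sum]
    exact Finset.sum_congr rfl fun m _ => by ring

lemma D_apply (α β : Fin n → ℚ) (φ : (Fin n → ℕ) × (Fin n → ℕ) → ℚ) (e f : Fin n → ℕ) :
    D α β φ (e, f) = ∑ m, (α m * φ (e + Pi.single m 1, f) + β m * φ (e, f + Pi.single m 1)) := rfl

variable {V : Type} [AddCommGroup V] [Module ℚ V]

lemma D_mem {r s l : ℕ} {a b : Fin n → V →ₗ[ℚ] ℚ} {α β : Fin n → ℚ} {P : Sub (r + 1) n → V}
    (hn : r + s + 2 = n) (hP : Sign P a b α β) {φ : (Fin n → ℕ) × (Fin n → ℕ) → ℚ}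
    (hφ : φ ∈ R ⊤ a b r (s + 1) (l + 1)) : D α β φ ∈ R ⊤ a b r s l := by
  obtain ⟨h1, h2⟩ := hφ
  refine ⟨fun e f hne => ?_, fun e f u _ => ?_⟩
  · have hex : ∃ m, φ (e + Pi.single m 1, f) ≠ 0 ∨ φ (e, f + Pi.single m 1) ≠ 0 := by
      by_contra hcon
      push Not at hcon
      apply hne
      rw [D_apply]
      refine Finset.sum_eq_zero fun m _ => ?_
      rw [(hcon m).1, (hcon m).2, mul_zero, mul_zero, add_zero]
    have main : (∀ m, e m = 0 ∨ f m = 0) ∧ (univ.filter fun m => e m ≠ 0).card ≤ s + 1 ∧
        (univ.filter fun m => f m ≠ 0).card ≤ r ∧ ∑ m, e m + ∑ m, f m = l := by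
      obtain ⟨m, hm | hm⟩ := hex
      · obtain ⟨g1, g2, g3, g4⟩ := h1 _ _ hm
        rw [sp_single] at g2
        rw [sum_single] at g4
        refine ⟨fun m' => ?_, (card_le_card (subset_insert _ _)).trans g2, g3, by omega⟩
        rcases g1 m' with h | h
        · left
          have : e m' + (Pi.single m 1 : Fin n → ℕ) m' = 0 := h
          omega
        · exact Or.inr h
      · obtain ⟨g1, g2, g3, g4⟩ := h1 _ _ hm
        rw [sp_single] at g3
        rw [sum_single] at g4
        refine ⟨fun m' => ?_, g2, (card_le_card (subset_insert _ _)).trans g3, by omega⟩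
        rcases g1 m' with h | h
        · exact Or.inl h
        · right
          have : f m' + (Pi.single m 1 : Fin n → ℕ) m' = 0 := h
          omega
    obtain ⟨g1, g2, g3, g4⟩ := main
    refine ⟨g1, ?_, g3, g4⟩
    by_contra hcard
    have hcard' : (univ.filter fun m => e m ≠ 0).card = s + 1 := by omega
    have hS : ((univ.filter fun m => e m ≠ 0)ᶜ).card = r + 1 := by
      rw [card_compl, Fintype.card_fin, hcard']; omega
    apply hne
    have key := h2 e f (P ⟨_, hS⟩) trivial
    rw [D_apply]
    have hsum : ∑ m, (α m * φ (e + Pi.single m 1, f) + β m * φ (e, f + Pi.single m 1)) =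
        ∑ m, (α m * φ (e + Pi.single m 1, f) + β m * φ (e, f + Pi.single m 1)) +
        ∑ m, (a m (P ⟨_, hS⟩) * φ (e + Pi.single m 1, f) +
          b m (P ⟨_, hS⟩) * φ (e, f + Pi.single m 1)) := by rw [key, add_zero]
    rw [hsum, ← Finset.sum_add_distrib]
    refine Finset.sum_eq_zero fun m _ => ?_
    obtain ⟨p1, -, p3, -⟩ := hP ⟨_, hS⟩ m
    by_cases hm : e m ≠ 0
    · have q1 : a m (P ⟨_, hS⟩) + α m = 0 := p1 (by simp [hm])
      have q2 : φ (e, f + Pi.single m 1) = 0 := by
        by_contra hq
        rcases (h1 _ _ hq).1 m with h | h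
        · exact hm h
        · simp at h
      rw [q2]
      linear_combination φ (e + Pi.single m 1, f) * q1
    · have q1 : b m (P ⟨_, hS⟩) + β m = 0 := p3 (by simpa using hm)
      have q2 : φ (e + Pi.single m 1, f) = 0 := by
        by_contra hq
        have h := (h1 _ _ hq).2.1
        rw [sp_single, card_insert_of_notMem (by simpa using hm), hcard'] at h
        omega
      rw [q2]
      linear_combination φ (e, f + Pi.single m 1) * q1
  · have hswap : ∑ m, (a m u * D α β φ (e + Pi.single m 1, f) +
        b m u * D α β φ (e, f + Pi.single m 1)) =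
        ∑ m', (α m' * (∑ m, (a m u * φ (e + Pi.single m' 1 + Pi.single m 1, f) +
            b m u * φ (e + Pi.single m' 1, f + Pi.single m 1))) +
          β m' * ∑ m, (a m u * φ (e + Pi.single m 1, f + Pi.single m' 1) +
            b m u * φ (e, f + Pi.single m' 1 + Pi.single m 1))) := by
      simp only [D_apply, Finset.mul_sum, ← Finset.sum_add_distrib]
      rw [Finset.sum_comm]
      refine Finset.sum_congr rfl fun m' _ => Finset.sum_congr rfl fun m _ => ?_
      rw [add_right_comm e (Pi.single m 1) (Pi.single m' 1),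
        add_right_comm f (Pi.single m 1) (Pi.single m' 1)]
      ring
    rw [hswap]
    refine Finset.sum_eq_zero fun m' _ => ?_
    rw [h2 (e + Pi.single m' 1) f u trivial, h2 e (f + Pi.single m' 1) u trivial, mul_zero, mul_zero,
      add_zero]

lemma D_inj {r s l : ℕ} {a b : Fin n → V →ₗ[ℚ] ℚ} {α β : Fin n → ℚ} (hl : r ≤ l)
    (hu : ∀ u : Finset (Fin n), u.card ≤ r → ∀ f : Fin n → ℚ, ∃ (v : V) (t : ℚ),
      (∀ m ∉ u, a m v + α m * t = f m) ∧ ∀ m ∈ u, b m v + β m * t = f m)
    {φ : (Fin n → ℕ) × (Fin n → ℕ) → ℚ} (hφ : φ ∈ R ⊤ a b r (s + 1) (l + 1)) (hD : D α β φ = 0) :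
    φ = 0 := by
  obtain ⟨h1, h2⟩ := hφ
  -- the relations on `V × ℚ`
  have hrel : ∀ e f v t, ∑ m, ((a m v + α m * t) * φ (e + Pi.single m 1, f) +
      (b m v + β m * t) * φ (e, f + Pi.single m 1)) = 0 := by
    intro e f v t
    have k1 := h2 e f v trivial
    have k2 : D α β φ (e, f) = 0 := by rw [hD]; rfl
    rw [D_apply] at k2
    have k3 : ∑ m, ((a m v + α m * t) * φ (e + Pi.single m 1, f) +
        (b m v + β m * t) * φ (e, f + Pi.single m 1)) =
        ∑ m, (a m v * φ (e + Pi.single m 1, f) + b m v * φ (e, f + Pi.single m 1)) +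
        t * ∑ m, (α m * φ (e + Pi.single m 1, f) + β m * φ (e, f + Pi.single m 1)) := by
      rw [Finset.mul_sum, ← Finset.sum_add_distrib]
      exact Finset.sum_congr rfl fun m _ => by ring
    rw [k3, k1, k2, mul_zero, add_zero]
  -- exponents `(0, f)`
  have hzero : ∀ j : ℕ, ∀ f : Fin n → ℕ, r + 1 ≤ (univ.filter fun m => f m ≠ 0).card + j →
      φ (0, f) = 0 := by
    intro j
    induction j with
    | zero =>
      intro f hf
      by_contra hne
      have := (h1 _ _ hne).2.2.1
      omega
    | succ j ih =>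
      intro f hf
      by_contra hne
      obtain ⟨-, -, g3, g4⟩ := h1 _ _ hne
      have hsum : ∑ m, f m = l + 1 := by simpa using g4
      obtain ⟨m₀, hm₀⟩ := exists_two f (by omega)
      obtain ⟨f', hf', hf'm⟩ := decomp f m₀ (by omega)
      have hf'0 : f' m₀ ≠ 0 := by omega
      have hsp : (univ.filter fun m => f m ≠ 0) = univ.filter fun m => f' m ≠ 0 := by
        rw [hf', sp_single, insert_eq_self]
        simpa using hf'0
      obtain ⟨v, t, hv1, hv2⟩ := hu (univ.filter fun m => f' m ≠ 0) (by rw [← hsp]; exact g3)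
        (Pi.single m₀ 1)
      have hr := hrel 0 f' v t
      rw [Finset.sum_eq_single m₀] at hr
      · rw [hv2 m₀ (by simpa using hf'0), Pi.single_eq_same, one_mul, ← hf'] at hr
        have hq : φ (0 + Pi.single m₀ 1, f') = 0 := by
          by_contra hq
          rcases (h1 _ _ hq).1 m₀ with h | h
          · simp at h
          · exact hf'0 h
        rw [hq, mul_zero, zero_add] at hr
        exact hne hr
      · intro m _ hm
        by_cases hmu : f' m ≠ 0
        · rw [hv2 m (by simpa using hmu), Pi.single_eq_of_ne hm, zero_mul, add_zero]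
          have hq : φ (0 + Pi.single m 1, f') = 0 := by
            by_contra hq
            rcases (h1 _ _ hq).1 m with h | h
            · simp at h
            · exact hmu h
          rw [hq, mul_zero]
        · rw [hv1 m (by simpa using hmu), Pi.single_eq_of_ne hm, zero_mul, zero_add, ih, mul_zero]
          rw [sp_single, card_insert_of_notMem (by simpa using hmu), ← hsp]
          omega
      · intro h; exact absurd (mem_univ _) h
  have hzero' : ∀ f, φ (0, f) = 0 := fun f => hzero (r + 1) f (by omega)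
  -- all exponents
  have hall : ∀ d : ℕ, ∀ e f : Fin n → ℕ, ∑ m, e m = d → φ (e, f) = 0 := by
    intro d
    induction d with
    | zero =>
      intro e f he
      have : e = 0 := by
        funext m
        exact (Finset.sum_eq_zero_iff.1 he) m (mem_univ _)
      rw [this]
      exact hzero' f
    | succ d ih =>
      intro e' f he'
      by_contra hne
      obtain ⟨g1, -, g3, -⟩ := h1 _ _ hne
      obtain ⟨m₀, hm₀⟩ : ∃ m, 1 ≤ e' m := by
        by_contra hcon
        push Not at hcon
        have : ∑ m, e' m = 0 := Finset.sum_eq_zero fun m _ => by have := hcon m; omega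
        omega
      obtain ⟨e, he, -⟩ := decomp e' m₀ hm₀
      have hed : ∑ m, e m = d := by
        have := sum_single e m₀
        rw [← he] at this
        omega
      have hfm : f m₀ = 0 := (g1 m₀).resolve_left (by omega)
      obtain ⟨v, t, hv1, hv2⟩ := hu (univ.filter fun m => f m ≠ 0) g3 (Pi.single m₀ 1)
      have hr := hrel e f v t
      rw [Finset.sum_eq_single m₀] at hr
      · rw [hv1 m₀ (by simpa using hfm), Pi.single_eq_same, one_mul, ← he, ih e _ hed, mul_zero,
          add_zero] at hr
        exact hne hr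
      · intro m _ hm
        rw [ih e _ hed, mul_zero, add_zero]
        by_cases hmu : f m ≠ 0
        · have hq : φ (e + Pi.single m 1, f) = 0 := by
            by_contra hq
            rcases (h1 _ _ hq).1 m with h | h
            · simp at h
            · exact hmu h
          rw [hq, mul_zero]
        · rw [hv1 m (by simpa using hmu), Pi.single_eq_of_ne hm, zero_mul]
      · intro h; exact absurd (mem_univ _) h
  funext x
  exact hall _ x.1 x.2 rfl

end LX

open LX Finset Module in
theorem t_LX : S_LX := by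
  intro V _ _ n r s l a b α β P hn hl hP hu hfin
  let g : R ⊤ a b r (s + 1) (l + 1) →ₗ[ℚ] R ⊤ a b r s l :=
    ((D α β).comp (R ⊤ a b r (s + 1) (l + 1)).subtype).codRestrict _ fun φ => D_mem hn hP φ.2
  refine LinearMap.finrank_le_finrank_of_injective (f := g) ?_
  rw [← LinearMap.ker_eq_bot, LinearMap.ker_eq_bot']
  intro φ hφ
  have h1 : D α β φ.1 = 0 := congrArg Subtype.val hφ
  exact Subtype.ext (D_inj hl hu φ.2 h1)

end Pool.Agent.CB
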