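import Pool.Agent.CB.Stm

/-!
# Project CB, piece NUM1 (helper55): a binomial identity
-/

set_option autoImplicit false

namespace Pool.Agent.CB

open Finset

theorem NUM1.bs_min_succ (n m t : ℕ) :
    bs n (min m (t + 1)) = bs n (min m t) + if t + 1 ≤ m then n.choose (t + 1) else 0 := by
  split_ifs with h
  · rw [min_eq_right h, min_eq_right (by omega)]
    unfold bs
    rw [Finset.sum_range_succ]
  · rw [min_eq_left (by omega), min_eq_left (by omega), add_zero]

theorem NUM1.aux (m t : ℕ) (h : 2 * t ≤ m) :
    ∑ l ∈ range (m + 1), bs (m + 1) (min (min l (m - l)) t) = (m + 1) * m.choose t := by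
  induction t with
  | zero =>
    have h1 : ∀ l ∈ range (m + 1), bs (m + 1) (min (min l (m - l)) 0) = 1 := by
      intro l _
      rw [Nat.min_zero]
      unfold bs
      simp
    rw [Finset.sum_congr rfl h1]
    simp
  | succ t ih =>
    have h1 := ih (by omega)
    simp only [NUM1.bs_min_succ]
    rw [Finset.sum_add_distrib, h1, ← Finset.sum_filter]
    have h2 : (range (m + 1)).filter (fun l => t + 1 ≤ min l (m - l)) = Ico (t + 1) (m - t) := by
      ext l
      rw [Finset.mem_filter, Finset.mem_range, Finset.mem_Ico, le_min_iff]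
      omega
    rw [h2, Finset.sum_const, Nat.card_Ico, smul_eq_mul]
    obtain ⟨d, hd⟩ : ∃ d, d = m - t - (t + 1) := ⟨_, rfl⟩
    have hm : m = d + 2 * t + 1 := by omega
    rw [← hd]
    have h3 : (m + 1) * m.choose t = (m + 1).choose (t + 1) * (t + 1) :=
      Nat.add_one_mul_choose_eq m t
    have h4 : (m + 1).choose (t + 1) = m.choose t + m.choose (t + 1) := Nat.choose_succ_succ m t
    rw [h4] at h3 ⊢
    generalize m.choose t = A at h3 ⊢
    generalize m.choose (t + 1) = B at h3 ⊢
    subst hm
    nlinarith [h3]

theorem t_NUM1 : S_NUM1 := by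
  intro n r s h
  subst h
  have h1 := NUM1.aux (r + s) (min r s) (by omega)
  have h2 : (r + s).choose (min r s) = (r + s).choose r := by
    rcases le_total r s with h | h
    · rw [min_eq_left h]
    · rw [min_eq_right h, Nat.choose_symm_add]
  rw [h2] at h1
  exact h1

end Pool.Agent.CB
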