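import Pool.Agent.CB.Stm

/-!
Project CB, piece NUM2: an inequality for partial sums of binomial coefficients.
-/

set_option autoImplicit false

namespace Pool.Agent.CB.NUM2x

open Finset

theorem bs_mono (n : ℕ) {a b : ℕ} (h : a ≤ b) : bs n a ≤ bs n b :=
  Finset.sum_le_sum_of_subset (Finset.range_mono (Nat.succ_le_succ h))

theorem bs_zero (n : ℕ) : bs n 0 = 1 := by simp [bs]

theorem bs_last (n m : ℕ) : bs n (m + 1) = bs n m + n.choose (m + 1) := by
  unfold bs
  rw [Finset.sum_range_succ]

theorem bs_pascal (n m : ℕ) : bs (n + 1) (m + 1) = bs n (m + 1) + bs n m := by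
  induction m with
  | zero => simp [bs, Finset.sum_range_succ]; ring
  | succ m ih =>
    rw [bs_last (n + 1) (m + 1), ih, bs_last n (m + 1), bs_last n m, Nat.choose_succ_succ]
    ring

end Pool.Agent.CB.NUM2x

namespace Pool.Agent.CB

open NUM2x

theorem t_NUM2 : S_NUM2 := by
  intro n r s i hn hrs hi hirs
  obtain ⟨n, rfl⟩ : ∃ k, n = k + 1 := ⟨n - 1, by omega⟩
  have hs : s ≠ 0 := by omega
  rw [if_neg hs, Nat.add_sub_cancel]
  by_cases h1 : r = 0 ∨ i = r + s
  · have e1 : min (min i (r + s - i)) (min r s) = 0 := by omega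
    have e2 : min (min (i - 1) (r + s - i)) (min r (s - 1)) = 0 := by omega
    have e3 : i ≠ r := by omega
    rw [if_pos h1, if_neg e3, e1, e2, bs_zero, bs_zero]
  · rw [if_neg h1]
    obtain ⟨m, hm⟩ : ∃ m, min (min i (r + s - i)) (min r s) = m + 1 :=
      ⟨min (min i (r + s - i)) (min r s) - 1, by omega⟩
    rw [hm, bs_pascal]
    rcases lt_trichotomy i r with h | h | h
    · rw [if_neg (by omega)]
      have g1 := bs_mono n (show min (min (i - 1) (r + s - i)) (min r (s - 1)) ≤ m by omega)
      have g2 := bs_mono n (show min (min i (r + s - 1 - i)) (min (r - 1) s) ≤ m + 1 by omega)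
      omega
    · rw [if_pos h]
      have e1 : min (min (i - 1) (r + s - i)) (min r (s - 1)) = m := by omega
      have e2 : min (min i (r + s - 1 - i)) (min (r - 1) s) = m := by omega
      have e3 : r = m + 1 := by omega
      rw [e1, e2, bs_last, e3]
      omega
    · rw [if_neg (by omega)]
      have g1 := bs_mono n (show min (min (i - 1) (r + s - i)) (min r (s - 1)) ≤ m + 1 by omega)
      have g2 := bs_mono n (show min (min i (r + s - 1 - i)) (min (r - 1) s) ≤ m by omega)
      omega

end Pool.Agent.CB
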