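import Pool.Agent.CB.Stm

/-!
# SF: the squarefree part of a weight on the monomials determines it
-/

set_option autoImplicit false

namespace Pool.Agent.CB

open Finset Module

/-- the support -/
def SFx_supp {ι : Type} [Fintype ι] (e : ι → ℕ) : Finset ι := univ.filter fun m => e m ≠ 0

/-- the indicator function -/
def SFx_ind {ι : Type} [DecidableEq ι] (A : Finset ι) : ι → ℕ := fun m => if m ∈ A then 1 else 0

section
variable {ι : Type} [Fintype ι] [DecidableEq ι]

omit [DecidableEq ι] in
theorem SFx_mem (e : ι → ℕ) (m : ι) : m ∈ SFx_supp e ↔ e m ≠ 0 := by simp [SFx_supp]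

theorem SFx_supp_ind (A : Finset ι) : SFx_supp (SFx_ind A) = A := by
  ext m
  simp [SFx_supp, SFx_ind]

theorem SFx_sum_ind (A : Finset ι) : ∑ m, SFx_ind A m = A.card := by
  simp [SFx_ind]

omit [Fintype ι] in
theorem SFx_ind_insert (A : Finset ι) (m : ι) (hm : m ∉ A) :
    SFx_ind A + Pi.single m 1 = SFx_ind (insert m A) := by
  funext x
  by_cases hx : x = m
  · subst hx
    simp [SFx_ind, hm]
  · simp [SFx_ind, hx]

theorem SFx_supp_add (e : ι → ℕ) (m : ι) : SFx_supp (e + Pi.single m 1) = insert m (SFx_supp e) := by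
  ext x
  by_cases hx : x = m
  · subst hx
    simp [SFx_supp]
  · simp [SFx_supp, hx]

end

theorem SFx_step {V : Type} [AddCommGroup V] [Module ℚ V] {ι : Type} [Fintype ι] [DecidableEq ι]
    (U : Submodule ℚ V) (a b : ι → V →ₗ[ℚ] ℚ) (φ : (ι → ℕ) → (ι → ℕ) → ℚ)
    (hd : ∀ e f, φ e f ≠ 0 → ∀ m, e m = 0 ∨ f m = 0)
    (hrel : ∀ e f, ∀ u ∈ U,
      ∑ m, (a m u * φ (e + Pi.single m 1) f + b m u * φ e (f + Pi.single m 1)) = 0)
    (e f : ι → ℕ) (m : ι) (hm : e m ≠ 0)
    (hS : Sur U a b (SFx_supp e) (SFx_supp f))
    (h1 : ∀ m', e m' = 0 → f m' = 0 → φ (e + Pi.single m' 1) f = 0)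
    (h2 : ∀ m', e m' = 0 → f m' = 0 → φ e (f + Pi.single m' 1) = 0) :
    φ (e + Pi.single m 1) f = 0 := by
  have hbad : ∀ (e f : ι → ℕ) (m : ι), e m ≠ 0 → f m ≠ 0 → φ e f = 0 := by
    intro e f m he hf
    by_contra h
    rcases hd e f h m with h' | h'
    · exact he h'
    · exact hf h'
  obtain ⟨u, hu, hua, hub⟩ := hS (fun m' => if m' = m then 1 else 0) (fun _ => 0)
  have h := hrel e f u hu
  rw [Finset.sum_eq_single m] at h
  · have ha : a m u = 1 := by
      rw [hua m ((SFx_mem e m).2 hm)]
      simp
    have hz : φ e (f + Pi.single m 1) = 0 := hbad _ _ m hm (by simp)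
    rw [ha, hz, mul_zero, add_zero, one_mul] at h
    exact h
  · intro m' _ hm'
    by_cases he : e m' = 0
    · by_cases hf : f m' = 0
      · rw [h1 m' he hf, h2 m' he hf, mul_zero, mul_zero, add_zero]
      · rw [hub m' ((SFx_mem f m').2 hf), hbad (e + Pi.single m' 1) f m' (by simp) hf, mul_zero,
          zero_mul, add_zero]
    · rw [hua m' ((SFx_mem e m').2 he), if_neg hm', zero_mul,
        hbad e (f + Pi.single m' 1) m' he (by simp), mul_zero, add_zero]
  · intro h'
    exact absurd (Finset.mem_univ m) h'

/-- the squarefree part -/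
def SFx_G (ι : Type) [Fintype ι] [DecidableEq ι] :
    ((ι → ℕ) × (ι → ℕ) → ℚ) →ₗ[ℚ] (Finset ι × Finset ι → ℚ) where
  toFun φ := fun AB => if Disjoint AB.1 AB.2 then φ (SFx_ind AB.1, SFx_ind AB.2) else 0
  map_add' φ ψ := by
    funext AB
    by_cases h : Disjoint AB.1 AB.2 <;> simp [h]
  map_smul' c φ := by
    funext AB
    by_cases h : Disjoint AB.1 AB.2 <;> simp [h]

theorem SFx_W {V : Type} [AddCommGroup V] [Module ℚ V] {ι : Type} [Fintype ι] [DecidableEq ι]
    (U : Submodule ℚ V) (a b : ι → V →ₗ[ℚ] ℚ) (r s l : ℕ)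
    (φ : (ι → ℕ) × (ι → ℕ) → ℚ) (hφ : φ ∈ R U a b r s l) : SFx_G ι φ ∈ W U a b univ r s l := by
  obtain ⟨hs, hr⟩ := hφ
  refine ⟨fun A B h => ?_, fun A B _ _ hd _ u hu ha hb => ?_⟩
  · have hd : Disjoint A B := by
      by_contra hd
      exact h (if_neg hd)
    have hne : φ (SFx_ind A, SFx_ind B) ≠ 0 := by
      have : SFx_G ι φ (A, B) = φ (SFx_ind A, SFx_ind B) := if_pos hd
      rwa [this] at h
    obtain ⟨-, h2, h3, h4⟩ := hs _ _ hne
    have e1 : (univ.filter fun m => SFx_ind A m ≠ 0) = A := SFx_supp_ind A
    have e2 : (univ.filter fun m => SFx_ind B m ≠ 0) = B := SFx_supp_ind B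
    rw [e1] at h2
    rw [e2] at h3
    rw [SFx_sum_ind, SFx_sum_ind] at h4
    exact ⟨subset_univ _, subset_univ _, hd, h2, h3, h4⟩
  · have h := hr (SFx_ind A) (SFx_ind B) u hu
    rw [← h]
    have hbad : ∀ (e f : ι → ℕ) (m : ι), e m ≠ 0 → f m ≠ 0 → φ (e, f) = 0 := by
      intro e f m he hf
      by_contra h
      rcases (hs e f h).1 m with h' | h'
      · exact he h'
      · exact hf h'
    refine (Finset.sum_subset_zero_on_sdiff (subset_univ _) ?_ ?_)
    · intro m hm
      simp only [mem_sdiff, mem_univ, true_and, mem_union, not_or, not_and, not_not] at hm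
      by_cases hA : m ∈ A
      · rw [ha m hA, zero_mul, hbad _ _ m (by simp [SFx_ind, hA]) (by simp), mul_zero, add_zero]
      · have hB : m ∈ B := hm hA
        rw [hb m hB, zero_mul, hbad (SFx_ind A + Pi.single m 1) (SFx_ind B) m (by simp)
          (by simp [SFx_ind, hB]), mul_zero, add_zero]
    · intro m hm
      simp only [mem_sdiff, mem_univ, true_and, mem_union, not_or] at hm
      have h1 : SFx_G ι φ (insert m A, B) = φ (SFx_ind A + Pi.single m 1, SFx_ind B) := by
        rw [SFx_ind_insert A m hm.1]
        exact if_pos (Finset.disjoint_insert_left.2 ⟨hm.2, hd⟩)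
      have h2 : SFx_G ι φ (A, insert m B) = φ (SFx_ind A, SFx_ind B + Pi.single m 1) := by
        rw [SFx_ind_insert B m hm.2]
        exact if_pos (Finset.disjoint_insert_right.2 ⟨hm.1, hd⟩)
      rw [h1, h2]

theorem SFx_inj {V : Type} [AddCommGroup V] [Module ℚ V] {ι : Type} [Fintype ι] [DecidableEq ι]
    (U : Submodule ℚ V) (a b : ι → V →ₗ[ℚ] ℚ) (r s l : ℕ)
    (hSur : ∀ A B : Finset ι, Disjoint A B → A.card ≤ s → B.card ≤ r → Sur U a b A B)
    (φ : (ι → ℕ) × (ι → ℕ) → ℚ) (hφ : φ ∈ R U a b r s l) (hG : SFx_G ι φ = 0) : φ = 0 := by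
  obtain ⟨hs, hr⟩ := hφ
  have hdj : ∀ e f, φ (e, f) ≠ 0 → Disjoint (SFx_supp e) (SFx_supp f) := by
    intro e f h
    rw [Finset.disjoint_left]
    intro m h1 h2
    rcases (hs e f h).1 m with h' | h'
    · exact (SFx_mem e m).1 h1 h'
    · exact (SFx_mem f m).1 h2 h'
  have key : ∀ k : ℕ, ∀ e f : ι → ℕ,
      Fintype.card ι + 1 ≤ (SFx_supp e).card + (SFx_supp f).card + k → φ (e, f) = 0 := by
    intro k
    induction k with
    | zero =>
      intro e f hk
      by_contra h
      have h1 := Finset.card_union_of_disjoint (hdj e f h)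
      have h2 := Finset.card_le_univ (SFx_supp e ∪ SFx_supp f)
      omega
    | succ k ih =>
      intro e f hk
      by_contra hne
      obtain ⟨h1, h2, h3, h4⟩ := hs e f hne
      have hS : Sur U a b (SFx_supp e) (SFx_supp f) := hSur _ _ (hdj e f hne) h2 h3
      by_cases hE : ∃ m, 2 ≤ e m
      · obtain ⟨m, hm⟩ := hE
        let e' : ι → ℕ := Function.update e m (e m - 1)
        have he' : e = e' + Pi.single m 1 := by
          funext x
          by_cases hx : x = m
          · subst hx
            simp [e']
            omega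
          · simp [e', hx]
        have hm' : e' m ≠ 0 := by
          simp [e']
          omega
        have hsupp : SFx_supp e = SFx_supp e' := by
          rw [he', SFx_supp_add, Finset.insert_eq_of_mem ((SFx_mem e' m).2 hm')]
        rw [hsupp] at hS
        have hz := SFx_step U a b (fun e f => φ (e, f)) (fun e f h => (hs e f h).1)
          (fun e f u hu => hr e f u hu) e' f m hm' hS
          (fun m' h5 h6 => ih _ _ (by
            rw [SFx_supp_add, Finset.card_insert_of_notMem (fun h => (SFx_mem e' m').1 h h5),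
              ← hsupp]
            omega))
          (fun m' h5 h6 => ih _ _ (by
            rw [SFx_supp_add, Finset.card_insert_of_notMem (fun h => (SFx_mem f m').1 h h6),
              ← hsupp]
            omega))
        apply hne
        rw [he']
        exact hz
      · by_cases hF : ∃ m, 2 ≤ f m
        · obtain ⟨m, hm⟩ := hF
          let f' : ι → ℕ := Function.update f m (f m - 1)
          have hf' : f = f' + Pi.single m 1 := by
            funext x
            by_cases hx : x = m
            · subst hx
              simp [f']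
              omega
            · simp [f', hx]
          have hm' : f' m ≠ 0 := by
            simp [f']
            omega
          have hsupp : SFx_supp f = SFx_supp f' := by
            rw [hf', SFx_supp_add, Finset.insert_eq_of_mem ((SFx_mem f' m).2 hm')]
          have hS' : Sur U b a (SFx_supp f') (SFx_supp e) := by
            rw [← hsupp]
            intro p q
            obtain ⟨u, hu, h5, h6⟩ := hS q p
            exact ⟨u, hu, h6, h5⟩
          have hz := SFx_step U b a (fun f e => φ (e, f)) (fun f e h m => ((hs e f h).1 m).symm)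
            (fun f e u hu => by
              rw [← hr e f u hu]
              exact Finset.sum_congr rfl fun m _ => add_comm _ _) f' e m hm' hS'
            (fun m' h5 h6 => ih _ _ (by
              rw [SFx_supp_add, Finset.card_insert_of_notMem (fun h => (SFx_mem f' m').1 h h5),
                ← hsupp]
              omega))
            (fun m' h5 h6 => ih _ _ (by
              rw [SFx_supp_add, Finset.card_insert_of_notMem (fun h => (SFx_mem e m').1 h h6),
                ← hsupp]
              omega))
          apply hne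
          rw [hf']
          exact hz
        · push Not at hE hF
          have e1 : e = SFx_ind (SFx_supp e) := by
            funext x
            have := hE x
            by_cases hx : e x = 0
            · simp [SFx_ind, SFx_mem, hx]
            · simp only [SFx_ind, SFx_mem, ne_eq, hx, not_false_eq_true, if_true]
              omega
          have e2 : f = SFx_ind (SFx_supp f) := by
            funext x
            have := hF x
            by_cases hx : f x = 0
            · simp [SFx_ind, SFx_mem, hx]
            · simp only [SFx_ind, SFx_mem, ne_eq, hx, not_false_eq_true, if_true]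
              omega
          have h5 : SFx_G ι φ (SFx_supp e, SFx_supp f) =
              φ (SFx_ind (SFx_supp e), SFx_ind (SFx_supp f)) := if_pos (hdj e f hne)
          rw [hG, ← e1, ← e2] at h5
          exact hne h5.symm
  funext ef
  exact key (Fintype.card ι + 1) ef.1 ef.2 (by omega)

theorem t_SF : S_SF := by
  intro V _ _ ι _ _ U a b r s l hSur
  refine ⟨(SFx_G ι).restrict (fun φ hφ => SFx_W U a b r s l φ hφ), ?_⟩
  rw [← LinearMap.ker_eq_bot, LinearMap.ker_eq_bot']
  rintro ⟨φ, hφ⟩ h
  have h' : SFx_G ι φ = 0 := congrArg Subtype.val h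
  exact Subtype.ext (SFx_inj U a b r s l hSur φ hφ h')

end Pool.Agent.CB
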