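import Pool.Agent.CB.Stm

/-!
# Project CB: the sign argument
-/

set_option autoImplicit false

namespace Pool.Agent.CB

namespace SIGN

open Finset

lemma out {k n : ℕ} {u : Finset (Fin n)} (hu : u.card < k) (hkn : 2 * k ≤ n)
    (g : Sub k n → Fin n → ℚ) (hg0 : ∀ (S : Sub k n) (m : Fin n), (m ∈ u ↔ m ∈ S.1) → g S m = 0)
    (hg1 : ∀ (S : Sub k n) (m : Fin n), m ∉ u → m ∈ S.1 → 0 < g S m) (c : Fin n → ℚ)
    (hc : ∀ S, ∑ m, c m * g S m = 0) (m₀ : Fin n) (h₀ : m₀ ∉ u) : ¬ 0 < c m₀ := by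
  intro hpos
  have hcard : (univ.filter fun m => m ∉ u).card = n - u.card := by
    have h1 : (univ.filter fun m => m ∉ u) = uᶜ := by ext m; simp
    rw [h1, card_compl, Fintype.card_fin]
  have hsplit := card_filter_add_card_filter_not (s := univ.filter fun m => m ∉ u)
    (fun m => 0 ≤ c m)
  rw [hcard] at hsplit
  have hun : u.card ≤ n := by omega
  -- the value for `S = u ∪ T`
  have hval : ∀ T : Finset (Fin n), Disjoint u T → ∀ h : (u ∪ T).card = k,
      ∑ m ∈ T, c m * g ⟨u ∪ T, h⟩ m = 0 := by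
    intro T hd h
    rw [← hc ⟨u ∪ T, h⟩]
    refine sum_subset (subset_univ _) fun m _ hm => ?_
    rw [hg0 ⟨u ∪ T, h⟩ m, mul_zero]
    simp only [mem_union]
    exact ⟨fun h => Or.inl h, fun h => h.resolve_right hm⟩
  by_cases hcase : k - u.card ≤ ((univ.filter fun m => m ∉ u).filter fun m => 0 ≤ c m).card
  · obtain ⟨T, hT1, hT2, hT3⟩ := exists_subsuperset_card_eq
      (s := {m₀}) (t := (univ.filter fun m => m ∉ u).filter fun m => 0 ≤ c m) (n := k - u.card)
      (by simp [h₀, hpos.le]) (by rw [card_singleton]; omega) hcase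
    have hd : Disjoint u T := by
      rw [Finset.disjoint_left]
      intro m hm hm'
      have := hT2 hm'
      simp only [mem_filter, mem_univ, true_and] at this
      exact this.1 hm
    have hcd : (u ∪ T).card = k := by rw [card_union_of_disjoint hd, hT3]; omega
    have hv := hval T hd hcd
    have hm₀ : m₀ ∈ T := hT1 (mem_singleton_self _)
    have hpos2 : 0 < ∑ m ∈ T, c m * g ⟨u ∪ T, hcd⟩ m := by
      refine sum_pos' (fun m hm => ?_) ⟨m₀, hm₀, ?_⟩
      · have := hT2 hm
        simp only [mem_filter, mem_univ, true_and] at this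
        exact mul_nonneg this.2 (hg1 ⟨u ∪ T, hcd⟩ m this.1 (mem_union_right _ hm)).le
      · exact mul_pos hpos (hg1 ⟨u ∪ T, hcd⟩ m₀ h₀ (mem_union_right _ hm₀))
    rw [hv] at hpos2
    exact lt_irrefl _ hpos2
  · have hneg : k - u.card ≤ ((univ.filter fun m => m ∉ u).filter fun m => ¬ 0 ≤ c m).card := by
      omega
    obtain ⟨T, hT2, hT3⟩ := exists_subset_card_eq hneg
    have hd : Disjoint u T := by
      rw [Finset.disjoint_left]
      intro m hm hm'
      have := hT2 hm'
      simp only [mem_filter, mem_univ, true_and] at this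
      exact this.1 hm
    have hcd : (u ∪ T).card = k := by rw [card_union_of_disjoint hd, hT3]; omega
    have hv := hval T hd hcd
    have hne : T.Nonempty := by
      rw [← card_pos, hT3]; omega
    have hneg2 : ∑ m ∈ T, c m * g ⟨u ∪ T, hcd⟩ m < 0 := by
      refine sum_neg (fun m hm => ?_) hne
      have := hT2 hm
      simp only [mem_filter, mem_univ, true_and, not_le] at this
      exact mul_neg_of_neg_of_pos this.2 (hg1 ⟨u ∪ T, hcd⟩ m this.1 (mem_union_right _ hm))
    rw [hv] at hneg2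
    exact lt_irrefl _ hneg2

end SIGN

open SIGN Finset in
theorem t_SIGN : S_SIGN := by
  intro V _ _ _ k n a b α β P hk hkn _ hP u hu f
  classical
  let L : V × ℚ →ₗ[ℚ] (Fin n → ℚ) :=
    LinearMap.pi fun m => if m ∈ u then (b m).comp (LinearMap.fst ℚ V ℚ) + β m • LinearMap.snd ℚ V ℚ
      else (a m).comp (LinearMap.fst ℚ V ℚ) + α m • LinearMap.snd ℚ V ℚ
  have hL1 : ∀ v t m, m ∈ u → L (v, t) m = b m v + β m * t := by
    intro v t m hm
    simp [L, hm]
  have hL2 : ∀ v t m, m ∉ u → L (v, t) m = a m v + α m * t := by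
    intro v t m hm
    simp [L, hm]
  suffices hL : LinearMap.range L = ⊤ by
    obtain ⟨⟨v, t⟩, hv⟩ := LinearMap.range_eq_top.1 hL f
    exact ⟨v, t, fun m hm => by rw [← hL2 v t m hm, hv], fun m hm => by rw [← hL1 v t m hm, hv]⟩
  by_contra hne
  obtain ⟨φ, hφ0, hφ⟩ := Submodule.exists_le_ker_of_lt_top _ (lt_top_iff_ne_top.2 hne)
  apply hφ0
  let c : Fin n → ℚ := fun m => φ (Pi.single m 1)
  have hφc : ∀ x : Fin n → ℚ, φ x = ∑ m, c m * x m := by
    intro x
    conv_lhs => rw [← Finset.univ_sum_single x]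
    rw [map_sum]
    refine Finset.sum_congr rfl fun m _ => ?_
    have : Pi.single m (x m) = x m • (Pi.single m (1 : ℚ) : Fin n → ℚ) := by
      rw [← Pi.single_smul, smul_eq_mul, mul_one]
    rw [this, map_smul, smul_eq_mul, mul_comm]
  let g : Sub k n → Fin n → ℚ := fun S m => L (P S, 1) m
  have hc : ∀ S, ∑ m, c m * g S m = 0 := by
    intro S
    rw [← hφc]
    exact hφ ⟨(P S, 1), rfl⟩
  have hg0 : ∀ (S : Sub k n) (m : Fin n), (m ∈ u ↔ m ∈ S.1) → g S m = 0 := by
    intro S m hm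
    obtain ⟨h1, -, h3, -⟩ := hP S m
    by_cases hmu : m ∈ u
    · change L (P S, 1) m = 0
      rw [hL1 _ _ _ hmu, mul_one]
      exact h3 (hm.1 hmu)
    · change L (P S, 1) m = 0
      rw [hL2 _ _ _ hmu, mul_one]
      exact h1 fun h => hmu (hm.2 h)
  have hg1 : ∀ (S : Sub k n) (m : Fin n), m ∉ u → m ∈ S.1 → 0 < g S m := by
    intro S m hmu hm
    obtain ⟨-, h2, -, -⟩ := hP S m
    change 0 < L (P S, 1) m
    rw [hL2 _ _ _ hmu, mul_one]
    exact h2 hm
  have hg2 : ∀ (S : Sub k n) (m : Fin n), m ∈ u → m ∉ S.1 → 0 < g S m := by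
    intro S m hmu hm
    obtain ⟨-, -, -, h4⟩ := hP S m
    change 0 < L (P S, 1) m
    rw [hL1 _ _ _ hmu, mul_one]
    exact h4 hm
  have hout : ∀ m, m ∉ u → c m = 0 := by
    intro m hm
    refine le_antisymm (not_lt.1 (out hu hkn g hg0 hg1 c hc m hm)) ?_
    have h2 := out hu hkn g hg0 hg1 (fun m => - c m) (fun S => by
      simp only [neg_mul, sum_neg_distrib, hc, neg_zero]) m hm
    simpa using h2
  have hin : ∀ m, m ∈ u → c m = 0 := by
    intro m₀ hm₀
    have hcard : (uᶜ).card = n - u.card := by rw [card_compl, Fintype.card_fin]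
    have hup : 0 < u.card := card_pos.2 ⟨m₀, hm₀⟩
    have hle : k - (u.card - 1) ≤ (uᶜ).card := by omega
    obtain ⟨T, hT2, hT3⟩ := exists_subset_card_eq hle
    have hd : Disjoint (u.erase m₀) T := by
      rw [Finset.disjoint_left]
      intro m hm hm'
      exact (mem_compl.1 (hT2 hm')) (mem_of_mem_erase hm)
    have hcd : ((u.erase m₀) ∪ T).card = k := by
      rw [card_union_of_disjoint hd, hT3, card_erase_of_mem hm₀]; omega
    have hn₀ : m₀ ∉ (u.erase m₀) ∪ T := by
      rw [mem_union, not_or]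
      exact ⟨fun h => (mem_erase.1 h).1 rfl, fun h => (mem_compl.1 (hT2 h)) hm₀⟩
    have hv := hc ⟨_, hcd⟩
    rw [Finset.sum_eq_single m₀] at hv
    · exact (mul_eq_zero.1 hv).resolve_right (hg2 ⟨_, hcd⟩ m₀ hm₀ hn₀).ne'
    · intro m _ hm
      by_cases hmu : m ∈ u
      · rw [hg0 ⟨_, hcd⟩ m, mul_zero]
        exact ⟨fun _ => mem_union_left _ (mem_erase.2 ⟨hm, hmu⟩), fun _ => hmu⟩
      · rw [hout m hmu, zero_mul]
    · intro h; exact absurd (mem_univ _) h
  ext m
  by_cases hm : m ∈ u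
  · simpa using hin m hm
  · simpa using hout m hm

end Pool.Agent.CB
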