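import Pool.Agent.CB.Stm

/-! Project CB, piece SUR (helper61): triangular vectors. -/

set_option autoImplicit false

namespace Pool.Agent.CB

open Finset Module

namespace SUR

theorem exS {n k : ℕ} (X Y : Finset (Fin n)) (hd : Disjoint X Y) (h1 : X.card ≤ k)
    (h2 : k + Y.card ≤ n) : ∃ S : Sub k n, X ⊆ S.1 ∧ ∀ m ∈ Y, m ∉ S.1 := by
  obtain ⟨u, hu1, hu2, hu3⟩ := Finset.exists_subsuperset_card_eq (s := X) (t := Yᶜ) (n := k)
    (fun x hx => by
      rw [Finset.mem_compl]
      exact fun hy => (Finset.disjoint_left.1 hd) hx hy) h1 (by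
      rw [Finset.card_compl, Fintype.card_fin]
      omega)
  exact ⟨⟨u, hu3⟩, hu1, fun m hm hmu => (Finset.mem_compl.1 (hu2 hmu)) hm⟩

variable {V : Type} [AddCommGroup V] [Module ℚ V] {k n : ℕ} {a b : Fin n → V →ₗ[ℚ] ℚ}
  {α β : Fin n → ℚ} {P : Sub k n → V}

theorem stepA (hs : Sign P a b α β) {A B : Finset (Fin n)} {m : Fin n} (hd : Disjoint A B)
    (hA : m ∉ A) (hB : m ∉ B) (h1 : B.card + 1 ≤ k) (h2 : A.card + 1 + k ≤ n)
    (h : Sur (⊤ : Submodule ℚ V) a b A B) : Sur (⊤ : Submodule ℚ V) a b (insert m A) B := by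
  obtain ⟨S1, hS1, hS1'⟩ := exS (k := k) B (insert m A) (by
    rw [Finset.disjoint_insert_right]
    exact ⟨hB, hd.symm⟩) (by omega) (by rw [Finset.card_insert_of_notMem hA]; omega)
  obtain ⟨S2, hS2, hS2'⟩ := exS (k := k) (insert m B) A (by
    rw [Finset.disjoint_insert_left]
    exact ⟨hA, hd.symm⟩) (by rw [Finset.card_insert_of_notMem hB]; omega) (by omega)
  set u₀ := P S2 - P S1 with hu0
  have ha0 : ∀ x ∈ A, a x u₀ = 0 := fun x hx => by
    have e1 := (hs S1 x).1 (hS1' x (Finset.mem_insert_of_mem hx))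
    have e2 := (hs S2 x).1 (hS2' x hx)
    rw [hu0, map_sub]
    linarith
  have hb0 : ∀ x ∈ B, b x u₀ = 0 := fun x hx => by
    have e1 := (hs S1 x).2.2.1 (hS1 hx)
    have e2 := (hs S2 x).2.2.1 (hS2 (Finset.mem_insert_of_mem hx))
    rw [hu0, map_sub]
    linarith
  have hm0 : a m u₀ ≠ 0 := by
    have e1 := (hs S1 m).1 (hS1' m (Finset.mem_insert_self m A))
    have e2 := (hs S2 m).2.1 (hS2 (Finset.mem_insert_self m B))
    rw [hu0, map_sub]
    intro h0
    linarith
  intro f g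
  obtain ⟨u, -, hu1, hu2⟩ := h f g
  refine ⟨u + ((f m - a m u) / a m u₀) • u₀, Submodule.mem_top, fun x hx => ?_, fun x hx => ?_⟩
  · rw [map_add, map_smul, smul_eq_mul]
    rcases Finset.mem_insert.1 hx with rfl | hx
    · rw [div_mul_cancel₀ _ hm0]
      ring
    · rw [ha0 x hx, hu1 x hx]
      ring
  · rw [map_add, map_smul, smul_eq_mul, hb0 x hx, hu2 x hx]
    ring

theorem stepB (hs : Sign P a b α β) {A B : Finset (Fin n)} {m : Fin n} (hd : Disjoint A B)
    (hA : m ∉ A) (hB : m ∉ B) (h1 : B.card + 1 ≤ k) (h2 : A.card + 1 + k ≤ n)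
    (h : Sur (⊤ : Submodule ℚ V) a b A B) : Sur (⊤ : Submodule ℚ V) a b A (insert m B) := by
  obtain ⟨S1, hS1, hS1'⟩ := exS (k := k) B (insert m A) (by
    rw [Finset.disjoint_insert_right]
    exact ⟨hB, hd.symm⟩) (by omega) (by rw [Finset.card_insert_of_notMem hA]; omega)
  obtain ⟨S2, hS2, hS2'⟩ := exS (k := k) (insert m B) A (by
    rw [Finset.disjoint_insert_left]
    exact ⟨hA, hd.symm⟩) (by rw [Finset.card_insert_of_notMem hB]; omega) (by omega)
  set u₀ := P S2 - P S1 with hu0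
  have ha0 : ∀ x ∈ A, a x u₀ = 0 := fun x hx => by
    have e1 := (hs S1 x).1 (hS1' x (Finset.mem_insert_of_mem hx))
    have e2 := (hs S2 x).1 (hS2' x hx)
    rw [hu0, map_sub]
    linarith
  have hb0 : ∀ x ∈ B, b x u₀ = 0 := fun x hx => by
    have e1 := (hs S1 x).2.2.1 (hS1 hx)
    have e2 := (hs S2 x).2.2.1 (hS2 (Finset.mem_insert_of_mem hx))
    rw [hu0, map_sub]
    linarith
  have hm0 : b m u₀ ≠ 0 := by
    have e1 := (hs S1 m).2.2.2 (hS1' m (Finset.mem_insert_self m A))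
    have e2 := (hs S2 m).2.2.1 (hS2 (Finset.mem_insert_self m B))
    rw [hu0, map_sub]
    intro h0
    linarith
  intro f g
  obtain ⟨u, -, hu1, hu2⟩ := h f g
  refine ⟨u + ((g m - b m u) / b m u₀) • u₀, Submodule.mem_top, fun x hx => ?_, fun x hx => ?_⟩
  · rw [map_add, map_smul, smul_eq_mul, ha0 x hx, hu1 x hx]
    ring
  · rw [map_add, map_smul, smul_eq_mul]
    rcases Finset.mem_insert.1 hx with rfl | hx
    · rw [div_mul_cancel₀ _ hm0]
      ring
    · rw [hb0 x hx, hu2 x hx]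
      ring

theorem addA (hs : Sign P a b α β) (A B : Finset (Fin n)) (hd : Disjoint A B)
    (h1 : B.card + 1 ≤ k) (h2 : A.card + k ≤ n)
    (h : Sur (⊤ : Submodule ℚ V) a b ∅ B) : Sur (⊤ : Submodule ℚ V) a b A B := by
  induction A using Finset.induction_on with
  | empty => exact h
  | insert m A hm ih =>
    rw [Finset.card_insert_of_notMem hm] at h2
    rw [Finset.disjoint_insert_left] at hd
    exact stepA hs hd.2 hm hd.1 h1 (by omega) (ih hd.2 (by omega))

theorem addB (hs : Sign P a b α β) (A B : Finset (Fin n)) (hd : Disjoint A B)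
    (h1 : B.card ≤ k) (h2 : A.card + 1 + k ≤ n)
    (h : Sur (⊤ : Submodule ℚ V) a b A ∅) : Sur (⊤ : Submodule ℚ V) a b A B := by
  induction B using Finset.induction_on with
  | empty => exact h
  | insert m B hm ih =>
    rw [Finset.card_insert_of_notMem hm] at h1
    rw [Finset.disjoint_insert_right] at hd
    exact stepB hs hd.2 hd.1 hm h1 h2 (ih hd.2 (by omega))

theorem start : Sur (⊤ : Submodule ℚ V) a b ∅ ∅ := fun _ _ =>
  ⟨0, Submodule.mem_top, fun _ h => absurd h (Finset.notMem_empty _),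
    fun _ h => absurd h (Finset.notMem_empty _)⟩

end SUR

theorem t_SUR : S_SUR := by
  intro V _ _ k n a b α β P hk hkn hs A B hd hAB hA hB
  by_cases hBk : B.card < k
  · exact SUR.addA hs A B hd hBk (by omega) (SUR.addB hs ∅ B (Finset.disjoint_empty_left _) hB
      (by rw [Finset.card_empty]; omega) SUR.start)
  · exact SUR.addB hs A B hd hB (by omega) (SUR.addA hs A ∅ (Finset.disjoint_empty_right _)
      (by rw [Finset.card_empty]; omega) (by omega) SUR.start)

end Pool.Agent.CB
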