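import Pool.Agent.CB.Stm

set_option autoImplicit false

namespace Pool.Agent.CB

open Finset Module

namespace SWP

theorem key {V : Type} [AddCommGroup V] [Module ℚ V] {ι : Type} [Fintype ι] [DecidableEq ι]
    (U : Submodule ℚ V) (a b : ι → V →ₗ[ℚ] ℚ) (N : Finset ι) (r s i : ℕ)
    (w : Finset ι × Finset ι → ℚ) (hw : w ∈ W U a b N r s i) :
    (fun p : Finset ι × Finset ι => w (p.2, p.1)) ∈ W U b a N s r i := by
  obtain ⟨h1, h2⟩ := hw
  refine ⟨fun A B h => ?_, fun A B hA hB hd hc u hu ha hb => ?_⟩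
  · obtain ⟨e1, e2, e3, e4, e5, e6⟩ := h1 B A h
    exact ⟨e2, e1, e3.symm, e5, e4, by omega⟩
  · have h := h2 B A hB hA hd.symm (by omega) u hu hb ha
    rw [← h, Finset.union_comm B A]
    refine Finset.sum_congr rfl fun m _ => ?_
    exact add_comm _ _

theorem sur {V : Type} [AddCommGroup V] [Module ℚ V] {ι : Type}
    (U : Submodule ℚ V) (a b : ι → V →ₗ[ℚ] ℚ) (A B : Finset ι) (h : Sur U a b A B) :
    Sur U b a B A := by
  intro f g
  obtain ⟨u, hu, h1, h2⟩ := h g f
  exact ⟨u, hu, h2, h1⟩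

end SWP

theorem t_SWP : S_SWP := by
  intro V _ _ ι _ _ U a b N r s i
  refine ⟨?_, fun h A B hA hB hd hc hs hr => ?_⟩
  · let e : (Finset ι × Finset ι → ℚ) ≃ₗ[ℚ] (Finset ι × Finset ι → ℚ) :=
      LinearEquiv.funCongrLeft ℚ ℚ (Equiv.prodComm (Finset ι) (Finset ι))
    have he : ∀ w : Finset ι × Finset ι → ℚ, e w = fun p => w (p.2, p.1) := fun w => rfl
    have hm : (W U a b N r s i).map (e : (Finset ι × Finset ι → ℚ) →ₗ[ℚ] _) = W U b a N s r i := by
      apply le_antisymm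
      · rintro _ ⟨w, hw, rfl⟩
        exact SWP.key U a b N r s i w hw
      · intro w hw
        refine ⟨fun p => w (p.2, p.1), SWP.key U b a N s r i w hw, ?_⟩
        rfl
    rw [← hm]
    exact (LinearEquiv.finrank_map_eq e _).symm
  · exact SWP.sur U a b B A (h B A hB hA hd.symm (by omega) hr hs)

end Pool.Agent.CB
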