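import Pool.Agent.CB.Stm

set_option autoImplicit false

namespace Pool.Agent.CB

namespace TOT

open Finset Module

section fac

variable (ι : Type) [Fintype ι] [DecidableEq ι]

/-- the facets -/
def Fac (r s : ℕ) : Finset (Finset ι × Finset ι) :=
  univ.filter fun σ => Disjoint σ.1 σ.2 ∧ σ.1.card = s ∧ σ.2.card = r

theorem card_Fac (r s : ℕ) (h : r + s + 1 = Fintype.card ι) :
    (Fac ι r s).card = Fintype.card ι * (Fintype.card ι - 1).choose r := by
  have h1 : ((univ : Finset ι).sigma fun m : ι => (univ.erase m).powersetCard r).card =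
      Fintype.card ι * (Fintype.card ι - 1).choose r := by
    rw [Finset.card_sigma, Finset.sum_congr rfl fun m _ => by
      rw [Finset.card_powersetCard, Finset.card_erase_of_mem (mem_univ m), Finset.card_univ],
      Finset.sum_const, Finset.card_univ, smul_eq_mul]
  rw [← h1]
  symm
  refine Finset.card_bij (fun p _ => ((univ.erase p.1) \ p.2, p.2)) ?_ ?_ ?_
  · rintro ⟨m, B⟩ hp
    obtain ⟨_, hp⟩ := Finset.mem_sigma.1 hp
    obtain ⟨hB, hc⟩ := Finset.mem_powersetCard.1 hp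
    refine Finset.mem_filter.2 ⟨mem_univ _, Finset.sdiff_disjoint, ?_, hc⟩
    show ((univ.erase m) \ B).card = s
    rw [Finset.card_sdiff_of_subset hB, hc, Finset.card_erase_of_mem (mem_univ m), Finset.card_univ]
    omega
  · rintro ⟨m, B⟩ hp ⟨m', B'⟩ hp' heq
    obtain ⟨_, hp⟩ := Finset.mem_sigma.1 hp
    obtain ⟨hB, hc⟩ := Finset.mem_powersetCard.1 hp
    have h2 : (univ.erase m) \ B = (univ.erase m') \ B' := congrArg Prod.fst heq
    have h3 : B = B' := congrArg Prod.snd heq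
    subst h3
    have h4 : m ∉ (univ.erase m') \ B := by
      rw [← h2]
      simp
    have h5 : m ∉ B := fun hm => Finset.notMem_erase m _ (hB hm)
    have h6 : m = m' := by
      by_contra hne
      exact h4 (by simp [hne, h5])
    subst h6
    rfl
  · rintro ⟨A, B⟩ hσ
    obtain ⟨_, hd, hA, hB⟩ := Finset.mem_filter.1 hσ
    have hd : Disjoint A B := hd
    have hA : A.card = s := hA
    have hB : B.card = r := hB
    have h2 : (univ \ (A ∪ B)).card = 1 := by
      rw [Finset.card_sdiff_of_subset (Finset.subset_univ _), Finset.card_univ, Finset.card_union_of_disjoint hd]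
      omega
    obtain ⟨m, hm⟩ := Finset.card_eq_one.1 h2
    have hm1 : ∀ x, x ∈ univ \ (A ∪ B) ↔ x = m := fun x => by rw [hm, Finset.mem_singleton]
    have hm2 : ∀ x, (x ∉ A ∧ x ∉ B) ↔ x = m := fun x => by
      rw [← hm1 x]
      simp
    refine ⟨⟨m, B⟩, ?_, ?_⟩
    · refine Finset.mem_sigma.2 ⟨mem_univ _, Finset.mem_powersetCard.2 ⟨fun x hx => ?_, hB⟩⟩
      refine Finset.mem_erase.2 ⟨fun hxm => ((hm2 x).2 hxm).2 hx, mem_univ _⟩
    · have h3 : (univ.erase m) \ B = A := by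
        ext x
        simp only [Finset.mem_sdiff, Finset.mem_erase, Finset.mem_univ, and_true]
        constructor
        · rintro ⟨hx, hxB⟩
          by_contra hxA
          exact hx ((hm2 x).1 ⟨hxA, hxB⟩)
        · intro hx
          exact ⟨fun hxm => ((hm2 x).2 hxm).1 hx, fun hxB => Finset.disjoint_left.1 hd hx hxB⟩
      simp only [h3]

end fac

variable {ι : Type} [Fintype ι] [DecidableEq ι] {V : Type} [AddCommGroup V] [Module ℚ V]

/-- the exponential functions -/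
noncomputable def psi (x y : ι → ℚ) (p : (ι → ℕ) × (ι → ℕ)) : ℚ := ∏ m, x m ^ p.1 m * y m ^ p.2 m

theorem prod_single (x : ι → ℚ) (m : ι) : ∏ i, x i ^ (Pi.single m 1 : ι → ℕ) i = x m := by
  rw [Finset.prod_eq_single m]
  · rw [Pi.single_eq_same, pow_one]
  · intro i _ hi
    rw [Pi.single_eq_of_ne hi, pow_zero]
  · intro h
    exact absurd (mem_univ m) h

theorem psi_left (x y : ι → ℚ) (e f : ι → ℕ) (m : ι) :
    psi x y (e + Pi.single m 1, f) = x m * psi x y (e, f) := by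
  unfold psi
  rw [← prod_single x m, ← Finset.prod_mul_distrib]
  refine Finset.prod_congr rfl fun i _ => ?_
  simp only [Pi.add_apply, pow_add]
  ring

theorem psi_right (x y : ι → ℚ) (e f : ι → ℕ) (m : ι) :
    psi x y (e, f + Pi.single m 1) = y m * psi x y (e, f) := by
  unfold psi
  rw [← prod_single y m, ← Finset.prod_mul_distrib]
  refine Finset.prod_congr rfl fun i _ => ?_
  simp only [Pi.add_apply, pow_add]
  ring

/-- the dual bases -/
theorem coord (a b : ι → V →ₗ[ℚ] ℚ) (r s : ℕ) [FiniteDimensional ℚ V] (hV : finrank ℚ V = r + s)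
    (A B : Finset ι) (hA : A.card = s) (hB : B.card = r) (h : Sur ⊤ a b A B) :
    ∃ (u v : ι → V), (∀ m ∈ A, u m ≠ 0) ∧ (∀ m ∈ B, v m ≠ 0) ∧ ∀ (ε : V →ₗ[ℚ] ℚ) (w : V),
      ε w = ∑ m ∈ A, a m w * ε (u m) + ∑ m ∈ B, b m w * ε (v m) := by
  choose u hu1 hu2 hu3 using fun m : ι => h (fun i => if i = m then 1 else 0) (fun _ => 0)
  choose v hv1 hv2 hv3 using fun m : ι => h (fun _ => 0) (fun i => if i = m then 1 else 0)
  refine ⟨u, v, fun m hm h0 => ?_, fun m hm h0 => ?_, fun ε w => ?_⟩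
  · have h1 := hu2 m m hm
    rw [h0, map_zero, if_pos rfl] at h1
    exact zero_ne_one h1
  · have h1 := hv3 m m hm
    rw [h0, map_zero, if_pos rfl] at h1
    exact zero_ne_one h1
  · set Φ : V →ₗ[ℚ] (A → ℚ) × (B → ℚ) :=
      (LinearMap.pi fun m : A => a m.1).prod (LinearMap.pi fun m : B => b m.1) with hΦ
    have hfr : finrank ℚ V = finrank ℚ ((A → ℚ) × (B → ℚ)) := by
      rw [Module.finrank_prod, Module.finrank_fintype_fun_eq_card, Module.finrank_fintype_fun_eq_card,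
        Fintype.card_coe, Fintype.card_coe, hV, hA, hB, add_comm]
    have hsurj : Function.Surjective Φ := by
      rintro ⟨f, g⟩
      obtain ⟨w, _, hw1, hw2⟩ := h (fun i => if hi : i ∈ A then f ⟨i, hi⟩ else 0)
        (fun i => if hi : i ∈ B then g ⟨i, hi⟩ else 0)
      refine ⟨w, Prod.ext (funext fun i => ?_) (funext fun i => ?_)⟩
      · have := hw1 i.1 i.2
        rw [dif_pos i.2] at this
        exact this
      · have := hw2 i.1 i.2
        rw [dif_pos i.2] at this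
        exact this
    have hinj : Function.Injective Φ := (LinearMap.injective_iff_surjective_of_finrank_eq_finrank hfr).2 hsurj
    have hw : w = ∑ m ∈ A, a m w • u m + ∑ m ∈ B, b m w • v m := by
      apply hinj
      refine Prod.ext (funext fun i => ?_) (funext fun i => ?_)
      · show a i.1 w = a i.1 (∑ m ∈ A, a m w • u m + ∑ m ∈ B, b m w • v m)
        rw [map_add, map_sum, map_sum, Finset.sum_eq_single_of_mem i.1 i.2, Finset.sum_eq_zero]
        · rw [map_smul, hu2 i.1 i.1 i.2, if_pos rfl, smul_eq_mul, mul_one, add_zero]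
        · intro m _
          rw [map_smul, hv2 m i.1 i.2, smul_zero]
        · intro m _ hm
          rw [map_smul, hu2 m i.1 i.2, if_neg (Ne.symm hm), smul_zero]
      · show b i.1 w = b i.1 (∑ m ∈ A, a m w • u m + ∑ m ∈ B, b m w • v m)
        rw [map_add, map_sum, map_sum, Finset.sum_eq_zero, Finset.sum_eq_single_of_mem i.1 i.2]
        · rw [map_smul, hv3 i.1 i.1 i.2, if_pos rfl, smul_eq_mul, mul_one, zero_add]
        · intro m _ hm
          rw [map_smul, hv3 m i.1 i.2, if_neg (Ne.symm hm), smul_zero]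
        · intro m _
          rw [map_smul, hu3 m i.1 i.2, smul_zero]
    conv_lhs => rw [hw]
    rw [map_add, map_sum, map_sum]
    simp only [map_smul, smul_eq_mul]

/-- the generic functional -/
theorem generic (a b : ι → V →ₗ[ℚ] ℚ) (r s : ℕ) [FiniteDimensional ℚ V] (hV : finrank ℚ V = r + s)
    (h : ∀ A B : Finset ι, Disjoint A B → A.card = s → B.card = r → Sur ⊤ a b A B) :
    ∃ (ε : V →ₗ[ℚ] ℚ) (x y : Finset ι × Finset ι → ι → ℚ), ∀ σ ∈ Fac ι r s,
      (∀ m, x σ m ≠ 0 ↔ m ∈ σ.1) ∧ (∀ m, y σ m ≠ 0 ↔ m ∈ σ.2) ∧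
        ∀ w, ε w = ∑ m, (a m w * x σ m + b m w * y σ m) := by
  have h1 : ∀ σ : Finset ι × Finset ι, ∃ (u v : ι → V), σ ∈ Fac ι r s → (∀ m ∈ σ.1, u m ≠ 0) ∧
      (∀ m ∈ σ.2, v m ≠ 0) ∧ ∀ (ε : V →ₗ[ℚ] ℚ) (w : V),
      ε w = ∑ m ∈ σ.1, a m w * ε (u m) + ∑ m ∈ σ.2, b m w * ε (v m) := by
    intro σ
    by_cases hσ : σ ∈ Fac ι r s
    · obtain ⟨_, hd, hA, hB⟩ := Finset.mem_filter.1 hσ
      obtain ⟨u, v, huv⟩ := coord a b r s hV σ.1 σ.2 hA hB (h _ _ hd hA hB)
      exact ⟨u, v, fun _ => huv⟩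
    · exact ⟨fun _ => 0, fun _ => 0, fun h2 => absurd h2 hσ⟩
  choose u v huv using h1
  obtain ⟨ε, hε⟩ := Module.exists_dual_forall_apply_ne_zero (K := ℚ)
    (ι := {p : (Finset ι × Finset ι) × ι // p.1 ∈ Fac ι r s ∧ p.2 ∈ p.1.1} ⊕
      {p : (Finset ι × Finset ι) × ι // p.1 ∈ Fac ι r s ∧ p.2 ∈ p.1.2})
    (Sum.elim (fun p => u p.1.1 p.1.2) (fun p => v p.1.1 p.1.2)) (by
      rintro (p | p)
      · exact (huv p.1.1 p.2.1).1 _ p.2.2
      · exact (huv p.1.1 p.2.1).2.1 _ p.2.2)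
  refine ⟨ε, fun σ m => if m ∈ σ.1 then ε (u σ m) else 0, fun σ m => if m ∈ σ.2 then ε (v σ m) else 0,
    fun σ hσ => ⟨fun m => ?_, fun m => ?_, fun w => ?_⟩⟩
  · constructor
    · intro h2
      by_contra h3
      exact h2 (if_neg h3)
    · intro h2
      beta_reduce
      rw [if_pos h2]
      exact hε (Sum.inl ⟨(σ, m), hσ, h2⟩)
  · constructor
    · intro h2
      by_contra h3
      exact h2 (if_neg h3)
    · intro h2
      beta_reduce
      rw [if_pos h2]
      exact hε (Sum.inr ⟨(σ, m), hσ, h2⟩)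
  · rw [(huv σ hσ).2.2 ε w, Finset.sum_add_distrib]
    congr 1
    · rw [← Finset.sum_filter_add_sum_filter_not univ (fun m => m ∈ σ.1), Finset.sum_eq_zero (s := univ.filter fun m => ¬ m ∈ σ.1),
        add_zero]
      · rw [Finset.filter_mem_eq_inter, Finset.univ_inter]
        exact Finset.sum_congr rfl fun m hm => by
          beta_reduce
          rw [if_pos hm]
      · intro m hm
        beta_reduce
        rw [if_neg (Finset.mem_filter.1 hm).2, mul_zero]
    · rw [← Finset.sum_filter_add_sum_filter_not univ (fun m => m ∈ σ.2), Finset.sum_eq_zero (s := univ.filter fun m => ¬ m ∈ σ.2),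
        add_zero]
      · rw [Finset.filter_mem_eq_inter, Finset.univ_inter]
        exact Finset.sum_congr rfl fun m hm => by
          beta_reduce
          rw [if_pos hm]
      · intro m hm
        beta_reduce
        rw [if_neg (Finset.mem_filter.1 hm).2, mul_zero]

theorem psi_ne (x y : ι → ℚ) (e f : ι → ℕ) :
    psi x y (e, f) ≠ 0 ↔ ∀ m, (e m ≠ 0 → x m ≠ 0) ∧ (f m ≠ 0 → y m ≠ 0) := by
  unfold psi
  rw [Finset.prod_ne_zero_iff]
  have h1 : ∀ (z : ℚ) (k : ℕ), z ^ k ≠ 0 ↔ (k ≠ 0 → z ≠ 0) := by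
    intro z k
    by_cases hk : k = 0
    · subst hk
      simp
    · rw [pow_ne_zero_iff hk]
      exact ⟨fun h _ => h, fun h => h hk⟩
  constructor
  · intro h m
    have h2 := mul_ne_zero_iff.1 (h m (mem_univ m))
    exact ⟨(h1 _ _).1 h2.1, (h1 _ _).1 h2.2⟩
  · intro h m _
    exact mul_ne_zero ((h1 _ _).2 (h m).1) ((h1 _ _).2 (h m).2)

/-- the combinations of the exponential functions -/
noncomputable def TT (r s : ℕ) (x y : Finset ι × Finset ι → ι → ℚ) :
    (Fac ι r s → ℚ) →ₗ[ℚ] ((ι → ℕ) × (ι → ℕ) → ℚ) where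
  toFun c p := ∑ σ : Fac ι r s, c σ * psi (x σ.1) (y σ.1) p
  map_add' c c' := by
    funext p
    simp only [Pi.add_apply, add_mul, Finset.sum_add_distrib]
  map_smul' t c := by
    funext p
    simp only [Pi.smul_apply, smul_eq_mul, RingHom.id_apply, Finset.mul_sum, mul_assoc]

theorem TT_apply (r s : ℕ) (x y : Finset ι × Finset ι → ι → ℚ) (c : Fac ι r s → ℚ) (p : (ι → ℕ) × (ι → ℕ)) :
    TT r s x y c p = ∑ σ : Fac ι r s, c σ * psi (x σ.1) (y σ.1) p := rfl

theorem TT_rel (r s : ℕ) (x y : Finset ι × Finset ι → ι → ℚ) (a b : ι → V →ₗ[ℚ] ℚ) (ε : V →ₗ[ℚ] ℚ)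
    (h : ∀ σ ∈ Fac ι r s, ∀ w, ε w = ∑ m, (a m w * x σ m + b m w * y σ m)) (c : Fac ι r s → ℚ)
    (e f : ι → ℕ) (u : V) :
    ∑ m, (a m u * TT r s x y c (e + Pi.single m 1, f) + b m u * TT r s x y c (e, f + Pi.single m 1)) =
      ε u * TT r s x y c (e, f) := by
  have h1 : ∀ m, a m u * TT r s x y c (e + Pi.single m 1, f) + b m u * TT r s x y c (e, f + Pi.single m 1) =
      ∑ σ : Fac ι r s, c σ * psi (x σ.1) (y σ.1) (e, f) * (a m u * x σ.1 m + b m u * y σ.1 m) := by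
    intro m
    rw [TT_apply, TT_apply, Finset.mul_sum, Finset.mul_sum, ← Finset.sum_add_distrib]
    refine Finset.sum_congr rfl fun σ _ => ?_
    rw [psi_left, psi_right]
    ring
  rw [Finset.sum_congr rfl fun m _ => h1 m, Finset.sum_comm, TT_apply, Finset.mul_sum]
  refine Finset.sum_congr rfl fun σ _ => ?_
  rw [← Finset.mul_sum, ← h σ.1 σ.2 u]
  ring

/-- the degree -/
def deg (p : (ι → ℕ) × (ι → ℕ)) : ℕ := ∑ m, p.1 m + ∑ m, p.2 m

theorem deg_left (e f : ι → ℕ) (m : ι) : deg (e + Pi.single m 1, f) = deg (e, f) + 1 := by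
  unfold deg
  have h1 : ∑ i, (Pi.single m 1 : ι → ℕ) i = 1 := by
    rw [Finset.sum_pi_single' m 1 univ, if_pos (mem_univ m)]
  simp only [Pi.add_apply, Finset.sum_add_distrib]
  rw [h1]
  omega

theorem deg_right (e f : ι → ℕ) (m : ι) : deg (e, f + Pi.single m 1) = deg (e, f) + 1 := by
  unfold deg
  have h1 : ∑ i, (Pi.single m 1 : ι → ℕ) i = 1 := by
    rw [Finset.sum_pi_single' m 1 univ, if_pos (mem_univ m)]
  simp only [Pi.add_apply, Finset.sum_add_distrib]
  rw [h1]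
  omega

/-- the filtration -/
noncomputable def G (r s : ℕ) (x y : Finset ι × Finset ι → ι → ℚ) (l : ℕ) : Submodule ℚ (Fac ι r s → ℚ) where
  carrier := {c | ∀ p, deg p < l → TT r s x y c p = 0}
  add_mem' := fun {c c'} h h' p hp => by
    rw [map_add, Pi.add_apply, h p hp, h' p hp, add_zero]
  zero_mem' := fun p _ => by rw [map_zero, Pi.zero_apply]
  smul_mem' := fun t c h p hp => by
    rw [map_smul, Pi.smul_apply, h p hp, smul_zero]

/-- the part of degree `l` -/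
noncomputable def tr (l : ℕ) : ((ι → ℕ) × (ι → ℕ) → ℚ) →ₗ[ℚ] ((ι → ℕ) × (ι → ℕ) → ℚ) where
  toFun φ p := if deg p = l then φ p else 0
  map_add' φ φ' := by
    funext p
    by_cases h : deg p = l <;> simp [h]
  map_smul' t φ := by
    funext p
    by_cases h : deg p = l <;> simp [h]

theorem tr_apply (l : ℕ) (φ : (ι → ℕ) × (ι → ℕ) → ℚ) (p : (ι → ℕ) × (ι → ℕ)) :
    tr l φ p = if deg p = l then φ p else 0 := rfl

theorem mem_R (r s : ℕ) (x y : Finset ι × Finset ι → ι → ℚ) (a b : ι → V →ₗ[ℚ] ℚ) (ε : V →ₗ[ℚ] ℚ)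
    (h : ∀ σ ∈ Fac ι r s, (∀ m, x σ m ≠ 0 ↔ m ∈ σ.1) ∧ (∀ m, y σ m ≠ 0 ↔ m ∈ σ.2) ∧
      ∀ w, ε w = ∑ m, (a m w * x σ m + b m w * y σ m)) (l : ℕ) (c : Fac ι r s → ℚ) (hc : c ∈ G r s x y l) :
    tr l (TT r s x y c) ∈ R ⊤ a b r s l := by
  refine ⟨fun e f hne => ?_, fun e f u _ => ?_⟩
  · rw [tr_apply] at hne
    by_cases hd : deg (e, f) = l
    · rw [if_pos hd, TT_apply] at hne
      obtain ⟨σ, _, hσ⟩ := Finset.exists_ne_zero_of_sum_ne_zero hne
      have h1 := (psi_ne _ _ _ _).1 (right_ne_zero_of_mul hσ)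
      obtain ⟨hx, hy, _⟩ := h σ.1 σ.2
      obtain ⟨_, hdj, hA, hB⟩ := Finset.mem_filter.1 σ.2
      refine ⟨fun m => ?_, ?_, ?_, hd⟩
      · by_contra hcon
        push_neg at hcon
        exact Finset.disjoint_left.1 hdj ((hx m).1 ((h1 m).1 hcon.1)) ((hy m).1 ((h1 m).2 hcon.2))
      · rw [← hA]
        refine Finset.card_le_card fun m hm => (hx m).1 ((h1 m).1 (Finset.mem_filter.1 hm).2)
      · rw [← hB]
        refine Finset.card_le_card fun m hm => (hy m).1 ((h1 m).2 (Finset.mem_filter.1 hm).2)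
    · exact absurd (if_neg hd) hne
  · by_cases hd : deg (e, f) + 1 = l
    · have h1 := TT_rel r s x y a b ε (fun σ hσ => (h σ hσ).2.2) c e f u
      rw [hc (e, f) (by omega), mul_zero] at h1
      rw [← h1]
      refine Finset.sum_congr rfl fun m _ => ?_
      rw [tr_apply, tr_apply, deg_left, deg_right, if_pos hd, if_pos hd]
    · refine Finset.sum_eq_zero fun m _ => ?_
      rw [tr_apply, tr_apply, deg_left, deg_right, if_neg hd, if_neg hd, mul_zero, mul_zero, add_zero]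

theorem step (r s : ℕ) (x y : Finset ι × Finset ι → ι → ℚ) (a b : ι → V →ₗ[ℚ] ℚ) (ε : V →ₗ[ℚ] ℚ)
    (h : ∀ σ ∈ Fac ι r s, (∀ m, x σ m ≠ 0 ↔ m ∈ σ.1) ∧ (∀ m, y σ m ≠ 0 ↔ m ∈ σ.2) ∧
      ∀ w, ε w = ∑ m, (a m w * x σ m + b m w * y σ m)) (l : ℕ) [FiniteDimensional ℚ (R ⊤ a b r s l)] :
    finrank ℚ (G r s x y l) ≤ finrank ℚ (R ⊤ a b r s l) + finrank ℚ (G r s x y (l + 1)) := by
  set F : G r s x y l →ₗ[ℚ] R ⊤ a b r s l := LinearMap.codRestrict (R ⊤ a b r s l)
    (((tr l).comp (TT r s x y)).comp (G r s x y l).subtype)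
    (fun c => mem_R r s x y a b ε h l c.1 c.2) with hF
  have h1 := LinearMap.finrank_range_add_finrank_ker F
  have h2 : finrank ℚ (LinearMap.range F) ≤ finrank ℚ (R ⊤ a b r s l) := Submodule.finrank_le _
  have h3 : finrank ℚ (LinearMap.ker F) ≤ finrank ℚ (G r s x y (l + 1)) := by
    rw [← Submodule.finrank_map_subtype_eq (G r s x y l) (LinearMap.ker F)]
    refine Submodule.finrank_mono ?_
    rintro _ ⟨c, hc, rfl⟩
    intro p hp
    have h4 : F c = 0 := hc
    by_cases h5 : deg p < l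
    · exact c.2 p h5
    · have h6 : deg p = l := by omega
      have h7 : tr l (TT r s x y c.1) = 0 := congrArg Subtype.val h4
      have h8 := congrFun h7 p
      rw [tr_apply, if_pos h6] at h8
      exact h8
  omega

theorem G_top (r s : ℕ) (x y : Finset ι × Finset ι → ι → ℚ)
    (h : ∀ σ ∈ Fac ι r s, (∀ m, x σ m ≠ 0 ↔ m ∈ σ.1) ∧ (∀ m, y σ m ≠ 0 ↔ m ∈ σ.2)) :
    G r s x y (r + s + 1) = ⊥ := by
  rw [eq_bot_iff]
  intro c hc
  rw [Submodule.mem_bot]
  funext σ
  obtain ⟨_, hdj, hA, hB⟩ := Finset.mem_filter.1 σ.2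
  set e : ι → ℕ := fun m => if m ∈ σ.1.1 then 1 else 0 with he
  set f : ι → ℕ := fun m => if m ∈ σ.1.2 then 1 else 0 with hf
  have hne : ∀ τ : Fac ι r s, psi (x τ.1) (y τ.1) (e, f) ≠ 0 ↔ τ = σ := by
    intro τ
    obtain ⟨_, hdj', hA', hB'⟩ := Finset.mem_filter.1 τ.2
    rw [psi_ne]
    have h1 : ∀ m, (e m ≠ 0 ↔ m ∈ σ.1.1) ∧ (f m ≠ 0 ↔ m ∈ σ.1.2) := fun m => by
      simp [he, hf]
    constructor
    · intro h2
      have h3 : σ.1.1 ⊆ τ.1.1 := fun m hm => ((h τ.1 τ.2).1 m).1 ((h2 m).1 ((h1 m).1.2 hm))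
      have h4 : σ.1.2 ⊆ τ.1.2 := fun m hm => ((h τ.1 τ.2).2 m).1 ((h2 m).2 ((h1 m).2.2 hm))
      have h5 : σ.1.1 = τ.1.1 := Finset.eq_of_subset_of_card_le h3 (by rw [hA, hA'])
      have h6 : σ.1.2 = τ.1.2 := Finset.eq_of_subset_of_card_le h4 (by rw [hB, hB'])
      exact Subtype.ext (Prod.ext h5.symm h6.symm)
    · rintro rfl m
      exact ⟨fun h2 => ((h τ.1 τ.2).1 m).2 ((h1 m).1.1 h2), fun h2 => ((h τ.1 τ.2).2 m).2 ((h1 m).2.1 h2)⟩
  have hdeg : deg (e, f) < r + s + 1 := by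
    unfold deg
    have h1 : ∑ m, e m = σ.1.1.card := by
      simp [he]
    have h2 : ∑ m, f m = σ.1.2.card := by
      simp [hf]
    show ∑ m, e m + ∑ m, f m < r + s + 1
    rw [h1, h2, hA, hB]
    omega
  have h1 := hc (e, f) hdeg
  rw [TT_apply, Finset.sum_eq_single σ] at h1
  · rcases mul_eq_zero.1 h1 with h2 | h2
    · rw [h2]
      rfl
    · exact absurd h2 ((hne σ).2 rfl)
  · intro τ _ hτ
    have h2 : psi (x τ.1) (y τ.1) (e, f) = 0 := by
      by_contra h3
      exact hτ ((hne τ).1 h3)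
    rw [h2, mul_zero]
  · intro h2
    exact absurd (mem_univ σ) h2

end TOT

theorem t_TOT : S_TOT := by
  intro V _ _ _ ι _ _ a b r s hn hV hsur hfd
  obtain ⟨ε, x, y, h⟩ := TOT.generic a b r s hV hsur
  have h1 : ∀ N : ℕ, Module.finrank ℚ (TOT.Fac ι r s → ℚ) ≤
      ∑ l ∈ Finset.range N, Module.finrank ℚ (R ⊤ a b r s l) + Module.finrank ℚ (TOT.G r s x y N) := by
    intro N
    induction N with
    | zero =>
      rw [Finset.range_zero, Finset.sum_empty, zero_add]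
      have h2 : TOT.G r s x y 0 = ⊤ := by
        rw [eq_top_iff]
        intro c _ p hp
        exact absurd hp (Nat.not_lt_zero _)
      rw [h2, finrank_top]
    | succ N ih =>
      have h3 := hfd N
      have h2 := TOT.step r s x y a b ε h N
      rw [Finset.sum_range_succ]
      omega
  have h2 := h1 (Fintype.card ι)
  rw [← hn, TOT.G_top r s x y fun σ hσ => ⟨(h σ hσ).1, (h σ hσ).2.1⟩, finrank_bot, add_zero,
    Module.finrank_fintype_fun_eq_card, Fintype.card_coe, TOT.card_Fac ι r s hn] at h2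
  rw [← hn] at h2 ⊢
  exact h2

end Pool.Agent.CB
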