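import Pool.Agent.CB.Stm

/-!
Piece UPA of project CB.
-/

set_option autoImplicit false

namespace Pool.Agent.CB

open Finset Module

namespace UPAP

variable {V : Type} [AddCommGroup V] [Module ℚ V] {ι : Type} [Fintype ι] [DecidableEq ι]

/-- the map `w ↦ w'` -/
def Phi (x : ι) : (Finset ι × Finset ι → ℚ) →ₗ[ℚ] (Finset ι × Finset ι → ℚ) where
  toFun w := fun P => if x ∈ P.1 ∨ x ∈ P.2 then 0 else w (insert x P.1, P.2)
  map_add' w w' := by
    funext P
    by_cases h : x ∈ P.1 ∨ x ∈ P.2 <;> simp [h]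
  map_smul' c w := by
    funext P
    by_cases h : x ∈ P.1 ∨ x ∈ P.2 <;> simp [h]

omit [Fintype ι] in
theorem Phi_apply (x : ι) (w : Finset ι × Finset ι → ℚ) (A B : Finset ι) :
    Phi x w (A, B) = if x ∈ A ∨ x ∈ B then 0 else w (insert x A, B) := rfl

theorem Phi_mem {U : Submodule ℚ V} {a b : ι → V →ₗ[ℚ] ℚ} {N : Finset ι} {x : ι} {r s i : ℕ}
    (hx : x ∉ N) (hi : 1 ≤ i) (hs : s ≠ 0) {w : Finset ι × Finset ι → ℚ}
    (hw : w ∈ W U a b (insert x N) r s i) :
    Phi x w ∈ W (U ⊓ LinearMap.ker (a x)) a b N r (s - 1) (i - 1) := by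
  obtain ⟨h1, h2⟩ := hw
  refine ⟨fun A B h => ?_, fun A B hA hB hd hc u hu ha hb => ?_⟩
  · rw [Phi_apply] at h
    by_cases hxx : x ∈ A ∨ x ∈ B
    · rw [if_pos hxx] at h; exact absurd rfl h
    · rw [if_neg hxx] at h
      rw [not_or] at hxx
      obtain ⟨g1, g2, g3, g4, g5, g6⟩ := h1 _ _ h
      rw [card_insert_of_notMem hxx.1] at g4 g6
      refine ⟨fun m hm => ?_, fun m hm => ?_, ?_, by omega, g5, by omega⟩
      · rcases mem_insert.1 (g1 (mem_insert_of_mem hm)) with h3 | h3
        · exact absurd (h3 ▸ hm) hxx.1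
        · exact h3
      · rcases mem_insert.1 (g2 hm) with h3 | h3
        · exact absurd (h3 ▸ hm) hxx.2
        · exact h3
      · exact disjoint_of_subset_left (subset_insert _ _) g3
  · have hxA : x ∉ A := fun h => hx (hA h)
    have hxB : x ∉ B := fun h => hx (hB h)
    have hu' := (Submodule.mem_inf.1 hu)
    have hax : a x u = 0 := LinearMap.mem_ker.1 hu'.2
    have h3 := h2 (insert x A) B (insert_subset_insert x hA) (hB.trans (subset_insert _ _))
      (disjoint_insert_left.2 ⟨hxB, hd⟩) (by rw [card_insert_of_notMem hxA]; omega) u hu'.1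
      (fun m hm => by
        rcases mem_insert.1 hm with h4 | h4
        · rw [h4]; exact hax
        · exact ha m h4) hb
    have h4 : (insert x N) \ (insert x A ∪ B) = N \ (A ∪ B) := by
      ext m
      simp only [mem_sdiff, mem_insert, mem_union, not_or]
      constructor
      · rintro ⟨h5 | h5, ⟨h6, h7⟩, h8⟩
        · exact absurd h5 h6
        · exact ⟨h5, h7, h8⟩
      · rintro ⟨h5, h7, h8⟩
        exact ⟨Or.inr h5, ⟨fun h => hx (h ▸ h5), h7⟩, h8⟩
    rw [h4] at h3
    rw [← h3]
    refine sum_congr rfl fun m hm => ?_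
    have hmN : m ∈ N := (mem_sdiff.1 hm).1
    have hmx : x ≠ m := fun h => hx (h ▸ hmN)
    rw [Phi_apply, Phi_apply, if_neg, if_neg, Finset.insert_comm]
    · rintro (h | h)
      · exact hxA h
      · rcases mem_insert.1 h with h5 | h5
        · exact hmx h5
        · exact hxB h5
    · rintro (h | h)
      · rcases mem_insert.1 h with h5 | h5
        · exact hmx h5
        · exact hxA h5
      · exact hxB h

theorem mem_Z_of_ker {U : Submodule ℚ V} {a b : ι → V →ₗ[ℚ] ℚ} {N : Finset ι} {x : ι} {r s i : ℕ}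
    {w : Finset ι × Finset ι → ℚ} (hw : w ∈ W U a b N r s i) (h : Phi x w = 0) : w ∈ Z x := by
  intro A B hA
  by_contra h0
  obtain ⟨-, -, g3, -⟩ := hw.1 A B h0
  have hxB : x ∉ B := fun hB => (disjoint_left.1 g3) hA hB
  have h1 : Phi x w (A.erase x, B) = 0 := by rw [h]; rfl
  rw [Phi_apply, if_neg (by
    rintro (h2 | h2)
    · exact notMem_erase _ _ h2
    · exact hxB h2), insert_erase hA] at h1
  exact h0 h1

end UPAP

open UPAP

theorem t_UPA : S_UPA := by
  intro V _ _ ι _ _ U a b N x r s i hx hi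
  by_cases hs : s = 0
  · rw [if_pos hs, zero_add]
    refine Submodule.finrank_mono (le_inf le_rfl fun w hw => ?_)
    intro A B hA
    by_contra h0
    obtain ⟨-, -, -, g4, -⟩ := hw.1 A B h0
    rw [hs] at g4
    have : A = ∅ := card_eq_zero.1 (by omega)
    rw [this] at hA
    exact notMem_empty _ hA
  · rw [if_neg hs]
    have h1 := LinearMap.finrank_range_add_finrank_ker
      ((Phi x).domRestrict (W U a b (insert x N) r s i))
    rw [← h1]
    refine add_le_add (Submodule.finrank_mono ?_) ?_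
    · rintro _ ⟨w, rfl⟩
      exact Phi_mem hx hi hs w.2
    · rw [← Submodule.finrank_map_subtype_eq]
      refine Submodule.finrank_mono ?_
      rintro _ ⟨w, hw, rfl⟩
      exact ⟨w.2, mem_Z_of_ker w.2 (LinearMap.mem_ker.1 hw)⟩

end Pool.Agent.CB
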