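import Pool.Agent.CB.Stm

/-!
# Project CB, piece UPB
-/

set_option autoImplicit false

namespace Pool.Agent.CB

open Finset Module

namespace UPB

section
variable {V : Type} [AddCommGroup V] [Module ℚ V] {ι : Type} [Fintype ι] [DecidableEq ι]

theorem zero1 {U : Submodule ℚ V} {a b : ι → V →ₗ[ℚ] ℚ} {N : Finset ι} {x : ι} {r s i : ℕ} (hx : x ∉ N)
    (hrs : r + s ≤ N.card) (hg : Good U a b (insert x N) r s) {w : Finset ι × Finset ι → ℚ}
    (hw : w ∈ W U a b (insert x N) r s i) (hz : w ∈ Z x) {A B : Finset ι} (hA : x ∉ A) (hB : x ∉ B)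
    (hBr : B.card = r) (hAn : A.Nonempty) : w (A, B) = 0 := by
  by_contra h
  obtain ⟨hA1, hB1, hd, hAs, _, hi⟩ := hw.1 A B h
  have hAN : A ⊆ N := fun m hm => (Finset.mem_insert.1 (hA1 hm)).resolve_left (by rintro rfl; exact hA hm)
  have hBN : B ⊆ N := fun m hm => (Finset.mem_insert.1 (hB1 hm)).resolve_left (by rintro rfl; exact hB hm)
  obtain ⟨m₀, hm₀⟩ := hAn
  have hm₀B : m₀ ∉ B := Finset.disjoint_left.1 hd hm₀
  have hc : (N \ B).card + B.card = N.card := Finset.card_sdiff_add_card_eq_card hBN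
  have hover : ∀ (C : Finset ι) (m : ι), m ∉ B → w (C, insert m B) = 0 := by
    intro C m hm
    by_contra h'
    have h1 := (hw.1 _ _ h').2.2.2.2.1
    rw [Finset.card_insert_of_notMem hm] at h1
    omega
  obtain ⟨u, hu, hua, hub⟩ := hg (N \ B) B (Finset.sdiff_subset.trans (Finset.subset_insert _ _)) hB1
    Finset.sdiff_disjoint (by rw [Finset.card_insert_of_notMem hx, hc]) (by omega) hBr.ge
    (fun m => if m = m₀ then 1 else 0) (fun _ => 0)
  have hrel := hw.2 (A.erase m₀) B ((Finset.erase_subset _ _).trans hA1) hB1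
    (Finset.disjoint_of_subset_left (Finset.erase_subset _ _) hd)
    (by
      have h1 := Finset.card_erase_add_one hm₀
      omega) u hu
    (fun m hm => by
      have h1 := Finset.mem_erase.1 hm
      rw [hua m (Finset.mem_sdiff.2 ⟨hAN h1.2, Finset.disjoint_left.1 hd h1.2⟩), if_neg h1.1])
    hub
  rw [Finset.sum_eq_single m₀] at hrel
  · rw [Finset.insert_erase hm₀, hua m₀ (Finset.mem_sdiff.2 ⟨hAN hm₀, hm₀B⟩), if_pos rfl, hover _ _ hm₀B,
      mul_zero, add_zero, one_mul] at hrel
    exact h hrel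
  · intro m hm hne
    have h1 := Finset.mem_sdiff.1 hm
    have hmB : m ∉ B := fun h2 => h1.2 (Finset.mem_union_right _ h2)
    rw [hover _ _ hmB, mul_zero, add_zero]
    rcases Finset.mem_insert.1 h1.1 with rfl | h2
    · rw [hz _ _ (Finset.mem_insert_self _ _), mul_zero]
    · rw [hua m (Finset.mem_sdiff.2 ⟨h2, hmB⟩), if_neg hne, zero_mul]
  · intro h1
    exact absurd (Finset.mem_sdiff.2 ⟨hA1 hm₀, fun h2 => by
      rcases Finset.mem_union.1 h2 with h3 | h3
      · exact Finset.notMem_erase _ _ h3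
      · exact hm₀B h3⟩) h1

theorem zero2 {U : Submodule ℚ V} {a b : ι → V →ₗ[ℚ] ℚ} {N : Finset ι} {x : ι} {r s i : ℕ} (hx : x ∉ N)
    (hrs : r + s ≤ N.card) (hg : Good U a b (insert x N) r s) {w : Finset ι × Finset ι → ℚ}
    (hw : w ∈ W U a b (insert x N) r s i) (hz : w ∈ Z x)
    (h0 : ∀ A B : Finset ι, x ∉ A → x ∉ B → w (A, B) = 0) : w = 0 := by
  funext p
  obtain ⟨A, B⟩ := p
  by_contra h
  have hxA : x ∉ A := fun h1 => h (hz A B h1)
  have hxB : x ∈ B := by
    by_contra h1
    exact h (h0 A B hxA h1)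
  obtain ⟨hA1, hB1, hd, hAs, hBr, hi⟩ := hw.1 A B h
  have hcN : (insert x N).card = N.card + 1 := Finset.card_insert_of_notMem hx
  have hc1 : (insert x N \ A).card + A.card = (insert x N).card := Finset.card_sdiff_add_card_eq_card hA1
  obtain ⟨B₁, hBB, hB₁, hBc⟩ := Finset.exists_subsuperset_card_eq
    (Finset.subset_sdiff.2 ⟨hB1, hd.symm⟩) hBr (by omega : r ≤ (insert x N \ A).card)
  have hB₁' := Finset.subset_sdiff.1 hB₁
  have hc2 : (insert x N \ B₁).card + B₁.card = (insert x N).card :=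
    Finset.card_sdiff_add_card_eq_card hB₁'.1
  obtain ⟨A₁, hAA, hA₁, hAc⟩ := Finset.exists_subsuperset_card_eq
    (Finset.subset_sdiff.2 ⟨hA1, hB₁'.2.symm⟩) (by omega : A.card ≤ N.card - r)
    (by omega : N.card - r ≤ (insert x N \ B₁).card)
  have hA₁' := Finset.subset_sdiff.1 hA₁
  obtain ⟨u, hu, hua, hub⟩ := hg A₁ B₁ hA₁'.1 hB₁'.1 hA₁'.2 (by omega) (by omega) hBc.ge
    (fun _ => 0) (fun m => if m = x then 1 else 0)
  have hrel := hw.2 A (B.erase x) hA1 ((Finset.erase_subset _ _).trans hB1)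
    (Finset.disjoint_of_subset_right (Finset.erase_subset _ _) hd)
    (by
      have h1 := Finset.card_erase_add_one hxB
      omega) u hu (fun m hm => hua m (hAA hm))
    (fun m hm => by
      have h1 := Finset.mem_erase.1 hm
      rw [hub m (hBB h1.2), if_neg h1.1])
  rw [Finset.sum_eq_single x] at hrel
  · rw [Finset.insert_erase hxB, hub x (hBB hxB), if_pos rfl, hz _ _ (Finset.mem_insert_self _ _),
      mul_zero, zero_add, one_mul] at hrel
    exact h hrel
  · intro m hm hne
    have hxe : x ∉ B.erase x := Finset.notMem_erase _ _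
    rw [h0 _ _ (fun h1 => (Finset.mem_insert.1 h1).elim (fun h2 => hne h2.symm) hxA) hxe,
      h0 _ _ hxA (fun h1 => (Finset.mem_insert.1 h1).elim (fun h2 => hne h2.symm) hxe), mul_zero, mul_zero,
      add_zero]
  · intro h1
    exact absurd (Finset.mem_sdiff.2 ⟨Finset.mem_insert_self _ _, fun h2 => by
      rcases Finset.mem_union.1 h2 with h3 | h3
      · exact hxA h3
      · exact Finset.notMem_erase _ _ h3⟩) h1

open Classical in
/-- the truncation `w ↦ w'` -/
noncomputable def L (x : ι) (r : ℕ) : (Finset ι × Finset ι → ℚ) →ₗ[ℚ] (Finset ι × Finset ι → ℚ) where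
  toFun w p := if x ∉ p.1 ∧ x ∉ p.2 ∧ p.2.card < r then w p else 0
  map_add' w w' := by
    funext p
    simp only [Pi.add_apply]
    split_ifs
    · rfl
    · rw [add_zero]
  map_smul' c w := by
    funext p
    simp only [Pi.smul_apply, smul_eq_mul, RingHom.id_apply]
    split_ifs
    · rfl
    · rw [mul_zero]

theorem L_apply (x : ι) (r : ℕ) (w : Finset ι × Finset ι → ℚ) (A B : Finset ι) :
    L x r w (A, B) = if x ∉ A ∧ x ∉ B ∧ B.card < r then w (A, B) else 0 := by
  unfold L
  simp only [LinearMap.coe_mk, AddHom.coe_mk]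

/-- the values at `(∅, B)`, `card B = r` -/
def M (N : Finset ι) (r : ℕ) : (Finset ι × Finset ι → ℚ) →ₗ[ℚ] (↥(powersetCard r N) → ℚ) where
  toFun w B := w (∅, B.1)
  map_add' _ _ := rfl
  map_smul' _ _ := rfl

theorem zero3 {U : Submodule ℚ V} {a b : ι → V →ₗ[ℚ] ℚ} {N : Finset ι} {x : ι} {r s i : ℕ} (hx : x ∉ N)
    (hrs : r + s ≤ N.card) (hg : Good U a b (insert x N) r s) {w : Finset ι × Finset ι → ℚ}
    (hw : w ∈ W U a b (insert x N) r s i) (hz : w ∈ Z x) (hM : M N r w = 0) {A B : Finset ι} (hA : x ∉ A)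
    (hB : x ∉ B) (hBr : B.card = r) : w (A, B) = 0 := by
  rcases A.eq_empty_or_nonempty with rfl | hAn
  · by_contra h
    obtain ⟨-, hB1, -⟩ := hw.1 ∅ B h
    have hBN : B ⊆ N := fun m hm =>
      (Finset.mem_insert.1 (hB1 hm)).resolve_left (by rintro rfl; exact hB hm)
    exact h (congrFun hM ⟨B, Finset.mem_powersetCard.2 ⟨hBN, hBr⟩⟩)
  · exact zero1 hx hrs hg hw hz hA hB hBr hAn

theorem inj {U : Submodule ℚ V} {a b : ι → V →ₗ[ℚ] ℚ} {N : Finset ι} {x : ι} {r s i : ℕ} (hx : x ∉ N)
    (hrs : r + s ≤ N.card) (hg : Good U a b (insert x N) r s) {w : Finset ι × Finset ι → ℚ}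
    (hw : w ∈ W U a b (insert x N) r s i) (hz : w ∈ Z x) (hM : M N r w = 0) (hL : L x r w = 0) : w = 0 := by
  refine zero2 hx hrs hg hw hz fun A B hA hB => ?_
  rcases lt_trichotomy B.card r with h | h | h
  · have h1 := congrFun hL (A, B)
    rw [L_apply, if_pos ⟨hA, hB, h⟩] at h1
    exact h1
  · exact zero3 hx hrs hg hw hz hM hA hB h
  · by_contra h1
    have h2 := (hw.1 _ _ h1).2.2.2.2.1
    omega

theorem mapsTo {U : Submodule ℚ V} {a b : ι → V →ₗ[ℚ] ℚ} {N : Finset ι} {x : ι} {r s i : ℕ} (hx : x ∉ N)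
    (_hr : r ≠ 0) (hrs : r + s ≤ N.card) (hg : Good U a b (insert x N) r s) {w : Finset ι × Finset ι → ℚ}
    (hw : w ∈ W U a b (insert x N) r s i) (hz : w ∈ Z x) (hM : M N r w = 0) :
    L x r w ∈ W (U ⊓ LinearMap.ker (b x)) a b N (r - 1) s i := by
  refine ⟨fun A B h => ?_, fun A B hA hB hd hc u hu ha hb => ?_⟩
  · rw [L_apply] at h
    have h1 : x ∉ A ∧ x ∉ B ∧ B.card < r := by
      by_contra h2
      exact h (if_neg h2)
    rw [if_pos h1] at h
    obtain ⟨hA1, hB1, hd, hAs, hBr, hi⟩ := hw.1 A B h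
    exact ⟨fun m hm => (Finset.mem_insert.1 (hA1 hm)).resolve_left (by rintro rfl; exact h1.1 hm),
      fun m hm => (Finset.mem_insert.1 (hB1 hm)).resolve_left (by rintro rfl; exact h1.2.1 hm), hd, hAs,
      by omega, hi⟩
  · have hxA : x ∉ A := fun h => hx (hA h)
    have hxB : x ∉ B := fun h => hx (hB h)
    rcases Nat.lt_or_ge B.card r with hBr | hBr
    · have hrel := hw.2 A B (hA.trans (Finset.subset_insert _ _)) (hB.trans (Finset.subset_insert _ _)) hd hc u
        hu.1 ha hb
      have hs : insert x N \ (A ∪ B) = insert x (N \ (A ∪ B)) := by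
        rw [Finset.insert_sdiff_of_notMem]
        exact fun h => (Finset.mem_union.1 h).elim hxA hxB
      have hbx : b x u = 0 := hu.2
      rw [hs, Finset.sum_insert (fun h => hx (Finset.mem_sdiff.1 h).1), hz _ _ (Finset.mem_insert_self _ _),
        hbx, mul_zero, zero_mul, add_zero, zero_add] at hrel
      rw [← hrel]
      refine Finset.sum_congr rfl fun m hm => ?_
      have h1 := Finset.mem_sdiff.1 hm
      have hmx : x ≠ m := by
        rintro rfl
        exact hx h1.1
      have hmB : m ∉ B := fun h2 => h1.2 (Finset.mem_union_right _ h2)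
      have hxiA : x ∉ insert m A := fun h => (Finset.mem_insert.1 h).elim hmx hxA
      have hxiB : x ∉ insert m B := fun h => (Finset.mem_insert.1 h).elim hmx hxB
      rw [L_apply, if_pos ⟨hxiA, hxB, hBr⟩, L_apply]
      by_cases h2 : (insert m B).card < r
      · rw [if_pos ⟨hxA, hxiB, h2⟩]
      · rw [if_neg (fun h => h2 h.2.2), zero3 hx hrs hg hw hz hM hxA hxiB (by
          rw [Finset.card_insert_of_notMem hmB] at h2 ⊢
          omega)]
    · refine Finset.sum_eq_zero fun m hm => ?_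
      have h1 := Finset.mem_sdiff.1 hm
      have hmB : m ∉ B := fun h2 => h1.2 (Finset.mem_union_right _ h2)
      rw [L_apply, if_neg (fun h => absurd h.2.2 (by omega)), L_apply, if_neg (fun h => absurd h.2.2 (by
        rw [Finset.card_insert_of_notMem hmB]
        omega)), mul_zero, mul_zero, add_zero]

end

end UPB

theorem t_UPB : S_UPB := by
  intro V _ _ ι _ _ U a b N x r s i hx _ hrs _ hg
  set S : Submodule ℚ (Finset ι × Finset ι → ℚ) := W U a b (insert x N) r s i ⊓ Z x with hS
  have hfr := LinearMap.finrank_range_add_finrank_ker ((UPB.M N r).domRestrict S)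
  have h1 : finrank ℚ (LinearMap.range ((UPB.M N r).domRestrict S)) ≤ if i = r then N.card.choose r else 0 := by
    split_ifs with hir
    · refine (Submodule.finrank_le _).trans ?_
      rw [finrank_fintype_fun_eq_card, Fintype.card_coe, Finset.card_powersetCard]
    · have h0 : (UPB.M N r).domRestrict S = 0 := by
        ext w B
        by_contra h
        have h2 := (w.2.1.1 ∅ B.1 h).2.2.2.2.2
        rw [(Finset.mem_powersetCard.1 B.2).2, Finset.card_empty, zero_add] at h2
        exact hir h2.symm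
      rw [h0, LinearMap.range_zero, finrank_bot]
  have h2 : finrank ℚ (LinearMap.ker ((UPB.M N r).domRestrict S)) ≤
      if r = 0 then 0 else finrank ℚ (W (U ⊓ LinearMap.ker (b x)) a b N (r - 1) s i) := by
    have hker : ∀ w : LinearMap.ker ((UPB.M N r).domRestrict S), UPB.M N r w.1.1 = 0 := fun w => w.2
    let g : LinearMap.ker ((UPB.M N r).domRestrict S) →ₗ[ℚ] (Finset ι × Finset ι → ℚ) :=
      (UPB.L x r) ∘ₗ S.subtype ∘ₗ (LinearMap.ker ((UPB.M N r).domRestrict S)).subtype
    have hgi : Function.Injective g := by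
      intro w w' h
      have h3 := UPB.inj hx hrs hg (w := w.1.1 - w'.1.1) (Submodule.sub_mem _ w.1.2.1 w'.1.2.1)
        (Submodule.sub_mem _ w.1.2.2 w'.1.2.2) (by rw [map_sub, hker w, hker w', sub_zero])
        (by rw [map_sub]; exact sub_eq_zero.2 h)
      exact Subtype.ext (Subtype.ext (sub_eq_zero.1 h3))
    split_ifs with hr
    · have h0 : g = 0 := by
        refine LinearMap.ext fun w => funext fun p => ?_
        obtain ⟨A, B⟩ := p
        change UPB.L x r w.1.1 (A, B) = 0
        rw [UPB.L_apply, if_neg]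
        rintro ⟨-, -, h⟩
        omega
      have hsub : Subsingleton (LinearMap.ker ((UPB.M N r).domRestrict S)) :=
        ⟨fun w w' => hgi (by rw [h0]; rfl)⟩
      exact (Module.finrank_zero_of_subsingleton).le
    · let g' : LinearMap.ker ((UPB.M N r).domRestrict S) →ₗ[ℚ]
          W (U ⊓ LinearMap.ker (b x)) a b N (r - 1) s i :=
        LinearMap.codRestrict _ g fun w => UPB.mapsTo hx hr hrs hg w.1.2.1 w.1.2.2 (hker w)
      refine LinearMap.finrank_le_finrank_of_injective (f := g') fun w w' h => hgi ?_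
      exact congrArg Subtype.val h
  omega

end Pool.Agent.CB
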