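import Pool.Agent.CB.Stm

/-!
# Project CB, piece UPP: the upper bound by induction
-/

set_option autoImplicit false

namespace Pool.Agent.CB

open Finset Module

namespace UPP

variable {V : Type} [AddCommGroup V] [Module ℚ V] {ι : Type} [Fintype ι] [DecidableEq ι]

theorem good_a {U : Submodule ℚ V} {a b : ι → V →ₗ[ℚ] ℚ} {N : Finset ι} {x : ι} {r s : ℕ}
    (hx : x ∉ N) (hs : 1 ≤ s) (h : Good U a b (insert x N) r s) :
    Good (U ⊓ LinearMap.ker (a x)) a b N r (s - 1) := by
  intro A B hA hB hd hc h1 h2 f g
  have hxA : x ∉ A := fun h' => hx (hA h')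
  have hxB : x ∉ B := fun h' => hx (hB h')
  have hd' : Disjoint (insert x A) B := by
    rw [Finset.disjoint_insert_left]
    exact ⟨hxB, hd⟩
  have hc' : (insert x A).card + B.card + 1 = (insert x N).card := by
    rw [Finset.card_insert_of_notMem hxA, Finset.card_insert_of_notMem hx]
    omega
  obtain ⟨u, hu, h3, h4⟩ := h (insert x A) B (Finset.insert_subset_insert x hA)
    (hB.trans (Finset.subset_insert x N)) hd' hc' (by
      rw [Finset.card_insert_of_notMem hxA]; omega) h2 (Function.update f x 0) g
  refine ⟨u, ⟨hu, ?_⟩, fun m hm => ?_, h4⟩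
  · show u ∈ LinearMap.ker (a x)
    rw [LinearMap.mem_ker, h3 x (Finset.mem_insert_self x A), Function.update_self]
  · have hmx : m ≠ x := fun h' => hxA (h' ▸ hm)
    rw [h3 m (Finset.mem_insert_of_mem hm), Function.update_of_ne hmx]

theorem good_b {U : Submodule ℚ V} {a b : ι → V →ₗ[ℚ] ℚ} {N : Finset ι} {x : ι} {r s : ℕ}
    (hx : x ∉ N) (hr : 1 ≤ r) (h : Good U a b (insert x N) r s) :
    Good (U ⊓ LinearMap.ker (b x)) a b N (r - 1) s := by
  intro A B hA hB hd hc h1 h2 f g
  have hxA : x ∉ A := fun h' => hx (hA h')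
  have hxB : x ∉ B := fun h' => hx (hB h')
  have hd' : Disjoint A (insert x B) := by
    rw [Finset.disjoint_insert_right]
    exact ⟨hxA, hd⟩
  have hc' : A.card + (insert x B).card + 1 = (insert x N).card := by
    rw [Finset.card_insert_of_notMem hxB, Finset.card_insert_of_notMem hx]
    omega
  obtain ⟨u, hu, h3, h4⟩ := h A (insert x B) (hA.trans (Finset.subset_insert x N))
    (Finset.insert_subset_insert x hB) hd' hc' h1 (by
      rw [Finset.card_insert_of_notMem hxB]; omega) f (Function.update g x 0)
  refine ⟨u, ⟨hu, ?_⟩, h3, fun m hm => ?_⟩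
  · show u ∈ LinearMap.ker (b x)
    rw [LinearMap.mem_ker, h4 x (Finset.mem_insert_self x B), Function.update_self]
  · have hmx : m ≠ x := fun h' => hxB (h' ▸ hm)
    rw [h4 m (Finset.mem_insert_of_mem hm), Function.update_of_ne hmx]

theorem finrank_W_zero (U : Submodule ℚ V) (a b : ι → V →ₗ[ℚ] ℚ) (N : Finset ι) (r s : ℕ) :
    finrank ℚ (W U a b N r s 0) ≤ 1 := by
  let g : W U a b N r s 0 →ₗ[ℚ] ℚ :=
    (LinearMap.proj ((∅, ∅) : Finset ι × Finset ι) : (Finset ι × Finset ι → ℚ) →ₗ[ℚ] ℚ) ∘ₗ
      (W U a b N r s 0).subtype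
  have hg : Function.Injective g := by
    rw [← LinearMap.ker_eq_bot, LinearMap.ker_eq_bot']
    rintro ⟨w, hw⟩ h
    have h0 : w (∅, ∅) = 0 := h
    apply Subtype.ext
    funext p
    obtain ⟨A, B⟩ := p
    show w (A, B) = 0
    by_contra hne
    have h1 := (hw.1 A B hne).2.2.2.2.2
    have hA : A = ∅ := Finset.card_eq_zero.1 (by omega)
    have hB : B = ∅ := Finset.card_eq_zero.1 (by omega)
    rw [hA, hB] at hne
    exact hne h0
  have h1 := LinearMap.finrank_le_finrank_of_injective hg
  rwa [Module.finrank_self] at h1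

theorem finrank_W_big (U : Submodule ℚ V) (a b : ι → V →ₗ[ℚ] ℚ) (N : Finset ι) (r s i : ℕ)
    (hi : r + s < i) : finrank ℚ (W U a b N r s i) = 0 := by
  have h : W U a b N r s i = ⊥ := by
    rw [eq_bot_iff]
    intro w hw
    rw [Submodule.mem_bot]
    funext p
    obtain ⟨A, B⟩ := p
    show w (A, B) = 0
    by_contra hne
    obtain ⟨-, -, -, h1, h2, h3⟩ := hw.1 A B hne
    omega
  rw [h, finrank_bot]

theorem main (h1 : S_UPA) (h2 : S_UPB) (h3 : S_SWP) (h4 : S_NUM2) (n : ℕ) :
    ∀ (U : Submodule ℚ V) (a b : ι → V →ₗ[ℚ] ℚ) (N : Finset ι) (r s i : ℕ), N.card = n →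
      r + s + 1 ≤ N.card → N.card ≤ r + s + 2 → Good U a b N r s → i ≤ r + s →
      finrank ℚ (W U a b N r s i) ≤ bs N.card (min (min i (r + s - i)) (min r s)) := by
  induction n with
  | zero =>
    intro U a b N r s i hN h5
    omega
  | succ n ih =>
    -- the case `r ≤ s`
    have key : ∀ (U : Submodule ℚ V) (a b : ι → V →ₗ[ℚ] ℚ) (N : Finset ι) (r s i : ℕ), r ≤ s →
        N.card = n + 1 → r + s + 1 ≤ N.card → N.card ≤ r + s + 2 → Good U a b N r s → i ≤ r + s →
        finrank ℚ (W U a b N r s i) ≤ bs N.card (min (min i (r + s - i)) (min r s)) := by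
      intro U a b N r s i hrs hN h5 h6 hG hi
      rcases Nat.eq_zero_or_pos i with hi0 | hi0
      · subst hi0
        refine (finrank_W_zero U a b N r s).trans ?_
        simp [bs]
      · obtain ⟨x, hx⟩ : N.Nonempty := Finset.card_pos.1 (by omega)
        obtain ⟨N', hxN', rfl⟩ : ∃ N' : Finset ι, x ∉ N' ∧ N = insert x N' :=
          ⟨N.erase x, Finset.notMem_erase x N, (Finset.insert_erase hx).symm⟩
        have hc : (insert x N').card = N'.card + 1 := Finset.card_insert_of_notMem hxN'
        have hN' : N'.card = n := by omega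
        have e1 := h1 V ι U a b N' x r s i hxN' hi0
        have e2 := h2 V ι U a b N' x r s i hxN' hi0 (by omega) (by omega) hG
        have e3 := h4 (n + 1) r s i (by omega) hrs hi0 hi
        rw [Nat.add_sub_cancel] at e3
        have e4 : (if s = 0 then 0 else
            finrank ℚ (W (U ⊓ LinearMap.ker (a x)) a b N' r (s - 1) (i - 1))) ≤
            (if s = 0 then 0 else bs n (min (min (i - 1) (r + s - i)) (min r (s - 1)))) := by
          split_ifs with hs
          · exact le_rfl
          · have e5 := ih (U ⊓ LinearMap.ker (a x)) a b N' r (s - 1) (i - 1) hN' (by omega)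
              (by omega) (good_a hxN' (by omega) hG) (by omega)
            rw [hN', show r + (s - 1) - (i - 1) = r + s - i by omega] at e5
            exact e5
        have e6 : (if r = 0 then 0 else
            finrank ℚ (W (U ⊓ LinearMap.ker (b x)) a b N' (r - 1) s i)) ≤
            (if r = 0 ∨ i = r + s then 0 else
              bs n (min (min i (r + s - 1 - i)) (min (r - 1) s))) := by
          by_cases hr : r = 0
          · rw [if_pos hr, if_pos (Or.inl hr)]
          · rw [if_neg hr]
            by_cases his : i = r + s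
            · rw [if_pos (Or.inr his), finrank_W_big _ _ _ _ _ _ _ (by omega)]
            · rw [if_neg (by
                rintro (h | h)
                · exact hr h
                · exact his h)]
              have e5 := ih (U ⊓ LinearMap.ker (b x)) a b N' (r - 1) s i hN' (by omega)
                (by omega) (good_b hxN' (by omega) hG) (by omega)
              rw [hN', show r - 1 + s - i = r + s - 1 - i by omega] at e5
              exact e5
        rw [hc, hN']
        rw [hN'] at e2
        omega
    intro U a b N r s i hN h5 h6 hG hi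
    rcases le_total r s with hrs | hrs
    · exact key U a b N r s i hrs hN h5 h6 hG hi
    · obtain ⟨e1, e2⟩ := h3 V ι U a b N r s i
      rw [e1]
      have e3 := key U b a N s r i hrs hN (by omega) (by omega) (e2 hG) (by omega)
      rwa [show s + r - i = r + s - i by omega, min_comm s r] at e3

end UPP

theorem t_UPP (h1 : S_UPA) (h2 : S_UPB) (h3 : S_SWP) (h4 : S_NUM2) : S_UPP := by
  intro V _ _ ι _ _ U a b N r s i h5 h6 hG hi
  exact UPP.main h1 h2 h3 h4 N.card U a b N r s i rfl h5 h6 hG hi

end Pool.Agent.CB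

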