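import Pool.Agent.CB.FIN1
import Pool.Agent.CB.UPP
import Pool.Agent.CB.UPA
import Pool.Agent.CB.UPB
import Pool.Agent.CB.SWP
import Pool.Agent.CB.NUM1
import Pool.Agent.CB.NUM2
import Pool.Agent.CB.LOW
import Pool.Agent.CB.LEX
import Pool.Agent.CB.SF
import Pool.Agent.CB.TOT
import Pool.Agent.CB.LX
import Pool.Agent.CB.SIGN
import Pool.Agent.CB.SUR
import Pool.Agent.CB.DATA
import Pool.Agent.CB.LIN
import Pool.Agent.CB.FCS
import Pool.Agent.CB.DUALW
import Pool.Agent.CB.PRIM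
import Pool.Agent.CB.KAP
import Pool.Agent.CB.HALF
import Pool.Agent.CB.CZERO

/-!
Project CB: the labelled theorem for the hypersimplices.
-/

set_option autoImplicit false

namespace Pool.Agent.CB

theorem all_UPP : S_UPP := t_UPP t_UPA t_UPB t_SWP t_NUM2
theorem all_LEX : S_LEX := t_LEX all_UPP t_SF t_TOT t_NUM1
theorem all_LOW : S_LOW := t_LOW all_LEX t_SF t_LX t_SIGN t_SUR t_SWP
theorem all_LIN : S_LIN := t_LIN t_SUR
theorem all_HALF : S_HALF := t_HALF t_SUR all_LIN t_FCS t_DUALW t_PRIM t_KAP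
theorem all_CZERO : S_CZERO := t_CZERO t_DATA all_LIN t_FCS t_PRIM t_DUALW
theorem all_FIN1 : S_FIN1 := t_FIN1 all_UPP all_LOW t_SUR t_DATA all_HALF all_CZERO

end Pool.Agent.CB
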