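import Pool.Agent.CB.Stm

/-!
# Project CB: piece PRIM (primitive functional)
-/

set_option autoImplicit false

namespace Pool.Agent.CB

open Finset Module

theorem PRIM_den {d : ℕ} (g : Fin d → ℚ) : ∃ D : ℕ, 0 < D ∧ ∀ c, ∃ z : ℤ, (D : ℚ) * g c = z := by
  refine ⟨∏ c, (g c).den, Finset.prod_pos fun c _ => (g c).den_pos, fun c => ?_⟩
  refine ⟨(∏ c' ∈ univ.erase c, ((g c').den : ℤ)) * (g c).num, ?_⟩
  rw [← Finset.prod_erase_mul univ (fun c => (g c).den) (mem_univ c)]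
  push_cast
  rw [mul_assoc, mul_comm ((g c).den : ℚ), Rat.mul_den_eq_num]

theorem t_PRIM : S_PRIM := by
  intro d L f hf
  obtain ⟨x0, hx0, hf0⟩ := hf
  obtain ⟨D, hD, hDf⟩ := PRIM_den fun c : Fin d => f (Pi.single c 1)
  obtain ⟨N, hN, hNx⟩ := PRIM_den x0
  have hD0 : (0 : ℚ) < D := by exact_mod_cast hD
  have hN0 : (0 : ℚ) < N := by exact_mod_cast hN
  have hfx : ∀ x : Fin d → ℚ, f x = ∑ c, x c * f (Pi.single c 1) := by
    intro x
    conv_lhs => rw [← Finset.univ_sum_single x, map_sum]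
    refine Finset.sum_congr rfl fun c _ => ?_
    have h1 : (Pi.single c (x c) : Fin d → ℚ) = x c • Pi.single c 1 := by
      rw [← Pi.single_smul, smul_eq_mul, mul_one]
    rw [h1, map_smul, smul_eq_mul]
  have hint : ∀ x : Fin d → ℚ, Integral x → ∃ z : ℤ, (D : ℚ) * f x = z := by
    intro x hx
    choose a ha using hx
    choose b hb using hDf
    refine ⟨∑ c, a c * b c, ?_⟩
    rw [hfx, Finset.mul_sum]
    push_cast
    refine Finset.sum_congr rfl fun c _ => ?_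
    rw [← hb c, ha c]
    ring
  let H : AddSubgroup ℤ :=
    { carrier := {z | ∃ x ∈ L, Integral x ∧ (D : ℚ) * f x = z}
      zero_mem' := ⟨0, L.zero_mem, fun c => ⟨0, by simp⟩, by simp⟩
      add_mem' := by
        rintro z w ⟨x, hx, hxi, hxz⟩ ⟨y, hy, hyi, hyw⟩
        refine ⟨x + y, L.add_mem hx hy, fun c => ?_, ?_⟩
        · obtain ⟨u, hu⟩ := hxi c
          obtain ⟨v, hv⟩ := hyi c
          exact ⟨u + v, by rw [Pi.add_apply, hu, hv]; push_cast; rfl⟩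
        · rw [map_add, mul_add, hxz, hyw]; push_cast; rfl
      neg_mem' := by
        rintro z ⟨x, hx, hxi, hxz⟩
        refine ⟨-x, L.neg_mem hx, fun c => ?_, ?_⟩
        · obtain ⟨u, hu⟩ := hxi c
          exact ⟨-u, by rw [Pi.neg_apply, hu]; push_cast; rfl⟩
        · rw [map_neg, mul_neg, hxz]; push_cast; rfl }
  have hH : ∀ z, z ∈ H ↔ ∃ x ∈ L, Integral x ∧ (D : ℚ) * f x = z := fun z => Iff.rfl
  obtain ⟨a, ha⟩ := Int.subgroup_cyclic H
  have hx1 : Integral ((N : ℚ) • x0) := fun c => by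
    obtain ⟨z, hz⟩ := hNx c
    exact ⟨z, by rw [Pi.smul_apply, smul_eq_mul, hz]⟩
  obtain ⟨z1, hz1⟩ := hint _ hx1
  have hz1H : z1 ∈ H := (hH z1).2 ⟨_, L.smul_mem _ hx0, hx1, hz1⟩
  have hz10 : z1 ≠ 0 := by
    rintro rfl
    rw [map_smul, smul_eq_mul, Int.cast_zero] at hz1
    rcases mul_eq_zero.1 hz1 with h | h
    · exact hD0.ne' h
    · rcases mul_eq_zero.1 h with h | h
      · exact hN0.ne' h
      · exact hf0 h
  have hmem : ∀ z, z ∈ H ↔ a ∣ z := by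
    intro z
    rw [ha, AddSubgroup.mem_closure_singleton]
    constructor
    · rintro ⟨n, hn⟩
      exact ⟨n, by rw [← hn, smul_eq_mul, mul_comm]⟩
    · rintro ⟨n, hn⟩
      exact ⟨n, by rw [hn, smul_eq_mul, mul_comm]⟩
  have ha0 : a ≠ 0 := by
    rintro rfl
    exact hz10 (zero_dvd_iff.1 ((hmem z1).1 hz1H))
  have hg : (0 : ℤ) < |a| := abs_pos.2 ha0
  have hg0 : (0 : ℚ) < ((|a| : ℤ) : ℚ) := by exact_mod_cast hg
  refine ⟨D / ((|a| : ℤ) : ℚ), div_pos hD0 hg0, fun x hx hxi => ?_, ?_⟩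
  · obtain ⟨z, hz⟩ := hint x hxi
    obtain ⟨t, ht⟩ := (abs_dvd a z).2 ((hmem z).1 ((hH z).2 ⟨x, hx, hxi, hz⟩))
    refine ⟨t, ?_⟩
    rw [div_mul_eq_mul_div, hz, ht, Int.cast_mul, mul_div_cancel_left₀ _ hg0.ne']
  · obtain ⟨x, hx, hxi, hxz⟩ := (hH |a|).1 ((hmem |a|).2 ((dvd_abs a a).2 dvd_rfl))
    refine ⟨x, hx, hxi, ?_⟩
    rw [div_mul_eq_mul_div, hxz, div_self hg0.ne']

end Pool.Agent.CB
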