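import Pool.Agent.CB.Asm2
import Pool.Agent.CB.P2.DCNN
import Pool.Agent.CB.P2.DDIM
import Pool.Agent.CB.P2.DEXN
import Pool.Agent.CB.P2.DFAC
import Pool.Agent.CB.P2.DVOL
import Pool.Agent.CB.P2.DWTS
import Pool.Agent.CB.P3.AGR
import Pool.Agent.CB.P3.ALT
import Pool.Agent.CB.P3.ATS
import Pool.Agent.CB.P3.CONX
import Pool.Agent.CB.P3.FCA
import Pool.Agent.CB.P3.FCB
import Pool.Agent.CB.P3.GLU
import Pool.Agent.CB.P3.IND
import Pool.Agent.CB.P3.OCA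
import Pool.Agent.CB.P3.OCB
import Pool.Agent.CB.P3.SIA
import Pool.Agent.CB.P3.SIB
import Pool.Agent.CB.P3.SPF
import Pool.Agent.CB.P3.STP
import Pool.Agent.CB.P3.VNT
import Pool.Agent.CB.P4.FUN
import Pool.Agent.CB.P4.KER
import Pool.Agent.CB.P4.MUL
import Pool.Agent.CB.P4.FCT
import Pool.Agent.CB.P4.RDG
import Pool.Agent.CB.P4.NOR
import Pool.Agent.CB.P4.SPZ
import Pool.Agent.CB.P4.DEP
import Pool.Agent.CB.P4.SYM
import Pool.Agent.CB.P4.CNT
import Pool.Agent.CB.P4.NBC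
import Pool.Agent.CB.P4.WTR
import Pool.Agent.CB.P4.CTW
import Pool.Agent.CB.P4.CON1
import Pool.Agent.CB.P4.CZA
import Pool.Agent.CB.P4.CZR
/-!
# Project CB, part 2: the Chow-Betti numbers of the normal fans of the duals of the hypersimplices
-/
set_option autoImplicit false
namespace Pool.Agent.CB
open Finset Module

theorem f_SPF : R_SPF := t_SPF t_IND

theorem f_AGR : R_AGR := t_AGR f_SPF

theorem f_STP : ∀ m k : ℕ, 4 ≤ m → 2 ≤ k → k + 1 ≤ m → Rg m k → Rg m (k - 1) → Rg (m + 1) k :=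
  t_STP t_IND t_GLU t_VNT f_AGR t_ATS t_FCA t_FCB t_CON

theorem f_RIG : ∀ m k : ℕ, 1 ≤ k → k + 1 ≤ m → Rg m k :=
  rig t_SIA t_SIB (t_OCB t_OCA f_SPF t_ALT) f_STP

theorem f_FCT : D_FCT := t_FCT t_DDIM

theorem f_RDG : D_RDG := t_RDG t_DDIM

theorem f_KER : D_KER := t_KER t_DDIM

theorem f_SPZ : D_SPZ := t_SPZ f_SPF

theorem f_NOR : D_NOR := t_NOR f_KER t_MUL f_RDG

theorem f_DEP : D_DEP := t_DEP f_RIG f_SPZ t_ALT

theorem f_CNT : L_CNT := t_CNT t_SYM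

theorem f_WTR : D_WTR := t_WTR t_DWTS f_NOR f_RDG f_FCT f_KER t_DEXN

theorem f_CTW : D_CTW := t_CTW t_DWTS f_FCT f_SPZ t_DEXN

theorem f_CON1 : D_CON1 := t_CON1 t_DDIM f_FCT

theorem f_CZR : D_CZR := t_CZR t_DDIM t_DWTS t_DCNN (t_CZA t_DDIM t_DEXN t_DVOL)

/-- the Chow-Betti numbers of the normal fan of a realization of the dual of `Δ(k, n)`, `2 ≤ k ≤ n - 2` -/
theorem dual_chow (n k : ℕ) (h1 : 2 ≤ k) (h2 : k + 2 ≤ n) (q : Fin n × Bool → Fin (n - 1) → ℚ)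
    (h : RealDual k q) : (∀ j, j + 4 ≤ n → chowBetti q j = 1) ∧
    2 * chowBetti q (n - 3) + 2 * (n.choose k * (n - 2)) = n.choose k * (k * (n - k)) + (n - 1) * (n - 2) ∧
    chowBetti q (n - 2) + (n - 1) = n.choose k ∧ chowBetti q (n - 1) = 1 ∧ ∀ j, n ≤ j → chowBetti q j = 0 :=
  dual_values t_FUN f_DEP f_CNT t_NBC f_WTR f_CTW f_CON1 f_CZR n k q (t_DFAC n k h1 h2 q h)

/-- two realizations of the dual have the same Chow-Betti numbers -/
theorem dual_eq (n k : ℕ) (h1 : 2 ≤ k) (h2 : k + 2 ≤ n) (q q' : Fin n × Bool → Fin (n - 1) → ℚ)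
    (h : RealDual k q) (h' : RealDual k q') (j : ℕ) : chowBetti q j = chowBetti q' j := by
  obtain ⟨a1, a2, a3, a4, a5⟩ := dual_chow n k h1 h2 q h
  obtain ⟨b1, b2, b3, b4, b5⟩ := dual_chow n k h1 h2 q' h'
  rcases Nat.lt_or_ge j n with hj | hj
  · rcases Nat.lt_or_ge n (j + 4) with h4 | h4
    · have : j = n - 3 ∨ j = n - 2 ∨ j = n - 1 := by omega
      rcases this with rfl | rfl | rfl
      · omega
      · omega
      · rw [a4, b4]
    · rw [a1 j h4, b1 j h4]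
  · rw [a5 j hj, b5 j hj]

/-- the form used in the results file -/
theorem final2 : ∀ (n k : ℕ), 2 ≤ k → k + 2 ≤ n → ∀ q : Fin n × Bool → Fin (n - 1) → ℚ, RealDual k q →
    (∀ j, j + 4 ≤ n → chowBetti q j = 1) ∧
    2 * chowBetti q (n - 3) + 2 * (n.choose k * (n - 2)) = n.choose k * (k * (n - k)) + 2 * (n - 1).choose 2 ∧
    chowBetti q (n - 2) + (n - 1) = n.choose k ∧ chowBetti q (n - 1) = 1 ∧ ∀ j, n ≤ j → chowBetti q j = 0 := by
  intro n k h1 h2 q h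
  have h5 : 2 * ((n - 1).choose 2) = (n - 1) * (n - 2) := by
    rw [Nat.choose_two_right]
    have := Nat.even_mul_pred_self (n - 1)
    rw [Nat.mul_div_cancel' this.two_dvd]
    rfl
  rw [h5]
  exact dual_chow n k h1 h2 q h

end Pool.Agent.CB
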