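import Pool.Agent.CB.StmIso
import Pool.Agent.CB.FCS

/-!
# Project CB, piece ISO1 (helper63): from an isomorphism of face lattices to a labelled realization
-/

set_option autoImplicit false

namespace Pool.Agent.CB

open Finset Module

namespace ISO1

/-- atomic orders of sets: the atoms go to the atoms -/
theorem atom {α β : Type} (P : Finset α → Prop) (Q : Finset β → Prop)
    (hP : ∀ T, P T → T.Nonempty) (hP1 : ∀ i, P {i}) (hQ : ∀ T, Q T → T.Nonempty) (hQ1 : ∀ i, Q {i})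
    (e : {T : Finset α // P T} ≃o {T : Finset β // Q T}) (i : α) :
    ∃ j, (e ⟨{i}, hP1 i⟩).1 = {j} := by
  obtain ⟨j, hj⟩ := hQ _ (e ⟨{i}, hP1 i⟩).2
  have h1 : (⟨{j}, hQ1 j⟩ : {T : Finset β // Q T}) ≤ e ⟨{i}, hP1 i⟩ := by
    show ({j} : Finset β) ⊆ _
    exact Finset.singleton_subset_iff.2 hj
  have h2 : e.symm ⟨{j}, hQ1 j⟩ ≤ ⟨{i}, hP1 i⟩ := by
    have := e.symm.monotone h1
    rwa [OrderIso.symm_apply_apply] at this
  have h3 : (e.symm ⟨{j}, hQ1 j⟩).1 = {i} := by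
    have h4 : (e.symm ⟨{j}, hQ1 j⟩).1 ⊆ {i} := h2
    exact (Finset.Nonempty.subset_singleton_iff (hP _ (e.symm ⟨{j}, hQ1 j⟩).2)).1 h4
  have h4 : e.symm ⟨{j}, hQ1 j⟩ = ⟨{i}, hP1 i⟩ := Subtype.ext h3
  refine ⟨j, ?_⟩
  rw [← h4, OrderIso.apply_symm_apply]

/-- an isomorphism of atomic orders of sets comes from a bijection -/
theorem exists_equiv {α β : Type} (P : Finset α → Prop) (Q : Finset β → Prop)
    (hP : ∀ T, P T → T.Nonempty) (hP1 : ∀ i, P {i}) (hQ : ∀ T, Q T → T.Nonempty) (hQ1 : ∀ i, Q {i})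
    (e : {T : Finset α // P T} ≃o {T : Finset β // Q T}) :
    ∃ g : β ≃ α, ∀ T : Finset β, P (T.map g.toEmbedding) ↔ Q T := by
  choose f hf using atom P Q hP hP1 hQ hQ1 e
  choose h hh using atom Q P hQ hQ1 hP hP1 e.symm
  have hf' : ∀ i, e ⟨{i}, hP1 i⟩ = ⟨{f i}, hQ1 (f i)⟩ := fun i => Subtype.ext (hf i)
  have hh' : ∀ j, e.symm ⟨{j}, hQ1 j⟩ = ⟨{h j}, hP1 (h j)⟩ := fun j => Subtype.ext (hh j)
  have hfh : ∀ i, h (f i) = i := by
    intro i
    have h1 : e.symm (e ⟨{i}, hP1 i⟩) = ⟨{h (f i)}, hP1 (h (f i))⟩ := by rw [hf', hh']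
    rw [OrderIso.symm_apply_apply] at h1
    exact (Finset.singleton_injective (Subtype.ext_iff.1 h1)).symm
  have hhf : ∀ j, f (h j) = j := by
    intro j
    have h1 : e (e.symm ⟨{j}, hQ1 j⟩) = ⟨{f (h j)}, hQ1 (f (h j))⟩ := by rw [hh', hf']
    rw [OrderIso.apply_symm_apply] at h1
    exact (Finset.singleton_injective (Subtype.ext_iff.1 h1)).symm
  have key : ∀ (T : {T : Finset α // P T}) (j : β), j ∈ (e T).1 ↔ h j ∈ T.1 := by
    intro T j
    have h1 : j ∈ (e T).1 ↔ (⟨{j}, hQ1 j⟩ : {T : Finset β // Q T}) ≤ e T := by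
      rw [← Finset.singleton_subset_iff]
      exact Iff.rfl
    have h2 : h j ∈ T.1 ↔ (⟨{h j}, hP1 (h j)⟩ : {T : Finset α // P T}) ≤ T := by
      rw [← Finset.singleton_subset_iff]
      exact Iff.rfl
    rw [h1, h2, ← hh', e.symm_apply_le]
  refine ⟨⟨h, f, hhf, hfh⟩, fun T => ⟨fun hT => ?_, fun hT => ?_⟩⟩
  · have h1 : (e ⟨_, hT⟩).1 = T := by
      ext j
      rw [key]
      constructor
      · intro hj
        obtain ⟨j', hj', h2⟩ := Finset.mem_map.1 hj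
        have h3 : h j' = h j := h2
        rw [← hhf j, ← h3, hhf]
        exact hj'
      · intro hj
        exact Finset.mem_map.2 ⟨j, hj, rfl⟩
    rw [← h1]
    exact (e ⟨_, hT⟩).2
  · have h1 : T.map (⟨h, f, hhf, hfh⟩ : β ≃ α).toEmbedding = (e.symm ⟨T, hT⟩).1 := by
      ext i
      have h2 := key (e.symm ⟨T, hT⟩) (f i)
      rw [OrderIso.apply_symm_apply, hfh] at h2
      rw [← h2]
      constructor
      · intro hj
        obtain ⟨j', hj', h2⟩ := Finset.mem_map.1 hj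
        have h3 : h j' = i := h2
        rw [← h3]
        show f (h j') ∈ T
        rw [hhf]
        exact hj'
      · intro hj
        exact Finset.mem_map.2 ⟨f i, hj, hfh i⟩
    rw [h1]
    exact (e.symm ⟨T, hT⟩).2

end ISO1

/-- **ISO1** -/
theorem t_ISO1 (hR : S_REL) : S_ISO1 := by
  intro k n hk hkn ι _ _ p hp ⟨e⟩
  obtain ⟨g, hg⟩ := ISO1.exists_equiv (IsFace p) (IsFace (std k n)) (fun T h => h.1) hp.2
    (fun T h => h.1) (fun S => ((t_FCS k n hk hkn).1 {S}).2 (Or.inl ⟨S, rfl⟩)) e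
  obtain ⟨h1, h2, h3⟩ := hR ι (Sub k n) (n - 1) p g
  refine ⟨p ∘ g, ⟨h2.trans hp.1, fun T => (h1 T).trans (hg T)⟩, fun j => (h3 j).symm⟩

end Pool.Agent.CB
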