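import Pool.Agent.CB.StmIso

/-! Project CB, piece ISO2: from an isomorphism of face lattices to a labelled realization of the dual. -/

set_option autoImplicit false

namespace Pool.Agent.CB

open Finset Module

namespace ISO2

variable {k n : ℕ}

/-- the facet `x_m = 0` (for `false`) or `x_m = 1` (for `true`) of the hypersimplex -/
def fi (k : ℕ) {n : ℕ} (i : Fin n × Bool) : Finset (Sub k n) :=
  fc k (if i.2 then ∅ else {i.1}) (if i.2 then {i.1} else ∅)

theorem sub_fi (F : Finset (Sub k n)) (i : Fin n × Bool) : F ⊆ fi k i ↔ Has F i := by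
  obtain ⟨m, b⟩ := i
  unfold fi fc Has
  cases b
  · simp [Finset.subset_iff]
  · simp [Finset.subset_iff]

theorem fc_empty : fc k (∅ : Finset (Fin n)) ∅ = univ := by
  unfold fc
  simp

theorem cond (hk : 2 ≤ k) (hn : k + 2 ≤ n) (i : Fin n × Bool) :
    Disjoint (if i.2 then ∅ else {i.1} : Finset (Fin n)) (if i.2 then {i.1} else ∅) ∧
    (if i.2 then ∅ else {i.1} : Finset (Fin n)).card + k + 1 ≤ n ∧
    (if i.2 then {i.1} else ∅ : Finset (Fin n)).card + 1 ≤ k := by
  obtain ⟨m, b⟩ := i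
  cases b
  · simp
    omega
  · simp
    omega

theorem face_fi (hF : S_FCS) (hk : 2 ≤ k) (hn : k + 2 ≤ n) (i : Fin n × Bool) :
    IsFace (std k n) (fi k i) := by
  obtain ⟨f1, -, -⟩ := hF k n (by omega) (by omega)
  obtain ⟨c1, c2, c3⟩ := cond hk hn i
  exact (f1 _).2 (Or.inr ⟨_, _, c1, c2, c3, rfl⟩)

theorem fi_ne (hF : S_FCS) (hk : 2 ≤ k) (hn : k + 2 ≤ n) (i : Fin n × Bool) :
    fi k i ≠ (univ : Finset (Sub k n)) := by
  obtain ⟨-, f2, -⟩ := hF k n (by omega) (by omega)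
  obtain ⟨c1, c2, c3⟩ := cond hk hn i
  intro h
  have h1 : fc k (∅ : Finset (Fin n)) ∅ ⊆ fi k i := by rw [fc_empty, h]
  have h2 := (f2 ∅ ∅ _ _ (disjoint_empty_left _) (by simp; omega) (by simp; omega) c1 c2 c3).1 h1
  obtain ⟨m, b⟩ := i
  cases b
  · simp at h2
  · simp at h2

theorem fi_max (hF : S_FCS) (hk : 2 ≤ k) (hn : k + 2 ≤ n) (i : Fin n × Bool)
    (T : Finset (Sub k n)) (hT : IsFace (std k n) T) (hT1 : T ≠ univ) (h : fi k i ⊆ T) :
    T = fi k i := by
  obtain ⟨f1, f2, f3⟩ := hF k n (by omega) (by omega)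
  obtain ⟨c1, c2, c3⟩ := cond hk hn i
  rcases (f1 T).1 hT with ⟨S, rfl⟩ | ⟨A, B, d1, d2, d3, rfl⟩
  · have h1 := f3 _ _ c1 c2 c3
    have h2 := card_le_card h
    rw [card_singleton] at h2
    unfold fi at h2
    omega
  · have h2 := (f2 _ _ A B c1 c2 c3 d1 d2 d3).1 h
    obtain ⟨m, b⟩ := i
    cases b
    · simp only [Bool.false_eq_true, if_false, subset_empty, subset_singleton_iff] at h2
      obtain ⟨h3 | h3, h4⟩ := h2
      · subst h3 h4
        exact absurd fc_empty hT1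
      · subst h3 h4
        simp [fi]
    · simp only [if_true, subset_empty, subset_singleton_iff] at h2
      obtain ⟨h3, h4 | h4⟩ := h2
      · subst h3 h4
        exact absurd fc_empty hT1
      · subst h3 h4
        simp [fi]

theorem exists_fi (hF : S_FCS) (hk : 2 ≤ k) (hn : k + 2 ≤ n)
    (T : Finset (Sub k n)) (hT : IsFace (std k n) T) (hT1 : T ≠ univ) : ∃ i, T ⊆ fi k i := by
  obtain ⟨f1, -, -⟩ := hF k n (by omega) (by omega)
  rcases (f1 T).1 hT with ⟨S, rfl⟩ | ⟨A, B, d1, d2, d3, rfl⟩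
  · have h1 : S.1.Nonempty := by
      rw [← card_pos, S.2]
      omega
    obtain ⟨m, hm⟩ := h1
    refine ⟨(m, true), ?_⟩
    rw [sub_fi]
    intro S' hS'
    rw [mem_singleton] at hS'
    subst hS'
    simp [hm]
  · by_cases hA : A.Nonempty
    · obtain ⟨m, hm⟩ := hA
      refine ⟨(m, false), ?_⟩
      rw [sub_fi]
      intro S hS
      unfold fc at hS
      rw [mem_filter] at hS
      have : m ∉ S.1 := fun h => disjoint_left.1 hS.2.1 hm h
      simp [this]
    · by_cases hB : B.Nonempty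
      · obtain ⟨m, hm⟩ := hB
        refine ⟨(m, true), ?_⟩
        rw [sub_fi]
        intro S hS
        unfold fc at hS
        rw [mem_filter] at hS
        have : m ∈ S.1 := hS.2.2 hm
        simp [this]
      · rw [not_nonempty_iff_eq_empty] at hA hB
        subst hA hB
        exact absurd fc_empty hT1

theorem fi_inj (hF : S_FCS) (hk : 2 ≤ k) (hn : k + 2 ≤ n) {i j : Fin n × Bool}
    (h : fi k i = fi k j) : i = j := by
  obtain ⟨-, f2, -⟩ := hF k n (by omega) (by omega)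
  obtain ⟨c1, c2, c3⟩ := cond hk hn i
  obtain ⟨d1, d2, d3⟩ := cond hk hn j
  have h2 := (f2 _ _ _ _ c1 c2 c3 d1 d2 d3).1 h.le
  obtain ⟨m, b⟩ := i
  obtain ⟨m', b'⟩ := j
  cases b <;> cases b'
  · simp at h2
    rw [h2]
  · simp at h2
  · simp at h2
  · simp at h2
    rw [h2]

theorem main (hR : S_REL) (hF : S_FCS) (hk : 2 ≤ k) (hn : k + 2 ≤ n) (ι : Type) [Fintype ι]
    [DecidableEq ι] (p : ι → Fin (n - 1) → ℚ) (hP : Polytope p)
    (e : {T : Finset ι // IsFace p T ∧ T ≠ univ} ≃o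
      ({T : Finset (Sub k n) // IsFace (std k n) T ∧ T ≠ univ})ᵒᵈ) :
    ∃ q : Fin n × Bool → Fin (n - 1) → ℚ, RealDual k q ∧ ∀ j, chowBetti p j = chowBetti q j := by
  classical
  have hne : ∀ i : ι, ({i} : Finset ι) ≠ univ := by
    intro i h
    have h1 := hP.1
    rw [← h] at h1
    have h2 : lin p {i} = ⊥ := by
      unfold lin
      rw [Submodule.span_eq_bot]
      rintro x ⟨a, ha, b, hb, rfl⟩
      rw [mem_singleton] at ha hb
      rw [ha, hb, sub_self]
    rw [h2] at h1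
    have h3 : Nontrivial (Fin (n - 1) → ℚ) := by
      have : Nonempty (Fin (n - 1)) := ⟨⟨0, by omega⟩⟩
      infer_instance
    exact bot_ne_top h1
  set a : ι → {T : Finset ι // IsFace p T ∧ T ≠ univ} := fun i => ⟨{i}, hP.2 i, hne i⟩ with ha
  set Fi : Fin n × Bool → {T : Finset (Sub k n) // IsFace (std k n) T ∧ T ≠ univ} :=
    fun i => ⟨fi k i, face_fi hF hk hn i, fi_ne hF hk hn i⟩ with hFi
  have hle : ∀ (x : ι) (t : {T : Finset ι // IsFace p T ∧ T ≠ univ}), a x ≤ t ↔ x ∈ t.1 := by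
    intro x t
    show ({x} : Finset ι) ⊆ t.1 ↔ _
    rw [singleton_subset_iff]
  have hord : ∀ s t : {T : Finset ι // IsFace p T ∧ T ≠ univ}, s ≤ t ↔
      (OrderDual.ofDual (e t)).1 ⊆ (OrderDual.ofDual (e s)).1 := by
    intro s t
    rw [← e.le_iff_le]
    exact Iff.rfl
  -- every facet comes from a vertex
  have h3 : ∀ i, ∃ x, OrderDual.ofDual (e (a x)) = Fi i := by
    intro i
    obtain ⟨t, ht⟩ : ∃ t, t = e.symm (OrderDual.toDual (Fi i)) := ⟨_, rfl⟩
    have ht' : OrderDual.ofDual (e t) = Fi i := by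
      rw [ht, e.apply_symm_apply]
      rfl
    obtain ⟨x, hx⟩ := t.2.1.1
    refine ⟨x, ?_⟩
    have h4 := (hord _ _).1 ((hle x t).2 hx)
    rw [ht'] at h4
    have h5 := (OrderDual.ofDual (e (a x))).2
    exact Subtype.ext (fi_max hF hk hn i _ h5.1 h5.2 h4)
  choose g₀ hg₀ using h3
  have hinj : Function.Injective g₀ := by
    intro i j h
    have h4 : Fi i = Fi j := by rw [← hg₀ i, ← hg₀ j, h]
    exact fi_inj hF hk hn (congrArg (fun z => z.1) h4)
  have hsurj : Function.Surjective g₀ := by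
    intro x
    have h5 := (OrderDual.ofDual (e (a x))).2
    obtain ⟨i, hi⟩ := exists_fi hF hk hn _ h5.1 h5.2
    refine ⟨i, ?_⟩
    have h6 : a (g₀ i) ≤ a x := by
      rw [hord, hg₀ i]
      exact hi
    rw [hle] at h6
    exact mem_singleton.1 h6
  obtain ⟨g, hg⟩ : ∃ g : Fin n × Bool ≃ ι, ∀ i, g i = g₀ i :=
    ⟨Equiv.ofBijective g₀ ⟨hinj, hsurj⟩, fun i => rfl⟩
  have key : ∀ (i : Fin n × Bool) (t : {T : Finset ι // IsFace p T ∧ T ≠ univ}),
      g i ∈ t.1 ↔ Has (OrderDual.ofDual (e t)).1 i := by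
    intro i t
    rw [← hle, hord, hg, hg₀, ← sub_fi]
  obtain ⟨r1, r2, r3⟩ := hR ι (Fin n × Bool) (n - 1) p g
  refine ⟨p ∘ g, ⟨by rw [r2]; exact hP.1, fun T => ?_⟩, fun j => (r3 j).symm⟩
  constructor
  · intro hT
    rw [r1] at hT
    by_cases hu : T.map g.toEmbedding = univ
    · left
      ext i
      have h7 : g i ∈ T.map g.toEmbedding := by rw [hu]; exact mem_univ _
      rw [mem_map_equiv, g.symm_apply_apply] at h7
      simp [h7]
    · right
      refine ⟨_, (OrderDual.ofDual (e ⟨_, hT, hu⟩)).2.1, (OrderDual.ofDual (e ⟨_, hT, hu⟩)).2.2, ?_⟩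
      ext i
      rw [mem_filter, ← key i ⟨_, hT, hu⟩]
      show _ ↔ _ ∧ g i ∈ T.map g.toEmbedding
      rw [mem_map_equiv, g.symm_apply_apply]
      simp
  · rintro (hT | ⟨F, hF1, hF2, hT⟩)
    · subst hT
      refine ⟨⟨(⟨0, by omega⟩, true), mem_univ _⟩, 0, fun i => ?_⟩
      simp
    · rw [r1]
      obtain ⟨t, ht⟩ : ∃ t, t = e.symm (OrderDual.toDual ⟨F, hF1, hF2⟩) := ⟨_, rfl⟩
      have ht' : (OrderDual.ofDual (e t)).1 = F := by
        rw [ht, e.apply_symm_apply]
        rfl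
      have h8 : T.map g.toEmbedding = t.1 := by
        ext x
        obtain ⟨i, rfl⟩ := g.surjective x
        rw [mem_map_equiv, g.symm_apply_apply, key i t, ht', hT, mem_filter]
        simp
      rw [h8]
      exact t.2.1

end ISO2

theorem t_ISO2 (hR : S_REL) (hF : S_FCS) : S_ISO2 := by
  rintro k n hk hn ι _ _ p hP ⟨e⟩
  exact ISO2.main hR hF hk hn ι p hP e

end Pool.Agent.CB
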