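import Pool.Agent.CB.StmIso

/-!
# Project CB, piece ISO3: the simplices
-/

set_option autoImplicit false

namespace Pool.Agent.CB

open Finset Module

namespace ISO3

/-- two `k`-subsets meet in `k - 1` elements if they are different, for `k = 1` and `k = n - 1` -/
theorem inter_card {k n : ℕ} (hk : 1 ≤ k) (hkn : k < n) (h : k = 1 ∨ k = n - 1) (S S' : Sub k n) :
    (S.1 ∩ S'.1).card = (k - 1) + if S = S' then 1 else 0 := by
  by_cases hS : S = S'
  · subst hS
    rw [if_pos rfl, inter_self, S.2]
    omega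
  · rw [if_neg hS, add_zero]
    have hne : S.1 ≠ S'.1 := fun h => hS (Subtype.ext h)
    have hlt : (S.1 ∩ S'.1).card < k := by
      by_contra hc
      rw [not_lt] at hc
      have h1 : S.1 ∩ S'.1 = S.1 := eq_of_subset_of_card_le inter_subset_left (by rw [S.2]; exact hc)
      have h2 : S.1 ∩ S'.1 = S'.1 := eq_of_subset_of_card_le inter_subset_right (by rw [S'.2]; exact hc)
      exact hne (h1.symm.trans h2)
    have hun : (S.1 ∪ S'.1).card ≤ n := by
      have := card_le_univ (S.1 ∪ S'.1)
      simpa using this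
    have h3 := card_union_add_card_inter S.1 S'.1
    rw [S.2, S'.2] at h3
    rcases h with h | h
    · omega
    · omega

/-- the functional `x ↦ ∑ S₀ ∉ T, ∑ m ∈ S₀, x m` -/
noncomputable def fn {k n : ℕ} (T : Finset (Sub k n)) : (Fin n → ℚ) →ₗ[ℚ] ℚ :=
  ∑ S₀ ∈ Tᶜ, ∑ m ∈ S₀.1, LinearMap.proj m

theorem fn_std {k n : ℕ} (hk : 1 ≤ k) (hkn : k < n) (h : k = 1 ∨ k = n - 1) (T : Finset (Sub k n))
    (S : Sub k n) : fn T (std k n S) = (Tᶜ.card : ℚ) * ((k - 1 : ℕ) : ℚ) + if S ∈ T then 0 else 1 := by
  unfold fn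
  rw [LinearMap.sum_apply]
  have h1 : ∀ S₀ ∈ Tᶜ, (∑ m ∈ S₀.1, LinearMap.proj m : (Fin n → ℚ) →ₗ[ℚ] ℚ) (std k n S) =
      ((k - 1 : ℕ) : ℚ) + if S = S₀ then 1 else 0 := by
    intro S₀ _
    rw [LinearMap.sum_apply]
    have h2 : ∑ m ∈ S₀.1, (LinearMap.proj m : (Fin n → ℚ) →ₗ[ℚ] ℚ) (std k n S) =
        ((S.1 ∩ S₀.1).card : ℚ) := by
      simp only [LinearMap.proj_apply, std]
      rw [Finset.sum_ite_mem, inter_comm]
      simp
    rw [h2, inter_card hk hkn h S S₀]
    push_cast
    split_ifs <;> simp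
  rw [Finset.sum_congr rfl h1, Finset.sum_add_distrib, Finset.sum_const, nsmul_eq_mul,
    Finset.sum_ite_eq]
  congr 1
  simp only [mem_compl]
  split_ifs <;> tauto

/-- all nonempty sets are faces of the simplex -/
theorem face_std {k n : ℕ} (hk : 1 ≤ k) (hkn : k < n) (h : k = 1 ∨ k = n - 1) (T : Finset (Sub k n)) :
    IsFace (std k n) T ↔ T.Nonempty := by
  refine ⟨fun hT => hT.1, fun hT => ⟨hT, fn T, fun S => ?_⟩⟩
  constructor
  · intro hS S'
    rw [fn_std hk hkn h, fn_std hk hkn h, if_pos hS]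
    split_ifs <;> simp
  · intro hS
    obtain ⟨S', hS'⟩ := hT
    have h1 := hS S'
    rw [fn_std hk hkn h, fn_std hk hkn h, if_pos hS'] at h1
    by_contra hc
    rw [if_neg hc] at h1
    linarith

theorem face_univ {ι : Type} [Fintype ι] [Nonempty ι] {d : ℕ} (p : ι → Fin d → ℚ) : IsFace p univ :=
  ⟨univ_nonempty, 0, fun i => by simp⟩

end ISO3

open ISO3

theorem t_ISO3 (hR : S_REL) : S_ISO3 := by
  classical
  intro k n hk hkn h ι _ _ p hp ⟨e⟩
  have hcard : Fintype.card (Sub k n) = n := by
    rw [Fintype.card_finset_len, Fintype.card_fin]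
    rcases h with h | h
    · subst h; simp
    · subst h
      have := Nat.choose_symm (n := n) (k := 1) (by omega)
      simpa using this
  have hn : 2 ≤ n := by omega
  -- the complement of a point
  have hcne : ∀ S : Sub k n, ({S}ᶜ : Finset (Sub k n)).Nonempty := by
    intro S
    rw [← card_pos, card_compl, card_singleton, hcard]
    omega
  have hcnu : ∀ S : Sub k n, ({S}ᶜ : Finset (Sub k n)) ≠ univ := by
    intro S hS
    have : S ∈ ({S}ᶜ : Finset (Sub k n)) := by rw [hS]; exact mem_univ _
    simp at this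
  let c : Sub k n → {T : Finset (Sub k n) // IsFace (std k n) T ∧ T ≠ univ} := fun S =>
    ⟨{S}ᶜ, (face_std hk hkn h _).2 (hcne S), hcnu S⟩
  let t : Sub k n → {T : Finset ι // IsFace p T ∧ T ≠ univ} := fun S => e.symm (OrderDual.toDual (c S))
  -- proper faces
  have hprop : ∀ (S : Sub k n) (i : ι), i ∈ (t S).1 → ({i} : Finset ι) ≠ univ := by
    intro S i hi hu
    apply (t S).2.2
    rw [eq_univ_iff_forall]
    intro j
    have : j ∈ ({i} : Finset ι) := by rw [hu]; exact mem_univ _
    rw [mem_singleton] at this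
    rw [this]; exact hi
  -- everything below `t S` is `t S`
  have hmin : ∀ (S : Sub k n) (T : {T : Finset ι // IsFace p T ∧ T ≠ univ}), T ≤ t S → T = t S := by
    intro S T hT
    have h1 : e T ≤ OrderDual.toDual (c S) := by
      have := e.monotone hT
      simpa [t] using this
    have h2 : c S ≤ OrderDual.ofDual (e T) := h1
    have h3 : ({S}ᶜ : Finset (Sub k n)) ⊆ (OrderDual.ofDual (e T)).1 := h2
    have h4 : (OrderDual.ofDual (e T)).1 = {S}ᶜ := by
      refine (Finset.Subset.antisymm h3 ?_).symm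
      intro S' hS'
      rw [mem_compl, mem_singleton]
      rintro rfl
      apply (OrderDual.ofDual (e T)).2.2
      rw [eq_univ_iff_forall]
      intro S''
      by_cases h5 : S'' = S'
      · rw [h5]; exact hS'
      · exact h3 (by rw [mem_compl, mem_singleton]; exact h5)
    have h5 : OrderDual.ofDual (e T) = c S := Subtype.ext h4
    have h6 : e T = OrderDual.toDual (c S) := congrArg OrderDual.toDual h5
    calc T = e.symm (e T) := (e.symm_apply_apply T).symm
      _ = t S := by rw [h6]
  have hsing : ∀ S : Sub k n, ∃ i : ι, (t S).1 = {i} := by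
    intro S
    obtain ⟨i, hi⟩ := (t S).2.1.1
    refine ⟨i, ?_⟩
    have := hmin S ⟨{i}, hp.2 i, hprop S i hi⟩ (by
      change ({i} : Finset ι) ⊆ (t S).1
      rw [singleton_subset_iff]; exact hi)
    rw [← this]
  choose g hg using hsing
  have hginj : Function.Injective g := by
    intro S S' hSS
    have h1 : t S = t S' := Subtype.ext (by rw [hg, hg, hSS])
    have h2 : OrderDual.toDual (c S) = OrderDual.toDual (c S') := e.symm.injective h1
    have h3 : c S = c S' := h2
    have h4 : ({S}ᶜ : Finset (Sub k n)) = {S'}ᶜ := congrArg Subtype.val h3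
    have h5 : ({S} : Finset (Sub k n)) = {S'} := compl_injective h4
    exact singleton_injective h5
  -- the right poset below
  have hle : ∀ (S : Sub k n) (T : {T : Finset ι // IsFace p T ∧ T ≠ univ}),
      S ∉ (OrderDual.ofDual (e T)).1 ↔ g S ∈ T.1 := by
    intro S T
    constructor
    · intro hS
      have h1 : OrderDual.ofDual (e T) ≤ c S := by
        change (OrderDual.ofDual (e T)).1 ⊆ {S}ᶜ
        intro S' hS'
        rw [mem_compl, mem_singleton]
        rintro rfl
        exact hS hS'
      have h2 : OrderDual.toDual (c S) ≤ e T := h1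
      have h3 : t S ≤ T := by
        have := e.symm.monotone h2
        rwa [e.symm_apply_apply] at this
      have h4 : (t S).1 ⊆ T.1 := h3
      rw [hg, singleton_subset_iff] at h4
      exact h4
    · intro hS hS'
      have h3 : t S ≤ T := by
        change (t S).1 ⊆ T.1
        rw [hg, singleton_subset_iff]
        exact hS
      have h4 : e (t S) ≤ e T := e.monotone h3
      have h5 : OrderDual.toDual (c S) ≤ e T := by
        simpa [t] using h4
      have h6 : OrderDual.ofDual (e T) ≤ c S := h5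
      have h7 : (OrderDual.ofDual (e T)).1 ⊆ {S}ᶜ := h6
      have := h7 hS'
      simp at this
  have hNS : Nonempty (Sub k n) := by
    rw [← Fintype.card_pos_iff, hcard]; omega
  have hgsurj : Function.Surjective g := by
    intro i
    have hiu : ({i} : Finset ι) ≠ univ := by
      obtain ⟨S⟩ := hNS
      intro hu
      apply (t S).2.2
      have h1 : g S ∈ ({i} : Finset ι) := by rw [hu]; exact mem_univ _
      rw [mem_singleton] at h1
      rw [hg, h1, hu]
    let T : {T : Finset ι // IsFace p T ∧ T ≠ univ} := ⟨{i}, hp.2 i, hiu⟩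
    have h1 : (OrderDual.ofDual (e T)).1 ≠ univ := (OrderDual.ofDual (e T)).2.2
    rw [Ne, eq_univ_iff_forall, not_forall] at h1
    obtain ⟨S, hS⟩ := h1
    exact ⟨S, mem_singleton.1 ((hle S T).1 hS)⟩
  let γ : Sub k n ≃ ι := Equiv.ofBijective g ⟨hginj, hgsurj⟩
  -- all nonempty sets are faces
  have hface : ∀ T : Finset ι, IsFace p T ↔ T.Nonempty := by
    intro T
    refine ⟨fun hT => hT.1, fun hT => ?_⟩
    by_cases hTu : T = univ
    · obtain ⟨i, -⟩ := hT
      have : Nonempty ι := ⟨i⟩
      rw [hTu]; exact face_univ p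
    let F : Finset (Sub k n) := univ.filter fun S => g S ∉ T
    have hF1 : F.Nonempty := by
      have h1 := hTu
      rw [eq_univ_iff_forall, not_forall] at h1
      obtain ⟨i, hi⟩ := h1
      obtain ⟨S, rfl⟩ := hgsurj i
      exact ⟨S, mem_filter.2 ⟨mem_univ _, hi⟩⟩
    have hF2 : F ≠ univ := by
      obtain ⟨i, hi⟩ := hT
      obtain ⟨S, rfl⟩ := hgsurj i
      intro hu
      have : S ∈ F := by rw [hu]; exact mem_univ _
      exact (mem_filter.1 this).2 hi
    let T' := e.symm (OrderDual.toDual ⟨F, (face_std hk hkn h F).2 hF1, hF2⟩)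
    have hT' : T'.1 = T := by
      ext i
      obtain ⟨S, rfl⟩ := hgsurj i
      rw [← hle S T']
      have h1 : (OrderDual.ofDual (e T')).1 = F := by
        have : e T' = OrderDual.toDual ⟨F, (face_std hk hkn h F).2 hF1, hF2⟩ := e.apply_symm_apply _
        rw [this]
        rfl
      rw [h1, mem_filter]
      simp
    rw [← hT']
    exact T'.2.1
  obtain ⟨h1, h2, h3⟩ := hR ι (Sub k n) (n - 1) p γ
  refine ⟨p ∘ γ, ⟨?_, fun T => ?_⟩, fun j => (h3 j).symm⟩
  · rw [h2]; exact hp.1
  · rw [h1, hface, face_std hk hkn h, Finset.map_nonempty]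

end Pool.Agent.CB
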