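import Pool.Agent.CB.StmIso

set_option autoImplicit false

/-!
Project CB (helper99), piece REL (by helper39): renaming the vertices.
-/

namespace Pool.Agent.CB

open Finset Module

namespace REL

variable {ι ι' : Type} {d : ℕ}

theorem face_iff (p : ι → Fin d → ℚ) (g : ι' ≃ ι) (T : Finset ι') :
    IsFace (p ∘ g) T ↔ IsFace p (T.map g.toEmbedding) := by
  unfold IsFace
  refine and_congr (Finset.map_nonempty).symm (exists_congr fun f => ?_)
  constructor
  · intro h i
    rw [Finset.mem_map_equiv, h (g.symm i)]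
    simp only [Function.comp_apply, Equiv.apply_symm_apply]
    exact ⟨fun h j => by simpa using h (g.symm j), fun h j => h (g j)⟩
  · intro h i
    have h1 := h (g i)
    rw [Finset.mem_map_equiv, Equiv.symm_apply_apply] at h1
    rw [h1]
    simp only [Function.comp_apply]
    exact ⟨fun h j => h (g j), fun h j => by simpa using h (g.symm j)⟩

theorem lin_map (p : ι → Fin d → ℚ) (g : ι' ≃ ι) (T : Finset ι') :
    lin (p ∘ g) T = lin p (T.map g.toEmbedding) := by
  unfold lin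
  refine congrArg _ (Set.ext fun x => ?_)
  constructor
  · rintro ⟨i, hi, j, hj, rfl⟩
    exact ⟨g i, Finset.mem_map_of_mem _ hi, g j, Finset.mem_map_of_mem _ hj, rfl⟩
  · rintro ⟨i, hi, j, hj, rfl⟩
    rw [Finset.mem_map_equiv] at hi hj
    refine ⟨g.symm i, hi, g.symm j, hj, ?_⟩
    simp only [Function.comp_apply, Equiv.apply_symm_apply]

theorem dim_map (p : ι → Fin d → ℚ) (g : ι' ≃ ι) (T : Finset ι') :
    dim (p ∘ g) T = dim p (T.map g.toEmbedding) := by
  unfold dim
  rw [lin_map]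

theorem normal_iff (p : ι → Fin d → ℚ) (g : ι' ≃ ι) (F G : Finset ι')
    (ν : (Fin d → ℚ) →ₗ[ℚ] ℚ) :
    Normal (p ∘ g) F G ν ↔ Normal p (F.map g.toEmbedding) (G.map g.toEmbedding) ν := by
  unfold Normal
  rw [lin_map, lin_map]
  refine and_congr Iff.rfl (and_congr ?_ Iff.rfl)
  constructor
  · intro h i hi j hj
    rw [Finset.mem_map_equiv] at hi hj
    have h1 := h _ hi _ hj
    simpa only [Function.comp_apply, Equiv.apply_symm_apply] using h1
  · intro h i hi j hj
    exact h (g i) (Finset.mem_map_of_mem _ hi) (g j) (Finset.mem_map_of_mem _ hj)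

/-- the bijection of the faces -/
def E (p : ι → Fin d → ℚ) (g : ι' ≃ ι) (j : ℕ) : FaceOf (p ∘ g) j ≃ FaceOf p j :=
  g.finsetCongr.subtypeEquiv fun T => by
    rw [Equiv.finsetCongr_apply, face_iff, dim_map]

theorem E_val (p : ι → Fin d → ℚ) (g : ι' ≃ ι) (j : ℕ) (F : FaceOf (p ∘ g) j) :
    (E p g j F).1 = F.1.map g.toEmbedding := rfl

theorem L_apply (p : ι → Fin d → ℚ) (g : ι' ≃ ι) (j : ℕ) (r : FaceOf (p ∘ g) j →₀ ℚ)
    (F : FaceOf (p ∘ g) j) : (Finsupp.domLCongr (R := ℚ) (M := ℚ) (E p g j) r) (E p g j F) = r F := by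
  show (Finsupp.equivMapDomain (E p g j) r) (E p g j F) = r F
  rw [Finsupp.equivMapDomain_apply, Equiv.symm_apply_apply]

theorem rel_iff (p : ι → Fin d → ℚ) (g : ι' ≃ ι) (j : ℕ) (r : FaceOf (p ∘ g) j →₀ ℚ) :
    IsRelation (p ∘ g) j r ↔
      IsRelation p j (Finsupp.domLCongr (R := ℚ) (M := ℚ) (E p g j) r) := by
  have key : ∀ (G : Finset ι') (u : Fin d → ℚ),
      (∀ F : FaceOf (p ∘ g) j, (¬ F.1 ⊆ G → r F = 0) ∧
        (F.1 ⊆ G → ∃ ν, Normal (p ∘ g) F.1 G ν ∧ r F = ν u)) ↔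
      (∀ F : FaceOf p j, (¬ F.1 ⊆ G.map g.toEmbedding →
          (Finsupp.domLCongr (R := ℚ) (M := ℚ) (E p g j) r) F = 0) ∧
        (F.1 ⊆ G.map g.toEmbedding → ∃ ν, Normal p F.1 (G.map g.toEmbedding) ν ∧
          (Finsupp.domLCongr (R := ℚ) (M := ℚ) (E p g j) r) F = ν u)) := by
    intro G u
    rw [← (E p g j).forall_congr_right]
    refine forall_congr' fun F => ?_
    rw [L_apply, E_val, Finset.map_subset_map]
    refine and_congr Iff.rfl (imp_congr Iff.rfl (exists_congr fun ν => ?_))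
    rw [normal_iff]
  constructor
  · rintro ⟨G, h1, h2, u, hu, hi, h⟩
    refine ⟨G.map g.toEmbedding, (face_iff p g G).1 h1, ?_, u, ?_, hi, (key G u).1 h⟩
    · rw [← dim_map]
      exact h2
    · rw [← lin_map]
      exact hu
  · rintro ⟨G₀, h1, h2, u, hu, hi, h⟩
    obtain ⟨G, rfl⟩ : ∃ G : Finset ι', G₀ = G.map g.toEmbedding :=
      ⟨g.finsetCongr.symm G₀, (g.finsetCongr.apply_symm_apply G₀).symm⟩
    refine ⟨G, (face_iff p g G).2 h1, ?_, u, ?_, hi, (key G u).2 h⟩
    · rw [dim_map]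
      exact h2
    · rw [lin_map]
      exact hu

theorem chow (p : ι → Fin d → ℚ) (g : ι' ≃ ι) (j : ℕ) : chowBetti (p ∘ g) j = chowBetti p j := by
  unfold chowBetti
  refine LinearEquiv.finrank_eq (Submodule.Quotient.equiv _ _
    (Finsupp.domLCongr (R := ℚ) (M := ℚ) (E p g j)) ?_)
  rw [Submodule.map_span]
  refine congrArg _ (Set.ext fun r => ?_)
  constructor
  · rintro ⟨r', hr', rfl⟩
    exact (rel_iff p g j r').1 hr'
  · intro hr
    refine ⟨(Finsupp.domLCongr (R := ℚ) (M := ℚ) (E p g j)).symm r, ?_, ?_⟩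
    · refine (rel_iff p g j _).2 ?_
      rw [LinearEquiv.apply_symm_apply]
      exact hr
    · exact LinearEquiv.apply_symm_apply _ r

end REL

theorem t_REL : S_REL := by
  intro ι ι' _ _ _ _ d p g
  refine ⟨REL.face_iff p g, ?_, REL.chow p g⟩
  rw [REL.lin_map, Finset.map_univ_equiv]

end Pool.Agent.CB
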