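import Pool.Agent.CB.Defs

/-!
# Project CB (MP_745f23_co, full answer): the hypersimplices, statements

All realizations of `Δ(k, n)` have the same Chow-Betti numbers. Piece `X` is the theorem `t_X : S_X` in the file
`Pool/Agent/CB/X.lean` (namespace `Pool.Agent.CB`, `import Pool.Agent.CB.Stm`); pieces it uses are hypotheses,
for instance `theorem t_UPP (h1 : S_UPA) (h2 : S_UPB) (h3 : S_SWP) (h4 : S_NUM2) : S_UPP`.
-/

set_option autoImplicit false

namespace Pool.Agent.CB

open Finset Module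

section
variable {V : Type} [AddCommGroup V] [Module ℚ V] {ι : Type} [Fintype ι] [DecidableEq ι]

/-- the functionals `a m` (`m ∈ A`), `b m` (`m ∈ B`) are independent on `U`: all values are possible -/
def Sur (U : Submodule ℚ V) (a b : ι → V →ₗ[ℚ] ℚ) (A B : Finset ι) : Prop :=
  ∀ f g : ι → ℚ, ∃ u ∈ U, (∀ m ∈ A, a m u = f m) ∧ ∀ m ∈ B, b m u = g m

/-- independence of the functionals of all pairs with `card N - 1` elements, at least `s` in `A` and `r` in `B` -/
def Good (U : Submodule ℚ V) (a b : ι → V →ₗ[ℚ] ℚ) (N : Finset ι) (r s : ℕ) : Prop :=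
  ∀ A B : Finset ι, A ⊆ N → B ⊆ N → Disjoint A B → A.card + B.card + 1 = N.card → s ≤ A.card → r ≤ B.card →
    Sur U a b A B

/-- the weights on the pairs `(A, B)` of disjoint subsets of `N`, `card A ≤ s`, `card B ≤ r`,
`card A + card B = i` -/
def W (U : Submodule ℚ V) (a b : ι → V →ₗ[ℚ] ℚ) (N : Finset ι) (r s i : ℕ) :
    Submodule ℚ (Finset ι × Finset ι → ℚ) where
  carrier := {w | (∀ A B, w (A, B) ≠ 0 → A ⊆ N ∧ B ⊆ N ∧ Disjoint A B ∧ A.card ≤ s ∧ B.card ≤ r ∧
      A.card + B.card = i) ∧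
    ∀ A B, A ⊆ N → B ⊆ N → Disjoint A B → A.card + B.card + 1 = i → ∀ u ∈ U, (∀ m ∈ A, a m u = 0) →
      (∀ m ∈ B, b m u = 0) →
      ∑ m ∈ N \ (A ∪ B), (a m u * w (insert m A, B) + b m u * w (A, insert m B)) = 0}
  add_mem' := by
    rintro w w' ⟨h1, h2⟩ ⟨h1', h2'⟩
    refine ⟨fun A B h => ?_, fun A B hA hB hd hc u hu ha hb => ?_⟩
    · by_cases h3 : w (A, B) = 0
      · exact h1' A B fun h4 => h (by rw [Pi.add_apply, h3, h4, add_zero])
      · exact h1 A B h3
    · rw [← add_zero (0 : ℚ)]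
      nth_rewrite 1 [← h2 A B hA hB hd hc u hu ha hb]
      rw [← h2' A B hA hB hd hc u hu ha hb, ← Finset.sum_add_distrib]
      refine Finset.sum_congr rfl fun m _ => ?_
      simp only [Pi.add_apply]
      ring
  zero_mem' := ⟨fun A B h => absurd rfl h, fun A B _ _ _ _ u _ _ _ => by simp⟩
  smul_mem' := by
    rintro c w ⟨h1, h2⟩
    refine ⟨fun A B h => h1 A B fun h3 => h (by rw [Pi.smul_apply, h3, smul_zero]),
      fun A B hA hB hd hc u hu ha hb => ?_⟩
    rw [← mul_zero c, ← h2 A B hA hB hd hc u hu ha hb, Finset.mul_sum]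
    refine Finset.sum_congr rfl fun m _ => ?_
    simp only [Pi.smul_apply, smul_eq_mul]
    ring

/-- the functions `w` with `w (A, B) = 0` if `x ∈ A` -/
def Z (x : ι) : Submodule ℚ (Finset ι × Finset ι → ℚ) where
  carrier := {w | ∀ A B, x ∈ A → w (A, B) = 0}
  add_mem' := fun {w w'} h h' A B hx => by rw [Pi.add_apply, h A B hx, h' A B hx, add_zero]
  zero_mem' := fun A B _ => rfl
  smul_mem' := fun c w h A B hx => by rw [Pi.smul_apply, h A B hx, smul_zero]

/-- the weights on all monomials `x ^ e y ^ f` of degree `l` with support in the complex `card A ≤ s`, `card B ≤ r` -/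
def R (U : Submodule ℚ V) (a b : ι → V →ₗ[ℚ] ℚ) (r s l : ℕ) : Submodule ℚ ((ι → ℕ) × (ι → ℕ) → ℚ) where
  carrier := {φ | (∀ e f, φ (e, f) ≠ 0 → (∀ m, e m = 0 ∨ f m = 0) ∧ (univ.filter fun m => e m ≠ 0).card ≤ s ∧
      (univ.filter fun m => f m ≠ 0).card ≤ r ∧ ∑ m, e m + ∑ m, f m = l) ∧
    ∀ e f, ∀ u ∈ U, ∑ m, (a m u * φ (e + Pi.single m 1, f) + b m u * φ (e, f + Pi.single m 1)) = 0}
  add_mem' := by
    rintro w w' ⟨h1, h2⟩ ⟨h1', h2'⟩
    refine ⟨fun A B h => ?_, fun A B u hu => ?_⟩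
    · by_cases h3 : w (A, B) = 0
      · exact h1' A B fun h4 => h (by rw [Pi.add_apply, h3, h4, add_zero])
      · exact h1 A B h3
    · rw [← add_zero (0 : ℚ)]
      nth_rewrite 1 [← h2 A B u hu]
      rw [← h2' A B u hu, ← Finset.sum_add_distrib]
      refine Finset.sum_congr rfl fun m _ => ?_
      simp only [Pi.add_apply]
      ring
  zero_mem' := ⟨fun A B h => absurd rfl h, fun A B u _ => by simp⟩
  smul_mem' := by
    rintro c w ⟨h1, h2⟩
    refine ⟨fun A B h => h1 A B fun h3 => h (by rw [Pi.smul_apply, h3, smul_zero]), fun A B u hu => ?_⟩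
    rw [← mul_zero c, ← h2 A B u hu, Finset.mul_sum]
    refine Finset.sum_congr rfl fun m _ => ?_
    simp only [Pi.smul_apply, smul_eq_mul]
    ring

end

/-- **UPA** (100 lines). For `s = 0` trivial (`W ≤ Z x`). Otherwise the map `w ↦ w'`,
`w' (A, B) = if x ∈ A ∨ x ∈ B then 0 else w (insert x A, B)` goes from `W U a b (insert x N) r s i` to
`W (U ⊓ ker (a x)) a b N r (s - 1) (i - 1)`: for `u ∈ U`, `a x u = 0` the relation of `(insert x A, B)` is that of
`(A, B)`; its kernel is `W ⊓ Z x` (`w (A, B) ≠ 0`, `x ∈ A` gives `x ∉ B`). Rank-nullity. (`i = 0`: `W ≤ Z x`.) -/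
def S_UPA : Prop :=
  ∀ (V : Type) [AddCommGroup V] [Module ℚ V] (ι : Type) [Fintype ι] [DecidableEq ι] (U : Submodule ℚ V)
    (a b : ι → V →ₗ[ℚ] ℚ) (N : Finset ι) (x : ι) (r s i : ℕ), x ∉ N → 1 ≤ i →
    finrank ℚ (W U a b (insert x N) r s i) ≤
      (if s = 0 then 0 else finrank ℚ (W (U ⊓ LinearMap.ker (a x)) a b N r (s - 1) (i - 1))) +
      finrank ℚ (W U a b (insert x N) r s i ⊓ Z x : Submodule ℚ (Finset ι × Finset ι → ℚ))

/-- **UPB** (200 lines). Let `w ∈ W ⊓ Z x`. (1) If `x ∉ A`, `x ∉ B`, `card B = r` and `A ≠ ∅` then `w (A, B) = 0`: let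
`m₀ ∈ A`, `A' = A \ {m₀}`, `T = N \ B`, enlarge: `A ⊆ T`, and take `A'' ⊆ T`, `A ⊆ A''`, such that
`A''.card + B.card + 1 = N.card + 1` (namely `A'' = T`; `T.card = N.card - r ≥ s`), so by `Good` there is `u ∈ U` with
`a m₀ u = 1`, `a m u = 0` for the other `m ∈ T` and `b m u = 0` for `m ∈ B`; the relation of `(A', B)` for `u` is
`w (A, B) = 0`, as `w (insert x A', B) = 0`, `w (A', insert m B) = 0` (`card > r`). (2) If `w (A, B) = 0` for all
`A, B ∌ x` then `w = 0`: for `x ∈ B`, `B = insert x B'`, use the relation of `(A, B')` for a `u` with `b x u = 1`,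
`a m u = 0` (`m ∈ A`), `b m u = 0` (`m ∈ B'`) (exists by `Good`: enlarge `(A, B)` to a pair with `N.card` elements,
at least `s` in the first and `r` in the second; possible as `card A ≤ s`, `card B ≤ r` — if this pair has `s` and `r`
elements and `N.card = r + s + 1` add one more element to the first set). (3) The map
`w ↦ (w (∅, B))` for the `B ⊆ N` with `card B = r` (only if `i = r`) has a kernel which embeds into
`W (U ⊓ ker (b x)) a b N (r - 1) s i` (`0` if `r = 0`) by `w ↦ w'`, `w' (A, B) = w (A, B)` if `x ∉ A`, `x ∉ B`, `card B < r`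
and `0` otherwise: relations for `u ∈ U` with `b x u = 0`. -/
def S_UPB : Prop :=
  ∀ (V : Type) [AddCommGroup V] [Module ℚ V] (ι : Type) [Fintype ι] [DecidableEq ι] (U : Submodule ℚ V)
    (a b : ι → V →ₗ[ℚ] ℚ) (N : Finset ι) (x : ι) (r s i : ℕ), x ∉ N → 1 ≤ i → r + s ≤ N.card →
    N.card ≤ r + s + 1 → Good U a b (insert x N) r s →
    finrank ℚ (W U a b (insert x N) r s i ⊓ Z x : Submodule ℚ (Finset ι × Finset ι → ℚ)) ≤
      (if r = 0 then 0 else finrank ℚ (W (U ⊓ LinearMap.ker (b x)) a b N (r - 1) s i)) +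
      (if i = r then N.card.choose r else 0)

/-- **SWP** (50 lines). Exchange of the two kinds of functionals: `w (A, B) ↦ w (B, A)`. -/
def S_SWP : Prop :=
  ∀ (V : Type) [AddCommGroup V] [Module ℚ V] (ι : Type) [Fintype ι] [DecidableEq ι] (U : Submodule ℚ V)
    (a b : ι → V →ₗ[ℚ] ℚ) (N : Finset ι) (r s i : ℕ),
    finrank ℚ (W U a b N r s i) = finrank ℚ (W U b a N s r i) ∧ (Good U a b N r s → Good U b a N s r)

/-- **NUM2** (60 lines). Cases, with `bs n m = bs (n - 1) m + bs (n - 1) (m - 1)` (`m ≥ 1`, Pascal),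
`bs n 0 = 1`, monotonicity. (Checked by computer for all small values.) -/
def S_NUM2 : Prop :=
  ∀ n r s i : ℕ, 1 ≤ n → r ≤ s → 1 ≤ i → i ≤ r + s →
    (if s = 0 then 0 else bs (n - 1) (min (min (i - 1) (r + s - i)) (min r (s - 1)))) +
      (if r = 0 ∨ i = r + s then 0 else bs (n - 1) (min (min i (r + s - 1 - i)) (min (r - 1) s))) +
      (if i = r then (n - 1).choose r else 0) ≤ bs n (min (min i (r + s - i)) (min r s))

/-- **UPP** (120 lines, from `S_UPA`, `S_UPB`, `S_SWP`, `S_NUM2`). Induction on `N.card`. `i = 0`: `w` is supported on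
`(∅, ∅)`, so the dimension is at most one. `i > r + s` does not occur here, but `W = ⊥` then (used for the second term
if `i = r + s`). By `S_SWP` let `r ≤ s`. Choose `x ∈ N`, `N = insert x N'`, and use `S_UPA`, `S_UPB`, the induction
hypothesis (`Good (U ⊓ ker (a x)) a b N' r (s - 1)` and `Good (U ⊓ ker (b x)) a b N' (r - 1) s` follow from
`Good U a b N r s`: put `f x = 0`) and `S_NUM2`. -/
def S_UPP : Prop :=
  ∀ (V : Type) [AddCommGroup V] [Module ℚ V] (ι : Type) [Fintype ι] [DecidableEq ι] (U : Submodule ℚ V)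
    (a b : ι → V →ₗ[ℚ] ℚ) (N : Finset ι) (r s i : ℕ), r + s + 1 ≤ N.card → N.card ≤ r + s + 2 →
    Good U a b N r s → i ≤ r + s →
    finrank ℚ (W U a b N r s i) ≤ bs N.card (min (min i (r + s - i)) (min r s))

/-- **NUM1** (60 lines). Exchange the sums: `c ≤ min l (n - 1 - l)` for `n - 2 c` values of `l`, so the sum is
`∑ c ≤ min r s, (n - 2 c) * n.choose c`, and `(n - 2 c) * n.choose c = n * ((n-1).choose c - (n-1).choose (c-1))`
telescopes to `n * (n - 1).choose (min r s)`. -/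
def S_NUM1 : Prop :=
  ∀ n r s : ℕ, r + s + 1 = n →
    ∑ l ∈ range n, bs n (min (min l (n - 1 - l)) (min r s)) = n * (n - 1).choose r

/-- **SF** (120 lines). `g φ (A, B) = φ (1_A, 1_B)` if `A, B` are disjoint, and `0` otherwise. The relation: for
`m ∈ A` `a m u = 0`, and `φ (1_A, 1_B + 1_m) = 0` by the support. Injective: let `g φ = 0`; `φ (e, f) = 0` by induction on
`l - card (supp e ∪ supp f)`: if the support has `l` elements then `e, f` are indicator functions; otherwise (say)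
`e m ≥ 2`; let `A, B` be the supports, choose `u` with `a m u = 1`, `a m' u = 0` (`m' ∈ A`, `m' ≠ m`), `b m' u = 0`
(`m' ∈ B`); the relation of `(e - 1_m, f)` expresses `φ (e, f)` by values at exponents with larger support (the terms
`φ (e - 1_m, f + 1_m')`, `m' ∈ A`, and `φ (e - 1_m + 1_m', f)`, `m' ∈ B`, vanish). -/
def S_SF : Prop :=
  ∀ (V : Type) [AddCommGroup V] [Module ℚ V] (ι : Type) [Fintype ι] [DecidableEq ι] (U : Submodule ℚ V)
    (a b : ι → V →ₗ[ℚ] ℚ) (r s l : ℕ),
    (∀ A B : Finset ι, Disjoint A B → A.card ≤ s → B.card ≤ r → Sur U a b A B) →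
    ∃ g : R U a b r s l →ₗ[ℚ] W U a b univ r s l, Function.Injective g

/-- **TOT** (200 lines). A facet is a pair `σ = (A, B)` of disjoint sets with `card A = s`, `card B = r`; there are
`n * (n - 1).choose r` of them (choose the missing index). The functionals `a m` (`m ∈ A`), `b m` (`m ∈ B`) are a
basis of the dual of `V` (`Sur` and `finrank V = r + s`). Choose a functional `ε` on `V` all whose coordinates in all
these bases are nonzero (it avoids finitely many proper subspaces of the dual: `Subspace.biUnion_ne_univ_of_top_notMem`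
or similar), let `x_σ, y_σ` be the coordinates (`0` outside `A`, `B`). Put
`ψ_σ (e, f) = ∏ m, x_σ m ^ e m * y_σ m ^ f m`. Then `∑ m, (a m u * ψ_σ (e + 1_m, f) + b m u * ψ_σ (e, f + 1_m)) =
ε u * ψ_σ (e, f)`. Let `Ψ` be the span of the `ψ_σ`. They are independent already on the exponents `(1_A, 1_B)`
(`ψ_σ' (1_A, 1_B) ≠ 0` iff `σ = σ'`). Let `F_l` be the subspace of the `ψ ∈ Ψ` which vanish at the exponents of degree
`< l`; for `ψ ∈ F_l` the function which is `ψ` in degree `l` and `0` in the other degrees is in `R ⊤ a b r s l` (the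
support condition holds for each `ψ_σ`; in the relation only exponents of degree `l - 1` matter), so
`finrank (F_l) - finrank (F_{l+1}) ≤ finrank (R ⊤ a b r s l)`, and `F_n = 0` (degree `n - 1 = r + s` occurs for all
`(1_A, 1_B)`). (`R` is finite dimensional: it is a hypothesis here.) -/
def S_TOT : Prop :=
  ∀ (V : Type) [AddCommGroup V] [Module ℚ V] [FiniteDimensional ℚ V] (ι : Type) [Fintype ι] [DecidableEq ι]
    (a b : ι → V →ₗ[ℚ] ℚ) (r s : ℕ), r + s + 1 = Fintype.card ι → finrank ℚ V = r + s →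
    (∀ A B : Finset ι, Disjoint A B → A.card = s → B.card = r → Sur ⊤ a b A B) →
    (∀ l, FiniteDimensional ℚ (R ⊤ a b r s l)) →
    Fintype.card ι * (Fintype.card ι - 1).choose r ≤ ∑ l ∈ range (Fintype.card ι), finrank ℚ (R ⊤ a b r s l)

/-- **LEX** (80 lines, from `S_UPP`, `S_SF`, `S_TOT`, `S_NUM1`). Each `finrank (R ..)` is at most the value of `bs`
(`S_SF` and `S_UPP`, `Good` with `card = r + s + 1`), and the sums agree by `S_TOT`, `S_NUM1`. -/
def S_LEX : Prop :=
  ∀ (V : Type) [AddCommGroup V] [Module ℚ V] [FiniteDimensional ℚ V] (ι : Type) [Fintype ι] [DecidableEq ι]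
    (a b : ι → V →ₗ[ℚ] ℚ) (r s : ℕ), r + s + 1 = Fintype.card ι → finrank ℚ V = r + s →
    (∀ A B : Finset ι, Disjoint A B → A.card = s → B.card = r → Sur ⊤ a b A B) →
    ∀ l ≤ r + s, FiniteDimensional ℚ (R ⊤ a b r s l) ∧
      finrank ℚ (R ⊤ a b r s l) = bs (Fintype.card ι) (min (min l (r + s - l)) (min r s))

/-- the affine functionals `a m + α m`, `b m + β m` have the sign pattern of the facets of `Δ(k, n)` at the points `P S` -/
def Sign {V : Type} [AddCommGroup V] [Module ℚ V] {k n : ℕ} (P : Sub k n → V) (a b : Fin n → V →ₗ[ℚ] ℚ)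
    (α β : Fin n → ℚ) : Prop :=
  ∀ (S : Sub k n) (m : Fin n), (m ∉ S.1 → a m (P S) + α m = 0) ∧ (m ∈ S.1 → 0 < a m (P S) + α m) ∧
    (m ∈ S.1 → b m (P S) + β m = 0) ∧ (m ∉ S.1 → 0 < b m (P S) + β m)

/-- **LX** (200 lines). `D φ (e, f) = ∑ m, (α m * φ (e + 1_m, f) + β m * φ (e, f + 1_m))` maps `R ⊤ a b r (s+1) (l+1)` to
`R ⊤ a b r s l` and is injective. The relations are clear (sums commute). Support: if `e m ≠ 0`, `f m ≠ 0` or the
support of `f` has more than `r` or that of `e` more than `s + 1` elements all terms vanish. If the support `A` of `e` has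
`s + 1` elements, let `S` be the complement (`card S = r + 1`); add the relation for `u = P S`: the coefficient of
`φ (e + 1_m, f)` is `a m (P S) + α m = 0` for `m ∈ A`, and for `m ∈ S` this value of `φ` is `0`; the coefficient of
`φ (e, f + 1_m)` is `b m (P S) + β m = 0` for `m ∈ S`, and for `m ∈ A` the value is `0`. Injective: let `D φ = 0`; then the
relations hold for all `(v, t) ∈ V × ℚ` with `a m v + α m t`, `b m v + β m t`. (1) If `m₀ ∈ supp e'`, `e' = e + 1_m₀`,
`u = supp f`, `card u ≤ r`, choose `(v, t)` with value `0` for `b m`, `m ∈ u` and `δ_{m m₀}` for `a m`, `m ∉ u`: so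
`φ (e', f)` is a combination of the `φ (e, f + 1_m)`, `m ∉ u`; by induction on the degree of `e'` it remains
`φ (0, f) = 0`. (2) The degree is `l + 1 > r ≥ card (supp f)`, so `f = f' + 1_m₀` with `f' m₀ ≠ 0`; choose `(v, t)` with
value `0` for `a m`, `m ∉ u` and `δ_{m m₀}` for `b m`, `m ∈ u`: `φ (0, f)` is a combination of `φ (0, f' + 1_m)`, `m ∉ u`,
with larger supports; descending induction on the support. -/
def S_LX : Prop :=
  ∀ (V : Type) [AddCommGroup V] [Module ℚ V] (n r s l : ℕ) (a b : Fin n → V →ₗ[ℚ] ℚ) (α β : Fin n → ℚ)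
    (P : Sub (r + 1) n → V), r + s + 2 = n → r ≤ l → Sign P a b α β →
    (∀ u : Finset (Fin n), u.card ≤ r → ∀ f : Fin n → ℚ, ∃ (v : V) (t : ℚ),
      (∀ m ∉ u, a m v + α m * t = f m) ∧ ∀ m ∈ u, b m v + β m * t = f m) →
    FiniteDimensional ℚ (R ⊤ a b r s l) →
    finrank ℚ (R ⊤ a b r (s + 1) (l + 1)) ≤ finrank ℚ (R ⊤ a b r s l)

/-- **SIGN** (120 lines). The `n` functionals `b m` (`m ∈ u`), `a m` (`m ∉ u`) on `V × ℚ` (dimension `n`) are linearly
independent, hence all values are possible. Let `∑ m, c m * (..) = 0`. Evaluate at `(P S, 1)`: the terms are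
`c m * (positive)` for `m ∈ S \ u` and for `m ∈ u \ S`, the others vanish. If `c m₀ > 0` for an `m₀ ∉ u`: the set
`{m ∉ u | c m ≥ 0}` or `{m ∉ u | c m ≤ 0}` has at least `k - card u` elements, as
`n - card u ≥ 2 k - card u ≥ 2 (k - card u)`. If the first one has, take `S ⊇ u` with `S \ u` in it and `m₀ ∈ S`: the value
is positive, contradiction. So `{m ∉ u | c m ≥ 0}` has fewer than `k - card u` elements, `{m ∉ u | c m < 0}` has more
than `k - card u` elements (if `u = ∅` and `n = 2 k` too: `n - card u - (k - card u - 1) > k - card u`); take `S ⊇ u` with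
`S \ u` in the latter one: negative, contradiction. In the same way there is no `m ∉ u` with `c m < 0`. So `c = 0` outside
`u`; if `c m₀ ≠ 0` with `m₀ ∈ u`, take `S ⊇ u \ {m₀}`, `m₀ ∉ S`, `S` of size `k`: the value is `c m₀ * positive`. -/
def S_SIGN : Prop :=
  ∀ (V : Type) [AddCommGroup V] [Module ℚ V] [FiniteDimensional ℚ V] (k n : ℕ) (a b : Fin n → V →ₗ[ℚ] ℚ)
    (α β : Fin n → ℚ) (P : Sub k n → V), 1 ≤ k → 2 * k ≤ n → finrank ℚ V = n - 1 → Sign P a b α β →
    ∀ u : Finset (Fin n), u.card < k → ∀ f : Fin n → ℚ, ∃ (v : V) (t : ℚ),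
      (∀ m ∉ u, a m v + α m * t = f m) ∧ ∀ m ∈ u, b m v + β m * t = f m

/-- **SUR** (100 lines). There is `S₀` with `card S₀ = k`, `B ⊆ S₀`, `A ∩ S₀ = ∅`. Order the functionals: if
`card B < k` first the `b m` (`m ∈ B`), then the `a m` (`m ∈ A`); if `card B = k` (then `card A < n - k`) first the `a m`, then
the `b m`. In each step (earlier functionals `(A', B')`, new one `a m` or `b m`) there is a `k`-set `S'` with `B' ⊆ S'`,
`A' ∩ S' = ∅` and `m ∈ S'` (for `a m`) or `m ∉ S'` (for `b m`), by the numbers. The earlier functionals vanish on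
`P S' - P S₀` and the new one is positive there: triangular, so all values are possible (induction). -/
def S_SUR : Prop :=
  ∀ (V : Type) [AddCommGroup V] [Module ℚ V] (k n : ℕ) (a b : Fin n → V →ₗ[ℚ] ℚ)
    (α β : Fin n → ℚ) (P : Sub k n → V), 1 ≤ k → k < n → Sign P a b α β →
    ∀ A B : Finset (Fin n), Disjoint A B → A.card + B.card + 1 ≤ n → A.card ≤ n - k → B.card ≤ k →
      Sur (⊤ : Submodule ℚ V) a b A B

/-- **LOW** (150 lines, from `S_LEX`, `S_SF`, `S_LX`, `S_SIGN`, `S_SUR`, `S_SWP`). `k = r + 1`. Let `r ≤ s` first. If `i ≤ s`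
then `R ⊤ a b r s i = R ⊤ a b r (s + 1) i` (the support of `e` has at most `i` elements), its dimension is
`bs n (min (min i (r + s + 1 - i)) (min r (s + 1)))` by `S_LEX` (`r`, `s + 1`; `S_SUR`), and this is the value in
question (both minima are `min i r`). If `s < i` use `S_LX` and `S_LEX` for `R ⊤ a b r (s + 1) (i + 1)`:
`bs n (r + s - i)`. By `S_SF` `finrank W ≥ finrank R`. If `s < r` exchange `a` and `b` (`S_SWP`), with the points
`P (Sᶜ)`. -/
def S_LOW : Prop :=
  ∀ (V : Type) [AddCommGroup V] [Module ℚ V] [FiniteDimensional ℚ V] (n r s i : ℕ) (a b : Fin n → V →ₗ[ℚ] ℚ)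
    (α β : Fin n → ℚ) (P : Sub (r + 1) n → V), r + s + 2 = n → finrank ℚ V = n - 1 → Sign P a b α β → i ≤ r + s →
    bs n (min (min i (r + s - i)) (min r s)) ≤ finrank ℚ (W ⊤ a b univ r s i)

/-- **DATA** (80 lines). `{S | m ∉ S}` and `{S | m ∈ S}` are faces of `std k n` (functionals `x ↦ x m`, `x ↦ - x m`), so
faces of `p`: the functional `f` of the face is constant on it and larger elsewhere; `a m = f`,
`α m = - (the minimum)`. -/
def S_DATA : Prop :=
  ∀ (k n : ℕ), 1 ≤ k → k < n → ∀ p : Sub k n → Fin (n - 1) → ℚ, Real p →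
    ∃ (a b : Fin n → (Fin (n - 1) → ℚ) →ₗ[ℚ] ℚ) (α β : Fin n → ℚ), Sign p a b α β

/-- **LIN** (120 lines, from `S_SUR`). `⊆`: `a m` is constant on the points of the face for `m ∈ A`. The dimension of
the right-hand side is `n - 1 - card A - card B` (`S_SUR`). `⊇`: choose `S₀` in the face; enlarge `(A, B)` inside
`(S₀ᶜ, S₀)` step by step to `n - 1` functionals; in each step there is a point `P S'` of the face on which the earlier
functionals vanish and the new one does not (as in `SUR`); the `n - 1 - card A - card B` vectors `P S' - P S₀` are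
independent elements of `lin`. -/
def S_LIN : Prop :=
  ∀ (k n : ℕ) (p : Sub k n → Fin (n - 1) → ℚ) (a b : Fin n → (Fin (n - 1) → ℚ) →ₗ[ℚ] ℚ) (α β : Fin n → ℚ),
    1 ≤ k → k < n → Sign p a b α β → ∀ A B : Finset (Fin n), Disjoint A B → A.card + k + 1 ≤ n → B.card + 1 ≤ k →
    (∀ x, x ∈ lin p (fc k A B) ↔ (∀ m ∈ A, a m x = 0) ∧ ∀ m ∈ B, b m x = 0) ∧
    dim p (fc k A B) = n - 1 - A.card - B.card

/-- **FCS** (150 lines). The faces of the hypersimplex. If `T` is the set of the minima of the functional with the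
coefficients `c`, sort: there is a threshold `t` (the `k`-th smallest value) with
`#{m | c m < t} < k ≤ #{m | c m ≤ t}`, and `T = fc k {m | t < c m} {m | c m < t}`; if `#{m | c m ≤ t} = k` this is a single
set. Conversely take `c = 1` on `A`, `-1` on `B`, `0` elsewhere. The inclusions: choose suitable `k`-sets. -/
def S_FCS : Prop :=
  ∀ (k n : ℕ), 1 ≤ k → k < n →
    (∀ T : Finset (Sub k n), IsFace (std k n) T ↔ (∃ S, T = {S}) ∨ ∃ A B : Finset (Fin n), Disjoint A B ∧
      A.card + k + 1 ≤ n ∧ B.card + 1 ≤ k ∧ T = fc k A B) ∧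
    (∀ A B A' B' : Finset (Fin n), Disjoint A B → A.card + k + 1 ≤ n → B.card + 1 ≤ k → Disjoint A' B' →
      A'.card + k + 1 ≤ n → B'.card + 1 ≤ k → (fc k A B ⊆ fc k A' B' ↔ A' ⊆ A ∧ B' ⊆ B)) ∧
    (∀ A B : Finset (Fin n), Disjoint A B → A.card + k + 1 ≤ n → B.card + 1 ≤ k → 2 ≤ (fc k A B).card)

/-- **DUALW** (60 lines). The dimension of a quotient by a span is the dimension of the space of the functions
orthogonal to it (`FaceOf p j` is finite as `ι` is finite). -/
def S_DUALW : Prop :=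
  ∀ (ι : Type) [Fintype ι] [DecidableEq ι] (d : ℕ) (p : ι → Fin d → ℚ) (j : ℕ) [Fintype (FaceOf p j)]
    (M : Submodule ℚ (FaceOf p j → ℚ)),
    (∀ w, w ∈ M ↔ ∀ r : FaceOf p j →₀ ℚ, IsRelation p j r → ∑ F, r F * w F = 0) →
    chowBetti p j = finrank ℚ M

/-- **PRIM** (80 lines). The values of `f` at the integral vectors of `L` are a finitely generated nonzero subgroup of
`ℚ` (for instance contained in `(1/D) ℤ`, and a nonzero subgroup of `ℤ` is generated by its least positive element; `L`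
is spanned by integral vectors), so of the form `ℤ g` with `g > 0`; `c = 1 / g`. -/
def S_PRIM : Prop :=
  ∀ (d : ℕ) (L : Submodule ℚ (Fin d → ℚ)) (f : (Fin d → ℚ) →ₗ[ℚ] ℚ), (∃ x ∈ L, f x ≠ 0) →
    ∃ c : ℚ, 0 < c ∧ (∀ x ∈ L, Integral x → ∃ z : ℤ, c * f x = z) ∧ ∃ x ∈ L, Integral x ∧ c * f x = 1

/-- **KAP** (250 lines). Lattice indices. For a subspace `L` the integral vectors are a free module of rank `dim L`; let
`b_L` be a basis. For a finite set `σ` of independent functionals (otherwise `κ σ = 1`), `c = card σ`,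
`L = L(σ) = ⋂ ker`, the functions `det (y_1, ..., y_c, b_L)` and `det (v_ρ (y_s))` of `y_1, ..., y_c` are alternating and
vanish if some `y_s ∈ L`, so the first is `C_σ` times the second, `C_σ ≠ 0` (evaluate at the `y` with `v_ρ (y_s) = δ`);
`κ σ = 1 / |C_σ|`. Let `σ' = σ ∪ {m}`, `L' = L(σ')`, `ν` the primitive functional, `g₀ ∈ L` integral with `ν g₀ = 1`. Then
`(b_L', g₀)` is a basis of the integral vectors of `L` (`x = (x - ν x g₀) + ν x g₀`), so `C_σ` may be computed with it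
(up to sign). With `y_(c+1) = g₀`: `± C_σ det (v_ρ (y_s)) = det (y_1, .., y_c, g₀, b_L') = C_σ' v_m (g₀) det (v_ρ (y_s))`. So
`|C_σ| = |C_σ'| |v_m g₀|`; on `L` `v_m = v_m (g₀) ν` (both vanish on `L'`), `v_m (g₀) > 0` by the last hypothesis. Other
constructions of `κ` are welcome, for example the positive generator of the subgroup of `ℚ` generated by the
`det (v_ρ (x_s))`, `x_s` integral. -/
def S_KAP : Prop :=
  ∀ (d : ℕ) (ρ : Type) [Fintype ρ] [DecidableEq ρ] (v : ρ → (Fin d → ℚ) →ₗ[ℚ] ℚ), ∃ κ : Finset ρ → ℚ,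
    (∀ σ, 0 < κ σ) ∧ ∀ (σ : Finset ρ) (m : ρ), m ∉ σ →
      (∀ f : ρ → ℚ, ∃ x, ∀ i ∈ insert m σ, v i x = f i) →
      ∀ ν : (Fin d → ℚ) →ₗ[ℚ] ℚ, (∀ x, (∀ i ∈ σ, v i x = 0) → Integral x → ∃ z : ℤ, ν x = z) →
      (∃ x, (∀ i ∈ σ, v i x = 0) ∧ Integral x ∧ ν x = 1) →
      (∀ x, (∀ i ∈ insert m σ, v i x = 0) → ν x = 0) →
      (∃ x, (∀ i ∈ σ, v i x = 0) ∧ 0 < ν x ∧ 0 < v m x) →
      ∀ x, (∀ i ∈ σ, v i x = 0) → κ (insert m σ) * ν x = κ σ * v m x

/-- **HALF** (250 lines, from `S_SUR`, `S_LIN`, `S_FCS`, `S_DUALW`, `S_PRIM`, `S_KAP`). By `Real` and `S_FCS` the faces of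
dimension `j ≥ 1` are the `fc k A B` with `card A + card B = n - 1 - j` (`S_LIN`; single points have dimension `0`). Use
`S_KAP` with `ρ = Fin n × Bool`, `v (m, false) = a m`, `v (m, true) = b m`. For `G = fc k A B` of dimension `j + 1`, the
faces `F ⊆ G` of dimension `j` are `fc k (insert m A) B` (if `card A + 1 + k + 1 ≤ n`) and `fc k A (insert m B)` (if
`card B + 2 ≤ k`), `m ∉ A ∪ B`; a normal `ν` of `F` in `G` is `κ(G) / κ(F)` times `a m` (`b m`) on `lin p G`, and exists by
`S_PRIM`. So `w ↦ (F ↦ w F / κ F)` is an isomorphism from the space of `S_DUALW` to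
`W ⊤ a b univ (k - 1) (n - k - 1) (n - 1 - j)` (integral vectors span `lin p G`). -/
def S_HALF : Prop :=
  ∀ (k n : ℕ) (p : Sub k n → Fin (n - 1) → ℚ) (a b : Fin n → (Fin (n - 1) → ℚ) →ₗ[ℚ] ℚ) (α β : Fin n → ℚ),
    1 ≤ k → k < n → Real p → Sign p a b α β → ∀ j, 1 ≤ j → j < n →
    chowBetti p j = finrank ℚ (W ⊤ a b univ (k - 1) (n - k - 1) (n - 1 - j))

/-- **CZERO** (150 lines, from `S_DATA`, `S_LIN`, `S_FCS`, `S_PRIM`, `S_DUALW`). The faces of dimension `0` are the single
points, those of dimension `1` are the pairs `fc k A B`, `card A = n - k - 1`, `card B = k - 1`, that is `{S, S'}` with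
`card (S ∩ S') = k - 1`. The relations say `w {S} = w {S'}` for these; the graph is connected. -/
def S_CZERO : Prop :=
  ∀ (k n : ℕ), 1 ≤ k → k < n → ∀ p : Sub k n → Fin (n - 1) → ℚ, Real p → chowBetti p 0 = 1

/-- **FIN1** (60 lines, from `S_UPP`, `S_LOW`, `S_SUR`, `S_DATA`, `S_HALF`, `S_CZERO`). With `r = k - 1`, `s = n - k - 1`,
`i = n - 1 - j`, `r + s - i = j - 1`. For `j ≥ n` there are no faces. -/
def S_FIN1 : Prop :=
  ∀ (k n : ℕ), 1 ≤ k → k < n → ∀ p : Sub k n → Fin (n - 1) → ℚ, Real p → ∀ j, chowBetti p j =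
    if j = 0 then 1 else if j < n then bs n (min (min (n - 1 - j) (j - 1)) (min (k - 1) (n - k - 1))) else 0

end Pool.Agent.CB
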