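import Pool.Agent.CB.Defs
/-!
# Project CB, part 2 (dual half), helper97: statements of the pieces

`q` is a realization of the dual of the hypersimplex `Δ(k, n)`, `2 ≤ k`, `k + 2 ≤ n`.  Its proper faces are the
simplices `enc A B` (`A`, `B` disjoint, `|A| ≤ n - k - 1`, `|B| ≤ k - 1`, not both empty) and the facets `E S`.
-/
set_option autoImplicit false
namespace Pool.Agent.CB
open Finset Module

/-- the vertices `(m, false)`, `m ∈ A`, and `(m, true)`, `m ∈ B` -/
def enc {n : ℕ} (A B : Finset (Fin n)) : Finset (Fin n × Bool) :=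
  univ.filter fun i => (i.2 = false ∧ i.1 ∈ A) ∨ (i.2 = true ∧ i.1 ∈ B)

/-- the facet of the vertex `S` of the hypersimplex -/
def E {n : ℕ} (S : Finset (Fin n)) : Finset (Fin n × Bool) := enc Sᶜ S

def Adm {n : ℕ} (k : ℕ) (A B : Finset (Fin n)) : Prop :=
  Disjoint A B ∧ A.card + k < n ∧ B.card < k ∧ (A ∪ B).Nonempty

/-- the face structure -/
def DF (k : ℕ) {n : ℕ} (q : Fin n × Bool → Fin (n - 1) → ℚ) : Prop :=
  2 ≤ k ∧ k + 2 ≤ n ∧ lin q univ = ⊤ ∧ ∀ T : Finset (Fin n × Bool), IsFace q T ↔
    T = univ ∨ (∃ A B : Finset (Fin n), Adm k A B ∧ T = enc A B) ∨ ∃ S : Sub k n, T = E S.1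

/-- neighbours in the hypersimplex -/
def Nb {ι : Type} [DecidableEq ι] (S T : Finset ι) : Prop := ∃ x ∈ S, ∃ y, y ∉ S ∧ T = insert y (S.erase x)

/-- primitive functional -/
def Prim {d : ℕ} (z : (Fin d → ℚ) →ₗ[ℚ] ℚ) : Prop :=
  (∀ x, Integral x → ∃ a : ℤ, z x = a) ∧ ∃ x, Integral x ∧ z x = 1

/-- D-FAC (120 lines).
Proof. Let `F` be a face of `std k n`, the set of the `S` where `∑_{m ∈ S} f_m` is minimal (`f_m = f (Pi.single m 1)`).
Let `θ` be the `k`-th smallest value of `f`: `B = {f < θ}` has `< k` elements and `{f ≤ θ}` has `≥ k` elements;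
`A = {f > θ}`. `S` is minimal iff `B ⊆ S` and `S ∩ A = ∅` (exchange argument). If `|A| = n - k` then `F = {S}`,
`S = {f ≤ θ}`, and the `i` with `Has F i` are `E S`. Otherwise `A.card + k < n` and the `i` with `Has F i` are
`enc A B` (for `m ∉ A ∪ B` there are `S ∈ F` with and without `m`); `F ≠ univ` iff `A ∪ B` is not empty.
Conversely for `Adm k A B` take `f = 1` on `A`, `-1` on `B`, `0` otherwise; for `S` take `f = -1` on `S`, `1` outside. -/
def S_DFAC : Prop := ∀ (n k : ℕ), 2 ≤ k → k + 2 ≤ n → ∀ q : Fin n × Bool → Fin (n - 1) → ℚ,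
  RealDual k q → DF k q

/-- D-DIM (100 lines).
Proof. If `T ⊂ T'` (strictly) are faces of `q`, then `dim q T < dim q T'`: `lin q T ≤ lin q T'`, and if they are
equal then the functional of `T` is constant on `T'`, so `T' ⊆ T`. `dim q T ≤ T.card - 1` (spanned by the
`q i - q i0`). For `Adm k A B`: `dim ≥ |A| + |B| - 1` by induction (remove an element). `dim (E S) ≥ n - 2`
because `E S` contains strictly an admissible face with `n - 2` elements; `dim univ = n - 1`, so `dim (E S) < n - 1`.
(`(enc A B).card = A.card + B.card`.) -/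
def S_DDIM : Prop := ∀ (n k : ℕ) (q : Fin n × Bool → Fin (n - 1) → ℚ), DF k q →
  dim q univ = n - 1 ∧ (∀ S : Sub k n, dim q (E S.1) = n - 2) ∧
  (∀ A B : Finset (Fin n), Adm k A B → dim q (enc A B) + 1 = A.card + B.card) ∧
  ∀ T T', IsFace q T → IsFace q T' → T ⊂ T' → dim q T < dim q T'

/-- D-EXN (120 lines).  Normals exist and are unique, for any polytope.
Proof. Let `f` be the functional of `F` (minimal exactly on `F`). `f` is not `0` on `lin p G`, as
`lin p F ≠ lin p G`, and `f` vanishes on `lin p F`. The values of `f` on the integral vectors of `lin p G` form a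
nonzero finitely generated subgroup of `ℚ` (bounded denominators: `f x = ∑ x_c f (e_c)`), hence it is
`ℤ g` with `g > 0`; `ν = g⁻¹ f`. (Non-zero: every vector of `lin p G` has an integral positive multiple.)
Uniqueness: `ν` and `ν'` vanish on `lin p F`, of codimension one in `lin p G`, so `ν' = c ν` on `lin p G`;
`c` is an integer and `1 / c` as well (the vectors with value `1`), and `c > 0` by the sign condition
(some `i ∈ G`, `j ∈ F` with `ν (p i - p j) > 0`). -/
def S_DEXN : Prop := ∀ (ι : Type) [Fintype ι] [DecidableEq ι] (d : ℕ) (p : ι → Fin d → ℚ) (F G : Finset ι),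
  IsFace p F → IsFace p G → F ⊆ G → dim p F + 1 = dim p G →
  (∃ ν, Normal p F G ν) ∧ (∀ ν ν', Normal p F G ν → Normal p F G ν' → ∀ x ∈ lin p G, ν x = ν' x) ∧
  (∀ ν, Normal p F G ν → ∀ x ∈ lin p G, ν x = 0 → x ∈ lin p F) ∧
  (∀ ν, Normal p F G ν → ∀ i ∈ G, ∀ j ∈ F, i ∉ F → 0 < ν (p i - p j))

/-- D-WTS (80 lines).  Chow-Betti numbers by weights, for any polytope.
Proof. The dual of the quotient `(X →₀ ℚ) ⧸ R` is the space of the functionals of `X →₀ ℚ`, that is of the
functions `w : X → ℚ`, which vanish on `R` (`Submodule.dualAnnihilator`, `Subspace.finrank_add_finrank_dualAnnihilator_eq`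
or `Submodule.dualQuotEquivDualAnnihilator`, `Subspace.dual_finrank_eq`). `X = FaceOf p j` is finite. -/
def S_DWTS : Prop := ∀ (ι : Type) [Fintype ι] [DecidableEq ι] (d : ℕ) (p : ι → Fin d → ℚ) (j : ℕ),
  ∃ W : Submodule ℚ (FaceOf p j → ℚ), (∀ w, w ∈ W ↔ ∀ r, IsRelation p j r → r.sum (fun F a => a * w F) = 0) ∧
    chowBetti p j = finrank ℚ W

/-- D-VOL (150 lines).  Lattice volumes.
Proof. Let `N > 0` be an integer such that all `N p_i` are integral. For an affinely independent `T`
(`dim p T + 1 = T.card`) let `L_T` be the group of the integral vectors of `lin p T`, `Λ_T` the subgroup generated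
by the `N (p i - p j)`, `i, j ∈ T`; `w T` is the index of `Λ_T` in `L_T` (finite: `L_T` is a lattice of rank
`dim p T`, `Λ_T` has the same rank). Let `G = insert i F`, `ν` the normal, `j0 ∈ F`. `ν : L_G → ℤ` is onto with kernel
`L_F`; `Λ_G = Λ_F + ℤ N (p i - p j0)` and `ν (Λ_G) = ℤ N h`, `Λ_G ∩ ker ν = Λ_F`, so `w G = w F * N h`, `h = ν (p i - p j0)`. -/
def S_DVOL : Prop := ∀ (ι : Type) [Fintype ι] [DecidableEq ι] (d : ℕ) (p : ι → Fin d → ℚ),
  ∃ (N : ℚ) (w : Finset ι → ℚ), 0 < N ∧ (∀ T, T.Nonempty → dim p T + 1 = T.card → 0 < w T) ∧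
    ∀ (F : Finset ι) (i : ι), F.Nonempty → i ∉ F → dim p F + 1 = F.card →
      dim p (insert i F) + 1 = (insert i F).card → ∀ ν, Normal p F (insert i F) ν →
        (∀ x ∈ lin p (insert i F), ν x = 0 → x ∈ lin p F) → ∀ j ∈ F,
          w (insert i F) = w F * (N * ν (p i - p j))

/-- D-CNN (120 lines, combinatorics).  The simplices of dimension `j ≤ n - 4` are connected through those of
dimension `j + 1`: a function which is constant on the facets of the admissible sets is constant.
Proof. Let `T = enc A B`, `T' = enc A' B'`, both with `s ≤ n - 3` elements. Induction on `|T \ T'|`; it is enough to find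
a path from `T` to `T \ y ∪ x` for some `y ∈ T \ T'`, `x ∈ T' \ T`. A step adds an element such that the set stays
admissible and removes another one. The caps of the parts `false`, `true` are `n - k - 1`, `k - 1`; both parts
cannot be full as `s ≤ n - 3`; there are at least 3 indices `m` which do not occur in `T` (free).
(1) Some `T ∪ x`, `x ∈ T' \ T`, is admissible: one step. (2) Some `x = (m, ε) ∈ T' \ T` with `y = (m, not ε) ∈ T`:
if the part `ε` of `T` is not full and the part `not ε` is not full: add `w = (m1, not ε)`, remove `y`; add `x`, remove `w`.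
If `not ε` is full (so `ε` is not): add `w = (m1, ε)`, remove `y`; add `w' = (m2, not ε)`, remove `w`; add `x`, remove `w'`.
If `ε` is full (so `not ε` is not): then, as `x ∈ T' \ T` has type `ε` and the part of `T'` is not larger, there is
`y' ∈ T \ T'` of type `ε`; add `w = (m1, not ε)`, remove `y'`; now `ε` is not full: continue as before to exchange
`y` for `x`: add nothing new, i.e. from `T1 = T ∪ w \ y'`: add `w' = (m2, ε)`, remove `y`; add `w'' = (m3, not ε)`
if possible, remove `w'`; add `x`, remove `w''`; the result `T ∪ w \ {y', y} ∪ x` differs from `T'` in no more elements than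
`T`, and has one conflict less; (so use the induction on the pair (|T \ T'|, number of conflicts)).
(3) No conflicts and every `x ∈ T' \ T` is blocked by a full part `ε`: then `T \ T'` is of type `ε` as well: add
`w = (m1, not ε)`, `m1` free and not an index of `x`, remove `y`; add `x`, remove `w`. -/
def S_DCNN : Prop := ∀ (n k s : ℕ), 2 ≤ k → k + 2 ≤ n → 1 ≤ s → s + 3 ≤ n →
  ∀ v : Finset (Fin n × Bool) → ℚ,
  (∀ A B : Finset (Fin n), Adm k A B → A.card + B.card = s + 1 →
    ∀ i ∈ enc A B, ∀ i' ∈ enc A B, v ((enc A B).erase i) = v ((enc A B).erase i')) →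
  ∀ A B A' B' : Finset (Fin n), Adm k A B → Adm k A' B' → A.card + B.card = s → A'.card + B'.card = s →
    v (enc A B) = v (enc A' B')

end Pool.Agent.CB
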