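import Pool.Agent.CB.Stm2
/-!
# Project CB, part 2 (dual half), helper97: the rigidity pieces (linear algebra only)

`m = Fintype.card ι = finrank W`; for every `k`-subset `S` of `ι` a vector `p S` of `W`; functionals `a i`, `b i` with
`a i (p S) = 0` iff `i ∉ S`, `b i (p S) = 0` iff `i ∈ S`, positive otherwise. `u S` is a functional, `u S (p S) = 0`,
`u S (p T) + u T (p S) = 0` for neighbours `S`, `T`. Claim (`Rg m k`): `u S = A (p S)` for an alternating form `A`.
-/
set_option autoImplicit false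
namespace Pool.Agent.CB
open Finset Module

section
variable {ι W : Type} [Fintype ι] [DecidableEq ι] [AddCommGroup W] [Module ℚ W]

/-- the sign conditions -/
def Sg (k : ℕ) (p : Finset ι → W) (a b : ι → W →ₗ[ℚ] ℚ) : Prop :=
  ∀ S : Finset ι, S.card = k → ∀ i, (i ∈ S → 0 < a i (p S) ∧ b i (p S) = 0) ∧ (i ∉ S → a i (p S) = 0 ∧ 0 < b i (p S))

/-- the conditions on `u` -/
def Str (k : ℕ) (p : Finset ι → W) (u : Finset ι → W →ₗ[ℚ] ℚ) : Prop :=
  (∀ S : Finset ι, S.card = k → u S (p S) = 0) ∧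
    ∀ S T : Finset ι, S.card = k → Nb S T → u S (p T) + u T (p S) = 0

/-- the functional of the facet of type `ε` (`false`: `i ∉ S`, `true`: `i ∈ S`) -/
def ph (a b : ι → W →ₗ[ℚ] ℚ) (i : ι) (ε : Bool) : W →ₗ[ℚ] ℚ := if ε = true then b i else a i

end

def Rg (m k : ℕ) : Prop := ∀ (ι W : Type) [Fintype ι] [DecidableEq ι] [AddCommGroup W] [Module ℚ W]
  [FiniteDimensional ℚ W], Fintype.card ι = m → finrank ℚ W = m →
  ∀ (p : Finset ι → W) (a b : ι → W →ₗ[ℚ] ℚ) (u : Finset ι → W →ₗ[ℚ] ℚ), Sg k p a b → Str k p u →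
    ∃ A : W →ₗ[ℚ] W →ₗ[ℚ] ℚ, (∀ x, A x x = 0) ∧ ∀ S : Finset ι, S.card = k → u S = A (p S)

/-- R-IND (60 lines).  `φ_i = ph a b i (i ∈ S)`; any `m - 1` of these `m` functionals are linearly independent: there is a dual
family of vectors.
Proof. If `∑ c_i φ_i = 0`, evaluate at `p T`, `T = S - x + y` (`x ∈ S`, `y ∉ S`): only `φ_x (p T) = b x (p T) > 0` and
`φ_y (p T) = a y (p T) > 0` are not zero, so `c_x = 0` iff `c_y = 0`, for all `x ∈ S`, `y ∉ S`: all `c_i` are zero or no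
`c_i` is. So the `φ_i`, `i ∈ J`, are independent (`J ≠ univ`), and `W → (J → ℚ)` is onto (otherwise a nonzero
functional of `J → ℚ`, that is a relation, vanishes on the image). -/
def R_IND : Prop := ∀ (ι W : Type) [Fintype ι] [DecidableEq ι] [AddCommGroup W] [Module ℚ W]
  (k : ℕ) (p : Finset ι → W) (a b : ι → W →ₗ[ℚ] ℚ), Sg k p a b → 1 ≤ k → k < Fintype.card ι →
  ∀ (S J : Finset ι), S.card = k → J ≠ univ →
    ∃ e : ι → W, ∀ i ∈ J, ∀ j ∈ J, ph a b i (decide (i ∈ S)) (e j) = if i = j then 1 else 0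

/-- R-SPF (110 lines): theorem t_SPF (h : R_IND) : R_SPF.  The vectors of a face (`I` outside, `J` inside) span the subspace of the face.
Proof. By duality (`Submodule.dualAnnihilator`) let `f` vanish on all `p T`, `T` in the face; we show that `f` is a
combination of the `φ_i`, `i ∈ I ∪ J`, hence `0` on the subspace. Fix `S` in the face, `φ_i = ph a b i (i ∈ S)`, all `i ∈ ι`.
They vanish at `p S`, and `m - 1` of them are independent (R-IND), so they span the annihilator of `p S` (dimension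
`m - 1`; `p S ≠ 0` as `a x (p S) > 0`), and there is a relation `∑ d_i φ_i = 0`, with all `d_i ≠ 0`.
`f = ∑ c_i φ_i`. For `x ∈ S \ J`, `y ∉ S`, `y ∉ I`, `T = S - x + y` is in the face:
`c_x b_x (p T) + c_y a_y (p T) = 0 = d_x b_x (p T) + d_y a_y (p T)`, so `c_x / d_x = c_y / d_y`. Both kinds of free indices
exist, so `c_x / d_x = l` for all free `x`, and `f = ∑ (c_i - l d_i) φ_i` has only terms with `i ∈ I ∪ J`. -/
def R_SPF : Prop := ∀ (ι W : Type) [Fintype ι] [DecidableEq ι] [AddCommGroup W] [Module ℚ W] [FiniteDimensional ℚ W]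
  (k : ℕ) (p : Finset ι → W) (a b : ι → W →ₗ[ℚ] ℚ), finrank ℚ W = Fintype.card ι → Sg k p a b →
  ∀ (I J : Finset ι), Disjoint I J → I.card + k < Fintype.card ι → J.card < k →
    ∀ y : W, (∀ i ∈ I, a i y = 0) → (∀ i ∈ J, b i y = 0) →
      y ∈ Submodule.span ℚ {x | ∃ S : Finset ι, S.card = k ∧ Disjoint I S ∧ J ⊆ S ∧ x = p S}

/-- R-GLU (80 lines).  Three forms which agree on the intersections of three independent hyperplanes glue.
Proof. `π_i x = x - f_i x • e_i`: the `π_i` commute, `π_i` maps into `ker f_i` and preserves `ker f_j`. Put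
`B_i (x, y) = A_i (π_i x, π_i y)`, `B_ij (x, y) = A_i (π_i π_j x, π_i π_j y) = A_j (the same)`, `B_123` likewise,
`A = B_1 + B_2 + B_3 - B_12 - B_13 - B_23 + B_123`. For `x, y ∈ ker f_1`: `π_1 x = x`, `B_1 = A_1`, `B_2 = B_12`,
`B_3 = B_13`, `B_23 = B_123`. Alternating: each term is. -/
def R_GLU : Prop := ∀ (W : Type) [AddCommGroup W] [Module ℚ W] (f : Fin 3 → W →ₗ[ℚ] ℚ) (e : Fin 3 → W)
  (A : Fin 3 → W →ₗ[ℚ] W →ₗ[ℚ] ℚ), (∀ i j, f i (e j) = if i = j then 1 else 0) → (∀ i x, A i x x = 0) →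
  (∀ i j x y, f i x = 0 → f i y = 0 → f j x = 0 → f j y = 0 → A i x y = A j x y) →
  ∃ B : W →ₗ[ℚ] W →ₗ[ℚ] ℚ, (∀ x, B x x = 0) ∧ ∀ i x y, f i x = 0 → f i y = 0 → B x y = A i x y

/-- R-VNT (50 lines).  A form which vanishes on three independent hyperplanes of `H` vanishes on `H`.
Proof. `x = ∑ f_i x • e_i + x'` with `x' ∈ H`, all `f_i x' = 0`; expand: `e_i`, `e_j` are both in `ker f_l` for
an `l ≠ i, j`, etc. -/
def R_VNT : Prop := ∀ (W : Type) [AddCommGroup W] [Module ℚ W] (H : Submodule ℚ W) (f : Fin 3 → W →ₗ[ℚ] ℚ)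
  (e : Fin 3 → W) (D : W →ₗ[ℚ] W →ₗ[ℚ] ℚ), (∀ i j, f i (e j) = if i = j then 1 else 0) → (∀ i, e i ∈ H) →
  (∀ i, ∀ x ∈ H, ∀ y ∈ H, f i x = 0 → f i y = 0 → D x y = 0) → ∀ x ∈ H, ∀ y ∈ H, D x y = 0

/-- R-SIA (60 lines).  Proof. The `p {i}` are independent (`a j (p {i}) = 0` for `j ≠ i`, `> 0` for `j = i`), hence a basis; define
`A` by `A (p {i}) = u {i}` (`Basis.constr`); any two different singletons are neighbours; `A x x = 0` from
`A (p i) (p i) = 0`, `A (p i) (p j) + A (p j) (p i) = 0`. -/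
def R_SIA : Prop := ∀ m : ℕ, 1 ≤ m → Rg m 1

/-- R-SIB (60 lines).  Proof. The same with `p (univ.erase i)` and the functionals `b i`. -/
def R_SIB : Prop := ∀ m : ℕ, Rg (m + 1) m

/-- R-OCA (100 lines).  No stress on the octahedron.
Proof. At `S` apply `b x` (`x ∈ S`; `b x (p S) = 0`, `b x (p T) = 0` if `x ∈ T`, `> 0` otherwise): for the two neighbours `T`,
`T'` of `S` without `x` the numbers `w S T` and `w S T'` have strictly opposite signs or are both zero. Same with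
`a y` (`y ∉ S`) for the two neighbours which contain `y`. Two neighbours `S`, `T` have a common neighbour `R` such that
`S ∩ T ∩ R` has one element `x'`: `S = {x, x'}`, `T = {y, x'}`, `R = {z, x'}`. At `S` the neighbours without `x` are `T`, `R`; at
`T` the neighbours without `y` are `S`, `R`; at `R` the neighbours without `z` are `S`, `T`. So the three numbers `w S T`,
`w S R`, `w T R` have pairwise opposite signs, or are zero: they are zero. -/
def R_OCA : Prop := ∀ (ι W : Type) [Fintype ι] [DecidableEq ι] [AddCommGroup W] [Module ℚ W]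
  (p : Finset ι → W) (a b : ι → W →ₗ[ℚ] ℚ), Fintype.card ι = 4 → Sg 2 p a b →
  ∀ w : Finset ι → Finset ι → ℚ, (∀ S T, w S T = w T S) →
    (∀ S : Finset ι, S.card = 2 → ∃ l : ℚ, ∑ x ∈ S, ∑ y ∈ Sᶜ, w S (insert y (S.erase x)) • p (insert y (S.erase x)) = l • p S) →
    ∀ S T : Finset ι, S.card = 2 → Nb S T → w S T = 0

/-- R-OCB (140 lines): theorem t_OCB (h1 : R_OCA) (h2 : R_SPF) (h3 : R_ALT) : R_OCB.  The octahedron, by counting.
Proof. Let `X` be the space of the `(u_S)_S` (6 sets `S` with 2 elements) with `u_S (p S) = 0`: dimension `6 * 3 = 18`. Let `Y` be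
the space of the functions of the 12 edges, `Φ : X → Y`, `u ↦ u_S (p T) + u_T (p S)`. `Φ` is onto: a functional of `Y` which
vanishes on the image is `w` with, for every `S` and every `u` with `u (p S) = 0`, `∑_T w S T u (p T) = 0`; so
`∑_T w S T p T ∈ ℚ p S` and `w = 0` by R-OCA. So `finrank (ker Φ) = 6`. The alternating forms on `W` (dimension `6`, R-ALT)
inject into `ker Φ` by `A ↦ (A (p S))_S` (the `p S` span `W`: R-SPF with `I = J = ∅`), so this map is onto. -/
def R_OCB : Prop := Rg 4 2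

/-- R-ALT (80 lines).  The alternating forms on a space of dimension `m` have dimension `m.choose 2`.
Proof. With a basis `v` of `V` indexed by `Fin m`, `A ↦ (A (v i) (v j))_{i < j}` is a linear equivalence with the functions on the
pairs `i < j`; or Mathlib's results on `AlternatingMap`, `exteriorPower`. -/
def R_ALT : Prop := ∀ (W : Type) [AddCommGroup W] [Module ℚ W] [FiniteDimensional ℚ W],
  ∃ X : Submodule ℚ (W →ₗ[ℚ] W →ₗ[ℚ] ℚ), (∀ A, A ∈ X ↔ ∀ x, A x x = 0) ∧ finrank ℚ X = (finrank ℚ W).choose 2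

/-- R-FCA (100 lines).  The forms of the facets of type `false`.
Proof. `a i ≠ 0` (a set `S` with `i ∈ S`). Use `Rg m k` for `ι' = {j // j ≠ i}`, `W' = ker (a i)` (dimension `m`),
`p' S' = p (S'.map val)`, which is in `W'`, the restrictions of the `a j`, `b j`, `u' S' = u (S'.map val)` restricted. It gives an
alternating form on `W'`; extend it to `W` by a projection `W → W'` (`Submodule.exists_isCompl`, or
`x ↦ x - a i x • e`, `a i e = 1`). -/
def R_FCA : Prop := ∀ m k : ℕ, Rg m k → 1 ≤ k → ∀ (ι W : Type) [Fintype ι] [DecidableEq ι] [AddCommGroup W] [Module ℚ W]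
  [FiniteDimensional ℚ W], Fintype.card ι = m + 1 → finrank ℚ W = m + 1 →
  ∀ (p : Finset ι → W) (a b : ι → W →ₗ[ℚ] ℚ) (u : Finset ι → W →ₗ[ℚ] ℚ), Sg k p a b → Str k p u → k ≤ m →
    ∀ i : ι, ∃ A : W →ₗ[ℚ] W →ₗ[ℚ] ℚ, (∀ x, A x x = 0) ∧
      ∀ S : Finset ι, S.card = k → i ∉ S → ∀ y, a i y = 0 → u S y = A (p S) y

/-- R-FCB (100 lines).  The forms of the facets of type `true`.
Proof. As R-FCA with `W' = ker (b i)`, `p' S' = p (insert i (S'.map val))`. -/
def R_FCB : Prop := ∀ m k : ℕ, Rg m k → k ≤ m → ∀ (ι W : Type) [Fintype ι] [DecidableEq ι] [AddCommGroup W] [Module ℚ W]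
  [FiniteDimensional ℚ W], Fintype.card ι = m + 1 → finrank ℚ W = m + 1 →
  ∀ (p : Finset ι → W) (a b : ι → W →ₗ[ℚ] ℚ) (u : Finset ι → W →ₗ[ℚ] ℚ), Sg (k + 1) p a b → Str (k + 1) p u → k + 1 ≤ m →
    ∀ i : ι, ∃ A : W →ₗ[ℚ] W →ₗ[ℚ] ℚ, (∀ x, A x x = 0) ∧
      ∀ S : Finset ι, S.card = k + 1 → i ∈ S → ∀ y, b i y = 0 → u S y = A (p S) y

/-- the conclusion of R-FCA and R-FCB together -/
def Fct {ι W : Type} [Fintype ι] [DecidableEq ι] [AddCommGroup W] [Module ℚ W] (k : ℕ) (p : Finset ι → W)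
    (a b : ι → W →ₗ[ℚ] ℚ) (u : Finset ι → W →ₗ[ℚ] ℚ) (A : ι → Bool → W →ₗ[ℚ] W →ₗ[ℚ] ℚ) : Prop :=
  ∀ i ε, (∀ x, A i ε x x = 0) ∧
    ∀ S : Finset ι, S.card = k → (i ∈ S ↔ ε = true) → ∀ y, ph a b i ε y = 0 → u S y = A i ε (p S) y

/-- R-AGR (70 lines): theorem t_AGR (h : R_SPF) : R_AGR.  The forms of two facets agree on the intersection.
Proof. By R-SPF the `p S`, `S` in both facets, span the intersection of the two hyperplanes, and
`A i ε (p S) y = u S y = A j δ (p S) y`. -/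
def R_AGR : Prop := ∀ (ι W : Type) [Fintype ι] [DecidableEq ι] [AddCommGroup W] [Module ℚ W]
  [FiniteDimensional ℚ W] (k : ℕ) (p : Finset ι → W) (a b : ι → W →ₗ[ℚ] ℚ) (u : Finset ι → W →ₗ[ℚ] ℚ)
  (A : ι → Bool → W →ₗ[ℚ] W →ₗ[ℚ] ℚ), finrank ℚ W = Fintype.card ι → Sg k p a b → Fct k p a b u A →
  2 ≤ k → k + 2 ≤ Fintype.card ι → ∀ (i j : ι) (ε δ : Bool), i ≠ j →
  (ε = false → δ = false → k + 3 ≤ Fintype.card ι) → (ε = true → δ = true → 3 ≤ k) →
    ∀ x y, ph a b i ε x = 0 → ph a b i ε y = 0 → ph a b j δ x = 0 → ph a b j δ y = 0 → A i ε x y = A j δ x y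

/-- R-ATS (120 lines).  The form of a vertex.
Proof. If `k + 3 ≤ m` let `i1, i2, i3 ∉ S` be different, otherwise `3 ≤ k` and let `i1, i2, i3 ∈ S` be different. By R-IND
(`J = {i1, i2, i3}`) and R-AGR and R-GLU there is `B` which agrees with the three facet forms on their hyperplanes. Let
`i` be another index, `φ_i = ph a b i (i ∈ S)`: by R-IND for `{i, i1, i2, i3}` (4 elements, `m ≥ 5`) there are
`e_1, e_2, e_3 ∈ H = ker φ_i` dual to the `φ_{i1}, ...`; on `H ∩ ker φ_{i1}` `B` and the form of `i` agree (R-AGR; the forms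
of `i` and `i1` satisfy the condition of R-AGR: if they have the same type it is the type of the three).
R-VNT: they agree on `H`. Finally `u S y = B (p S) y` for `y` in each hyperplane `ker φ_i`, and two of them span `W`. -/
def R_ATS : Prop := R_IND → R_GLU → R_VNT → R_AGR → ∀ (ι W : Type) [Fintype ι] [DecidableEq ι] [AddCommGroup W] [Module ℚ W]
  [FiniteDimensional ℚ W] (k : ℕ) (p : Finset ι → W) (a b : ι → W →ₗ[ℚ] ℚ) (u : Finset ι → W →ₗ[ℚ] ℚ)
  (A : ι → Bool → W →ₗ[ℚ] W →ₗ[ℚ] ℚ), finrank ℚ W = Fintype.card ι → Sg k p a b → Fct k p a b u A →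
  2 ≤ k → k + 2 ≤ Fintype.card ι → 5 ≤ Fintype.card ι → ∀ S : Finset ι, S.card = k →
    ∃ B : W →ₗ[ℚ] W →ₗ[ℚ] ℚ, (∀ x, B x x = 0) ∧ u S = B (p S) ∧
      ∀ i x y, ph a b i (decide (i ∈ S)) x = 0 → ph a b i (decide (i ∈ S)) y = 0 → B x y = A i (decide (i ∈ S)) x y

/-- R-CON (40 lines).  Proof. Induction on `|S \ T|`. -/
def R_CON : Prop := ∀ (ι X : Type) [Fintype ι] [DecidableEq ι] (k : ℕ) (v : Finset ι → X),
  (∀ S T : Finset ι, S.card = k → Nb S T → v S = v T) → ∀ S T : Finset ι, S.card = k → T.card = k → v S = v T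

/-- R-STP (90 lines).  The induction step.
Proof. R-FCA and R-FCB give the forms of the facets (`Fct`), R-ATS a form `B S` of every vertex. If `S`, `T` are neighbours, there
are at least three `i` in neither or both of `S`, `T`; `B S` and `B T` agree with `A i (i ∈ S)` on `ker φ_i`; by R-IND and
R-VNT with `H = ⊤`, `B S = B T`. R-CON: `B S = B` for all `S`. -/
def R_STP : Prop := R_IND → R_GLU → R_VNT → R_AGR → R_ATS → R_FCA → R_FCB → R_CON →
  ∀ m k : ℕ, 4 ≤ m → 2 ≤ k → k + 1 ≤ m → Rg m k → Rg m (k - 1) → Rg (m + 1) k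

end Pool.Agent.CB
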