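import Pool.Agent.CB.Stm3
/-!
# Project CB, part 2 (dual half), helper97: from the rigidity to the Chow-Betti numbers
-/
set_option autoImplicit false
namespace Pool.Agent.CB
open Finset Module

/-- `z S` is the primitive inner normal of the facet `E S` of `q`, `c S` the constant -/
def Fu (k : ℕ) {n : ℕ} (q : Fin n × Bool → Fin (n - 1) → ℚ) (z : Finset (Fin n) → (Fin (n - 1) → ℚ) →ₗ[ℚ] ℚ)
    (c : Finset (Fin n) → ℚ) : Prop :=
  ∀ S : Finset (Fin n), S.card = k → Prim (z S) ∧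
    ∀ i, (i ∈ E S → z S (q i) + c S = 0) ∧ (i ∉ E S → 0 < z S (q i) + c S)

/-- `(f, t) ↦ f x + t` -/
def ev {d : ℕ} (x : Fin d → ℚ) : ((Fin d → ℚ) →ₗ[ℚ] ℚ) × ℚ →ₗ[ℚ] ℚ :=
  (LinearMap.applyₗ x).comp (LinearMap.fst ℚ _ _) + LinearMap.snd ℚ _ _

theorem ev_apply {d : ℕ} (x : Fin d → ℚ) (y : ((Fin d → ℚ) →ₗ[ℚ] ℚ) × ℚ) : ev x y = y.1 x + y.2 := rfl

theorem mem_E {n : ℕ} (S : Finset (Fin n)) (m : Fin n) (ε : Bool) : (m, ε) ∈ E S ↔ (m ∈ S ↔ ε = true) := by
  cases ε <;> simp [E, enc]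

/-- the sign conditions of Stm3 with `W = Dual × ℚ`, `p S = (z S, c S)` -/
theorem sg_of_fu (k n : ℕ) (q : Fin n × Bool → Fin (n - 1) → ℚ) (z : Finset (Fin n) → (Fin (n - 1) → ℚ) →ₗ[ℚ] ℚ)
    (c : Finset (Fin n) → ℚ) (h : Fu k q z c) :
    Sg k (fun S => (z S, c S)) (fun m => ev (q (m, false))) (fun m => ev (q (m, true))) := by
  intro S hS i
  refine ⟨fun hi => ⟨?_, ?_⟩, fun hi => ⟨?_, ?_⟩⟩ <;> simp only [ev_apply]
  · exact ((h S hS).2 (i, false)).2 (by rw [mem_E]; simp [hi])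
  · exact ((h S hS).2 (i, true)).1 (by rw [mem_E]; simp [hi])
  · exact ((h S hS).2 (i, false)).1 (by rw [mem_E]; simp [hi])
  · exact ((h S hS).2 (i, true)).2 (by rw [mem_E]; simp [hi])

/-- D-FUN (100 lines).
Proof. `E S` is a face: let `f` be the functional, minimal exactly on `E S`, with value `t`. `f ≠ 0` as `E S ≠ univ`. The
values of `f` on the integral vectors are the subgroup of `ℚ` generated by the `f (Pi.single c 1)`, finitely generated
and not zero, so it is `ℤ g`, `g > 0`. `z = g⁻¹ f`, `c = -g⁻¹ t`. -/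
def D_FUN : Prop := ∀ (n k : ℕ) (q : Fin n × Bool → Fin (n - 1) → ℚ), DF k q → ∃ z c, Fu k q z c

/-- D-KER (40 lines): theorem t_KER (h : S_DDIM) : D_KER.
Proof. `lin q (E S) ≤ ker (z S)` and both have dimension `n - 2` (`z S ≠ 0`). -/
def D_KER : Prop := ∀ (n k : ℕ) (q : Fin n × Bool → Fin (n - 1) → ℚ) z c, DF k q → Fu k q z c →
  ∀ S : Finset (Fin n), S.card = k → ∀ x, x ∈ lin q (E S) ↔ z S x = 0

/-- D-MUL (100 lines).  The multiplicity of two primitive functionals is symmetric.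
Proof. Let `M ⊆ ℤ²` be the set of the `(z x, z' x)`, `x` integral. `{b | (0, b) ∈ M} = ℤ m`, `m > 0` (not zero: an integral multiple
of the `x` of the hypothesis). `(1, e) ∈ M` for some `e` and `(a, 1) ∈ M` for some `a`; `(a, 1) - a (1, e) = (0, 1 - a e) ∈ M`, so
`m ∣ 1 - a e`: `e` and `m` are coprime. `(s, 0) ∈ M` iff `(0, -s e) ∈ M` iff `m ∣ s e` iff `m ∣ s`. -/
def D_MUL : Prop := ∀ (d : ℕ) (z z' : (Fin d → ℚ) →ₗ[ℚ] ℚ), Prim z → Prim z' → (∃ x, z x = 0 ∧ z' x ≠ 0) →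
  ∃ m : ℚ, 0 < m ∧ (∀ x, Integral x → z x = 0 → ∃ a : ℤ, z' x = m * a) ∧ (∃ x, Integral x ∧ z x = 0 ∧ z' x = m) ∧
    (∀ x, Integral x → z' x = 0 → ∃ a : ℤ, z x = m * a) ∧ ∃ x, Integral x ∧ z' x = 0 ∧ z x = m

/-- D-FCT (50 lines): theorem t_FCT (h : S_DDIM) : D_FCT.  The facets.
Proof. `dim univ = n - 1`, `dim (E S) = n - 2`, and the admissible faces have dimension `≤ n - 3`. -/
def D_FCT : Prop := ∀ (n k : ℕ) (q : Fin n × Bool → Fin (n - 1) → ℚ), DF k q →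
  (∀ G, (IsFace q G ∧ dim q G = n - 2) ↔ ∃ S : Sub k n, G = E S.1) ∧ (∀ S T : Finset (Fin n), E S = E T → S = T) ∧
    ∀ G, (IsFace q G ∧ dim q G = n - 1) ↔ G = univ

/-- D-RDG (90 lines): theorem t_RDG (h : S_DDIM) : D_RDG.  The ridges.
Proof. An admissible face `enc A B` of dimension `n - 3` has `|A| + |B| = n - 2`, so `|A| = n - k - 1`, `|B| = k - 1`, and the complement
of `A ∪ B` is `{x, y}`; it is `E S ∩ E T` for `S = insert x B`, `T = insert y B`. Conversely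
`E S ∩ E T = enc (S ∪ T)ᶜ (S ∩ T)`. `E S ∩ E T ⊆ E R` iff `S ∩ T ⊆ R ⊆ S ∪ T`. -/
def D_RDG : Prop := ∀ (n k : ℕ) (q : Fin n × Bool → Fin (n - 1) → ℚ), DF k q →
  (∀ F, (IsFace q F ∧ dim q F = n - 3) ↔ ∃ S T : Sub k n, Nb S.1 T.1 ∧ F = E S.1 ∩ E T.1) ∧
    ∀ S T R : Sub k n, Nb S.1 T.1 → (E S.1 ∩ E T.1 ⊆ E R.1 ↔ R = S ∨ R = T)

/-- D-NOR (80 lines): theorem t_NOR (h1 : D_KER) (h2 : D_MUL) (h3 : D_RDG) : D_NOR.  The normals of the ridges.
Proof. `F = E S ∩ E T`; the `m` of D-MUL for `z S`, `z T` (the `x` is `q i - q j`, `i ∈ E S \ E T`, `j ∈ F`). The only pairs with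
this intersection are `(S, T)` and `(T, S)` (D-RDG), and `lin q (E S) = ker (z S)` (D-KER). -/
def D_NOR : Prop := ∀ (n k : ℕ) (q : Fin n × Bool → Fin (n - 1) → ℚ) z c, DF k q → Fu k q z c →
  ∀ F, IsFace q F → dim q F = n - 3 → ∃ m : ℚ, 0 < m ∧ ∀ S T : Sub k n, Nb S.1 T.1 → F = E S.1 ∩ E T.1 →
    Normal q F (E S.1) (m⁻¹ • z T.1)

/-- D-SPZ (50 lines): theorem t_SPZ (h : R_SPF) : D_SPZ.
Proof. R-SPF with `I = J = ∅`, `W = Dual × ℚ` of dimension `n`, `sg_of_fu`. For the second part use the functional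
`(f, t) ↦ f x`, which vanishes on all `(z S, c S)`, hence is zero. -/
def D_SPZ : Prop := ∀ (n k : ℕ) (q : Fin n × Bool → Fin (n - 1) → ℚ) z c, DF k q → Fu k q z c →
  (∀ y : ((Fin (n - 1) → ℚ) →ₗ[ℚ] ℚ) × ℚ, y ∈ Submodule.span ℚ {x | ∃ S : Finset (Fin n), S.card = k ∧ x = (z S, c S)}) ∧
    ∀ x, (∀ S : Finset (Fin n), S.card = k → z S x = 0) → x = 0

/-- D-DEP (140 lines): theorem t_DEP (h1 : ∀ m k, 1 ≤ k → k + 1 ≤ m → Rg m k) (h2 : D_SPZ) (h3 : R_ALT) : D_DEP.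
Proof. `V = Fin (n - 1) → ℚ`, `V' = V →ₗ ℚ`, `W = V' × ℚ`, `p S = (z S, c S)`, `a m = ev (q (m, false))`, `b m = ev (q (m, true))`,
`U S = (f, t) ↦ f (u S)`. `Rg n k` gives an alternating `A` on `W` with `U S = A (p S)`. `A (p S) (0, 1) = 0` for all `S`, so
`A x (0, 1) = 0` for all `x` (D-SPZ). `A' f g = A (f, 0) (g, 0)`; `A' (z S) g = A (p S) (g, 0) = g (u S)`. Conversely, for an
alternating form `A'` on `V'` there is `u S ∈ V` with `g (u S) = A' (z S) g` for all `g` (`V = V''`, `Module.evalEquiv`), and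
`u` is in `K`. `A' ↦ u` is linear, injective (the `z S` span `V'`) and onto. R-ALT. -/
def D_DEP : Prop := ∀ (n k : ℕ) (q : Fin n × Bool → Fin (n - 1) → ℚ) z c, DF k q → Fu k q z c →
  ∃ K : Submodule ℚ (Sub k n → Fin (n - 1) → ℚ), (∀ u, u ∈ K ↔ (∀ S : Sub k n, z S.1 (u S) = 0) ∧
    ∀ S T : Sub k n, Nb S.1 T.1 → z T.1 (u S) + z S.1 (u T) = 0) ∧ finrank ℚ K = (n - 1).choose 2

open Classical in
/-- L-SYM (70 lines).  Symmetric functions supported on the pairs of a symmetric irreflexive relation.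
Proof. They are the functions on the edges (`Sym2`, or the pairs with `S < T` for a linear order, e.g. through
`Fintype.equivFin`); every edge gives two ordered pairs. -/
def L_SYM : Prop := ∀ (X : Type) [Fintype X] (N : X → X → Prop), (∀ S T, N S T → N T S) → (∀ S, ¬ N S S) →
  ∃ Y : Submodule ℚ (X → X → ℚ), (∀ w, w ∈ Y ↔ (∀ S T, w S T = w T S) ∧ ∀ S T, ¬ N S T → w S T = 0) ∧
    2 * finrank ℚ Y = (univ.filter fun e : X × X => N e.1 e.2).card

open Classical in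
/-- L-CNT (140 lines): theorem t_CNT (h : L_SYM) : L_CNT.
Proof. `X0 = {u | ∀ S, z S (u S) = 0}`, of dimension `|X| (dim V - 1)`; `Y0` of L-SYM. `Φ : X0 → Y0`,
`Φ u (S, T) = z_T (u S) + z_S (u T)` if `N S T`, else `0`. `K ≅ ker Φ`. The bilinear form `⟨w, y⟩ = ∑_{S,T} w S T * y S T` on
`Y0` is non-degenerate (positive definite), and `⟨w, Φ u⟩ = 2 ∑_S ∑_T w S T z_T (u S)`, so `w` is orthogonal to the image iff
`w ∈ Y`. `finrank Y = finrank Y0 - finrank (range Φ)`, `finrank (range Φ) = finrank X0 - finrank K`. -/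
def L_CNT : Prop := ∀ (X V : Type) [Fintype X] [AddCommGroup V] [Module ℚ V] [FiniteDimensional ℚ V]
  (z : X → V →ₗ[ℚ] ℚ) (N : X → X → Prop), (∀ S, z S ≠ 0) → (∀ S T, N S T → N T S) → (∀ S, ¬ N S S) →
  ∀ (K : Submodule ℚ (X → V)) (Y : Submodule ℚ (X → X → ℚ)),
    (∀ u, u ∈ K ↔ (∀ S, z S (u S) = 0) ∧ ∀ S T, N S T → z T (u S) + z S (u T) = 0) →
    (∀ w, w ∈ Y ↔ (∀ S T, w S T = w T S) ∧ (∀ S T, ¬ N S T → w S T = 0) ∧
      ∀ S x, z S x = 0 → ∑ T, w S T * z T x = 0) →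
    2 * finrank ℚ Y + 2 * (Fintype.card X * (finrank ℚ V - 1)) =
      (univ.filter fun e : X × X => N e.1 e.2).card + 2 * finrank ℚ K

/-- L-YEX (20 lines).  Proof. The conditions are linear. -/
def L_YEX : Prop := ∀ (X V : Type) [Fintype X] [AddCommGroup V] [Module ℚ V]
  (z : X → V →ₗ[ℚ] ℚ) (N : X → X → Prop), ∃ Y : Submodule ℚ (X → X → ℚ),
    ∀ w, w ∈ Y ↔ (∀ S T, w S T = w T S) ∧ (∀ S T, ¬ N S T → w S T = 0) ∧ ∀ S x, z S x = 0 → ∑ T, w S T * z T x = 0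

open Classical in
/-- D-NBC (50 lines).  The number of the ordered pairs of neighbours.
Proof. For every `S` the neighbours are the `insert y (S.erase x)`, `x ∈ S`, `y ∉ S`, all different. -/
def D_NBC : Prop := ∀ (n k : ℕ), (univ.filter fun e : Sub k n × Sub k n => Nb e.1.1 e.2.1).card =
  n.choose k * (k * (n - k))

/-- D-WTR (140 lines): theorem t_WTR (h1 : S_DWTS) (h2 : D_NOR) (h3 : D_RDG) (h4 : D_FCT) (h5 : D_KER) (h6 : S_DEXN) : D_WTR.
Proof. Choose `m_F` by D-NOR. For a weight `w` (S_DWTS) put `w' S T = w (E S ∩ E T) / m` if `Nb S T`, else `0`. The relation of `G = E S`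
(every `G` is of this form, D-FCT) and of `x ∈ ker (z S)` integral (D-KER) is `r F = m_F⁻¹ z_T x`, `F = E S ∩ E T` (uniqueness: S_DEXN;
the ridges in `E S` correspond to the neighbours `T` of `S` by D-RDG), so `∑ r F w F = ∑_T w' S T * z_T x`. Every `x ∈ ker (z S)` has
an integral positive multiple. Inverse: `w F = m_F * w' S T`. This is a linear equivalence between the weights and `Y`. -/
def D_WTR : Prop := ∀ (n k : ℕ) (q : Fin n × Bool → Fin (n - 1) → ℚ) z c, DF k q → Fu k q z c →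
  ∀ Y : Submodule ℚ (Sub k n → Sub k n → ℚ), (∀ w, w ∈ Y ↔ (∀ S T, w S T = w T S) ∧
    (∀ S T : Sub k n, ¬ Nb S.1 T.1 → w S T = 0) ∧ ∀ (S : Sub k n) x, z S.1 x = 0 → ∑ T : Sub k n, w S T * z T.1 x = 0) →
    chowBetti q (n - 3) = finrank ℚ Y

/-- D-CTW (100 lines): theorem t_CTW (h1 : S_DWTS) (h2 : D_FCT) (h3 : D_SPZ) (h4 : S_DEXN) : D_CTW.
Proof. The weights are functions of the facets `E S`; the only `G` is `univ` (D-FCT), and `z S` is the normal of `E S` in `univ`: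
the weights are the `w` with `∑_S w S z S = 0`, the kernel of `(Sub k n → ℚ) → (V →ₗ ℚ)`, which is onto (D-SPZ). -/
def D_CTW : Prop := ∀ (n k : ℕ) (q : Fin n × Bool → Fin (n - 1) → ℚ) z c, DF k q → Fu k q z c →
  chowBetti q (n - 2) + (n - 1) = n.choose k

/-- D-CON1 (50 lines): theorem t_CON1 (h1 : S_DDIM) (h2 : D_FCT) : D_CON1.
Proof. `FaceOf q (n - 1)` has the only element `univ`, and there is no relation, as `dim q G ≤ n - 1` for all `G`
(`4 ≤ n`). `FaceOf q j` is empty for `n ≤ j`. -/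
def D_CON1 : Prop := ∀ (n k : ℕ) (q : Fin n × Bool → Fin (n - 1) → ℚ), DF k q →
  chowBetti q (n - 1) = 1 ∧ ∀ j, n ≤ j → chowBetti q j = 0

/-- D-CZA (140 lines): theorem t_CZA (h1 : S_DDIM) (h2 : S_DEXN) (h3 : S_DVOL) : D_CZA.
Proof. `vol` is the function `w` of S_DVOL. `G = enc A B` has `j + 2` elements and dimension `j + 1`; the faces of dimension `j`
contained in `G` are the `F_i = G.erase i` (admissible, `j + 1` elements; all the faces of dimension `j + 1 ≤ n - 3` are such `G`).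
`ν_i` the normal, `h_i = ν_i (q i - q i') > 0` for `i' ∈ F_i`. For `u = q i - q i'` the relation is
`h_i w (F_i) - h_i' w (F_i') = 0` (`ν_l u = 0` for `l ≠ i, i'`), and these `u` span `lin q G` (a relation for an integral multiple of
`u`; linearity in `u`). `vol G = vol F_i * (N * h_i)`, so `h_i = vol G / (N * vol F_i)`. -/
def D_CZA : Prop := ∀ (n k : ℕ) (q : Fin n × Bool → Fin (n - 1) → ℚ), DF k q → ∀ j, j + 4 ≤ n →
  ∃ vol : Finset (Fin n × Bool) → ℚ, (∀ T, IsFace q T → dim q T = j → 0 < vol T) ∧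
    ∀ w : Finset (Fin n × Bool) → ℚ, (∀ r, IsRelation q j r → r.sum (fun F a => a * w F.1) = 0) ↔
      ∀ A B : Finset (Fin n), Adm k A B → A.card + B.card = j + 2 → ∀ i ∈ enc A B, ∀ i' ∈ enc A B,
        w ((enc A B).erase i) / vol ((enc A B).erase i) = w ((enc A B).erase i') / vol ((enc A B).erase i')

/-- D-CZR (80 lines): theorem t_CZR (h1 : S_DDIM) (h2 : S_DWTS) (h3 : S_DCNN) (h4 : D_CZA) : D_CZR.
Proof. The weights (S_DWTS) are the multiples of `vol`: `w / vol` is constant on the facets of the admissible sets, so it is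
constant by S_DCNN (`s = j + 1`; the faces of dimension `j` are the `enc A B` with `j + 1` elements, S_DDIM), and `vol` is a
weight. There is a face of dimension `j`. So `finrank = 1` (`finrank_eq_one_iff'`). -/
def D_CZR : Prop := ∀ (n k : ℕ) (q : Fin n × Bool → Fin (n - 1) → ℚ), DF k q → ∀ j, j + 4 ≤ n → chowBetti q j = 1

end Pool.Agent.CB
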