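import Pool.Agent.CB.Stm

/-!
# Project CB (MP_745f23_co, full answer): face lattices

From isomorphisms of face lattices to labelled realizations. Piece `X` is the theorem `t_X : S_X` in the file
`Pool/Agent/CB/X.lean` (namespace `Pool.Agent.CB`, `import Pool.Agent.CB.StmIso`).
-/

set_option autoImplicit false

namespace Pool.Agent.CB

open Finset Module

/-- the points `p i` are the vertices of a full-dimensional polytope (each once) -/
def Polytope {ι : Type} [Fintype ι] {d : ℕ} (p : ι → Fin d → ℚ) : Prop :=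
  lin p univ = ⊤ ∧ ∀ i, IsFace p {i}

/-- the face lattice is isomorphic to the face lattice of the hypersimplex `Δ(k, n)` (nonempty faces, ordered by
inclusion) -/
def HasType {ι : Type} [Fintype ι] {d : ℕ} (p : ι → Fin d → ℚ) (k n : ℕ) : Prop :=
  Nonempty ({T : Finset ι // IsFace p T} ≃o {T : Finset (Sub k n) // IsFace (std k n) T})

/-- the face lattice is isomorphic to the face lattice of the dual of `Δ(k, n)` (nonempty proper faces, the order
is reversed) -/
def HasDualType {ι : Type} [Fintype ι] {d : ℕ} (p : ι → Fin d → ℚ) (k n : ℕ) : Prop :=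
  Nonempty ({T : Finset ι // IsFace p T ∧ T ≠ univ} ≃o
    ({T : Finset (Sub k n) // IsFace (std k n) T ∧ T ≠ univ})ᵒᵈ)

/-- **REL** (80 lines). Renaming the vertices does not change faces, dimensions, normals and Chow-Betti numbers: faces of
`p ∘ g` are the preimages of the faces of `p`; `lin` is the same; the bijection of the faces transports the relations
(`Finsupp.domLCongr`), quotients are isomorphic. -/
def S_REL : Prop :=
  ∀ (ι ι' : Type) [Fintype ι] [Fintype ι'] [DecidableEq ι] [DecidableEq ι'] (d : ℕ) (p : ι → Fin d → ℚ) (g : ι' ≃ ι),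
    (∀ T : Finset ι', IsFace (p ∘ g) T ↔ IsFace p (T.map g.toEmbedding)) ∧
    lin (p ∘ g) univ = lin p univ ∧ ∀ j, chowBetti (p ∘ g) j = chowBetti p j

/-- **ISO1** (100 lines, from `S_REL`). The minimal elements of both posets are the single sets (`std k n` also has the
faces `{S}`: functional `x ↦ - ∑ m ∈ S, x m`), so the isomorphism `e` gives a bijection `g : Sub k n ≃ ι`; as `{i} ≤ T` iff
`e {i} ≤ e T`, `e T` is the image of `T`. Take `p' = p ∘ g`. -/
def S_ISO1 : Prop :=
  ∀ (k n : ℕ), 1 ≤ k → k < n → ∀ (ι : Type) [Fintype ι] [DecidableEq ι] (p : ι → Fin (n - 1) → ℚ),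
    Polytope p → HasType p k n → ∃ p' : Sub k n → Fin (n - 1) → ℚ, Real p' ∧ ∀ j, chowBetti p j = chowBetti p' j

/-- **ISO2** (150 lines, from `S_REL`, `S_FCS`). The minimal elements of the left poset are the `{i}` (they are proper as
`lin p univ = ⊤`, `n ≥ 4`), the minimal elements of the right one are the maximal proper faces of `std k n`, by `S_FCS`
the `fc k {m} ∅` and `fc k ∅ {m}` (`2 n` different ones; a single point is not maximal), that is `(m, false)` and
`(m, true)`: `g : Fin n × Bool ≃ ι`. For a proper face `T` of `p` with `e T = F`: `i ∈ T` iff `{i} ≤ T` iff `F ⊆ e {i}` iff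
`Has F (g⁻¹ i)` (`F ⊆ fc k {m} ∅` iff `m ∉ S` for all `S ∈ F`; `F ⊆ fc k ∅ {m}` iff `m ∈ S` for all `S ∈ F`). Take
`q = p ∘ g`; `univ` is a face (functional `0`). -/
def S_ISO2 : Prop :=
  ∀ (k n : ℕ), 2 ≤ k → k + 2 ≤ n → ∀ (ι : Type) [Fintype ι] [DecidableEq ι] (p : ι → Fin (n - 1) → ℚ),
    Polytope p → HasDualType p k n →
    ∃ q : Fin n × Bool → Fin (n - 1) → ℚ, RealDual k q ∧ ∀ j, chowBetti p j = chowBetti q j

/-- **ISO3** (150 lines, from `S_REL`, `S_FCS` or directly). The simplices: for `k = 1` and `k = n - 1` every nonempty set of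
vertices of `std k n` is a face. The minimal elements of the left poset are the `{i}` (proper if `n ≥ 2`), those of the
right one are the complements of single points; this gives a bijection `g : Sub k n ≃ ι` (`e {i}` is the complement of
`{g⁻¹ i}`). A proper nonempty `T` with `e T = F`: `i ∈ T` iff `F ⊆ {g⁻¹ i}ᶜ`, so `T` is the image of the complement of `F`; so all
nonempty sets are faces of `p`, and `p' = p ∘ g` is a realization of `Δ(k, n)`. -/
def S_ISO3 : Prop :=
  ∀ (k n : ℕ), 1 ≤ k → k < n → (k = 1 ∨ k = n - 1) → ∀ (ι : Type) [Fintype ι] [DecidableEq ι]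
    (p : ι → Fin (n - 1) → ℚ), Polytope p → HasDualType p k n →
    ∃ p' : Sub k n → Fin (n - 1) → ℚ, Real p' ∧ ∀ j, chowBetti p j = chowBetti p' j

end Pool.Agent.CB
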